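import Pool.Agent.Helper234.LInf.Defs

open MeasureTheory Filter Topology

namespace Pool.Agent.Helper234.LInf

universe u

instance : IsProbabilityMeasure I01 := by
  constructor
  simp [I01]

/-- Rademacher functions. -/
noncomputable def rad (m : ℕ) (t : ℝ) : ℝ := if Even ⌊(2 : ℝ) ^ (m + 1) * t⌋ then 1 else -1

theorem rad_sq (m : ℕ) (t : ℝ) : rad m t * rad m t = 1 := by
  unfold rad; split_ifs <;> norm_num

theorem abs_rad (m : ℕ) (t : ℝ) : |rad m t| ≤ 1 := by
  unfold rad; split_ifs <;> norm_num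

theorem rad_or (m : ℕ) (t : ℝ) : rad m t = 1 ∨ rad m t = -1 := by
  unfold rad; split_ifs <;> simp

theorem measurable_rad (m : ℕ) : Measurable (rad m) := by
  unfold rad
  refine Measurable.ite ?_ measurable_const measurable_const
  have h : Measurable fun t : ℝ => ⌊(2 : ℝ) ^ (m + 1) * t⌋ :=
    Int.measurable_floor.comp (measurable_const.mul measurable_id)
  exact h (MeasurableSet.of_discrete (s := {n : ℤ | Even n}))

section basic
variable {X : Type u} [NormedAddCommGroup X]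

theorem lp_norm_le {f : Lp X ⊤ I01} {C : ℝ} (hC : 0 ≤ C) (h : ∀ᵐ t ∂I01, ‖f t‖ ≤ C) :
    ‖f‖ ≤ C := by
  have := Lp.norm_le_of_ae_bound hC h
  simpa using this

theorem lp_ae_le (f : Lp X ⊤ I01) : ∀ᵐ t ∂I01, ‖f t‖ ≤ ‖f‖ := by
  have h := Lp.enorm_def f
  have h2 : ∀ᵐ t ∂I01, ‖f t‖ₑ ≤ eLpNormEssSup f I01 := ae_le_eLpNormEssSup
  filter_upwards [h2] with t ht
  rw [← eLpNorm_exponent_top, ← h] at ht
  exact (enorm_le_iff_norm_le.mp ht)

end basic

variable (𝕜 : Type) [RCLike 𝕜] {X : Type u} [NormedAddCommGroup X] [NormedSpace 𝕜 X]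

theorem memLp_tens (φ : ℝ → ℝ) (hφ : Measurable φ) (hb : ∀ t, |φ t| ≤ 1) (x : X) :
    MemLp (fun t => ((φ t : ℝ) : 𝕜) • x) ⊤ I01 := by
  refine MemLp.of_bound ?_ ‖x‖ ?_
  · have h1 : Measurable fun t => ((φ t : ℝ) : 𝕜) := RCLike.measurable_ofReal.comp hφ
    exact (h1.aestronglyMeasurable).smul aestronglyMeasurable_const
  · refine Eventually.of_forall fun t => ?_
    rw [norm_smul, RCLike.norm_ofReal]
    exact mul_le_of_le_one_left (norm_nonneg _) (hb t)

/-- the operator sending `x` to the function `φ(t) x` -/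
noncomputable def tens (φ : ℝ → ℝ) (hφ : Measurable φ) (hb : ∀ t, |φ t| ≤ 1) :
    X →L[𝕜] Lp X ⊤ I01 :=
  LinearMap.mkContinuous
    { toFun := fun x => (memLp_tens 𝕜 φ hφ hb x).toLp
      map_add' := by
        intro x y
        rw [← MemLp.toLp_add]
        apply MemLp.toLp_congr
        refine Eventually.of_forall fun t => ?_
        simp [smul_add]
      map_smul' := by
        intro c x
        simp only [RingHom.id_apply]
        rw [← MemLp.toLp_const_smul]
        apply MemLp.toLp_congr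
        refine Eventually.of_forall fun t => ?_
        simp only [Pi.smul_apply]
        rw [smul_comm] } 1 (by
    intro x
    rw [one_mul]
    refine lp_norm_le (norm_nonneg _) ?_
    filter_upwards [MemLp.coeFn_toLp (memLp_tens 𝕜 φ hφ hb x)] with t ht
    rw [LinearMap.coe_mk, AddHom.coe_mk, ht, norm_smul, RCLike.norm_ofReal]
    exact mul_le_of_le_one_left (norm_nonneg _) (hb t))

theorem tens_ae (φ : ℝ → ℝ) (hφ : Measurable φ) (hb : ∀ t, |φ t| ≤ 1) (x : X) :
    ∀ᵐ t ∂I01, tens 𝕜 φ hφ hb x t = ((φ t : ℝ) : 𝕜) • x :=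
  MemLp.coeFn_toLp (memLp_tens 𝕜 φ hφ hb x)

theorem tens_norm (φ : ℝ → ℝ) (hφ : Measurable φ) (hb : ∀ t, |φ t| ≤ 1) :
    ‖(tens 𝕜 φ hφ hb : X →L[𝕜] Lp X ⊤ I01)‖ ≤ 1 :=
  LinearMap.mkContinuous_norm_le _ zero_le_one _

theorem memLp_mul (φ : ℝ → ℝ) (hφ : Measurable φ) (hb : ∀ t, |φ t| ≤ 1) (f : Lp X ⊤ I01) :
    MemLp (fun t => ((φ t : ℝ) : 𝕜) • f t) ⊤ I01 := by
  have h1 : Measurable fun t => ((φ t : ℝ) : 𝕜) := RCLike.measurable_ofReal.comp hφ
  refine MemLp.of_bound ((h1.aestronglyMeasurable).smul (Lp.aestronglyMeasurable f)) ‖f‖ ?_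
  filter_upwards [lp_ae_le f] with t ht
  rw [norm_smul, RCLike.norm_ofReal]
  exact (mul_le_of_le_one_left (norm_nonneg _) (hb t)).trans ht

/-- multiplication by the real function `φ` -/
noncomputable def mulOp (φ : ℝ → ℝ) (hφ : Measurable φ) (hb : ∀ t, |φ t| ≤ 1) :
    Lp X ⊤ I01 →L[𝕜] Lp X ⊤ I01 :=
  LinearMap.mkContinuous
    { toFun := fun f => (memLp_mul 𝕜 φ hφ hb f).toLp
      map_add' := by
        intro f g
        rw [← MemLp.toLp_add]
        apply MemLp.toLp_congr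
        filter_upwards [Lp.coeFn_add f g] with t ht
        simp only [Pi.add_apply]
        rw [ht, Pi.add_apply, smul_add]
      map_smul' := by
        intro c f
        simp only [RingHom.id_apply]
        rw [← MemLp.toLp_const_smul]
        apply MemLp.toLp_congr
        filter_upwards [Lp.coeFn_smul c f] with t ht
        simp only [Pi.smul_apply]
        rw [ht, Pi.smul_apply, smul_comm] } 1 (by
    intro f
    rw [one_mul]
    refine lp_norm_le (norm_nonneg _) ?_
    filter_upwards [MemLp.coeFn_toLp (memLp_mul 𝕜 φ hφ hb f), lp_ae_le f] with t ht h2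
    rw [LinearMap.coe_mk, AddHom.coe_mk, ht, norm_smul, RCLike.norm_ofReal]
    exact (mul_le_of_le_one_left (norm_nonneg _) (hb t)).trans h2)

theorem mulOp_ae (φ : ℝ → ℝ) (hφ : Measurable φ) (hb : ∀ t, |φ t| ≤ 1) (f : Lp X ⊤ I01) :
    ∀ᵐ t ∂I01, mulOp 𝕜 φ hφ hb f t = ((φ t : ℝ) : 𝕜) • f t :=
  MemLp.coeFn_toLp (memLp_mul 𝕜 φ hφ hb f)

theorem mulOp_norm (φ : ℝ → ℝ) (hφ : Measurable φ) (hb : ∀ t, |φ t| ≤ 1) :
    ‖(mulOp 𝕜 φ hφ hb : Lp X ⊤ I01 →L[𝕜] Lp X ⊤ I01)‖ ≤ 1 :=
  LinearMap.mkContinuous_norm_le _ zero_le_one _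

/-- restriction (multiplication by the indicator) to a measurable set -/
noncomputable def restr (B : Set ℝ) (hB : MeasurableSet B) : Lp X ⊤ I01 →L[𝕜] Lp X ⊤ I01 :=
  mulOp 𝕜 (B.indicator 1) (measurable_one.indicator hB) (by
    intro t; by_cases h : t ∈ B <;> simp [h])

theorem restr_ae (B : Set ℝ) (hB : MeasurableSet B) (f : Lp X ⊤ I01) :
    ∀ᵐ t ∂I01, restr 𝕜 B hB f t = B.indicator (fun s => f s) t := by
  filter_upwards [mulOp_ae 𝕜 (B.indicator 1) (measurable_one.indicator hB) (by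
    intro t; by_cases h : t ∈ B <;> simp [h]) f] with t ht
  unfold restr
  rw [ht]
  by_cases h : t ∈ B <;> simp [h]

theorem restr_norm (B : Set ℝ) (hB : MeasurableSet B) :
    ‖(restr 𝕜 B hB : Lp X ⊤ I01 →L[𝕜] Lp X ⊤ I01)‖ ≤ 1 := mulOp_norm _ _ _ _

section integral
variable [NormedSpace ℝ X] [IsScalarTower ℝ 𝕜 X]

/-- integration over the unit interval as an operator on bounded functions -/
noncomputable def intOp [CompleteSpace X] : Lp X ⊤ I01 →L[𝕜] X :=
  LinearMap.mkContinuous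
    { toFun := fun f => ∫ t, f t ∂I01
      map_add' := by
        intro f g
        rw [← integral_add (memLp_one_iff_integrable.mp ((Lp.memLp f).mono_exponent le_top))
          (memLp_one_iff_integrable.mp ((Lp.memLp g).mono_exponent le_top))]
        exact integral_congr_ae (by filter_upwards [Lp.coeFn_add f g] with t ht; rw [ht, Pi.add_apply])
      map_smul' := by
        intro c f
        rw [RingHom.id_apply, ← integral_smul]
        exact integral_congr_ae (by filter_upwards [Lp.coeFn_smul c f] with t ht; rw [ht, Pi.smul_apply]) } 1 (by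
    intro f
    rw [one_mul, LinearMap.coe_mk, AddHom.coe_mk]
    refine (norm_integral_le_of_norm_le_const (lp_ae_le f)).trans ?_
    simp)

theorem intOp_apply [CompleteSpace X] (f : Lp X ⊤ I01) :
    (intOp 𝕜 : Lp X ⊤ I01 →L[𝕜] X) f = ∫ t, f t ∂I01 := rfl

theorem intOp_norm [CompleteSpace X] : ‖(intOp 𝕜 : Lp X ⊤ I01 →L[𝕜] X)‖ ≤ 1 :=
  LinearMap.mkContinuous_norm_le _ zero_le_one _

end integral

end Pool.Agent.Helper234.LInf
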