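import Pool.Agent.Helper234.LInf.Core
import Pool.Agent.Helper234.LInf.Ops

open MeasureTheory Filter Topology

namespace Pool.Agent.Helper234.LInf

universe u

/-- absolute continuity of an operator on bounded functions -/
def AC {X : Type u} [NormedAddCommGroup X] (S : Lp X ⊤ I01 → X) : Prop :=
  ∀ ε > (0 : ℝ), ∃ δ > (0 : ℝ), ∀ f : Lp X ⊤ I01, ‖f‖ ≤ 1 →
    I01 {t | f t ≠ 0} ≤ ENNReal.ofReal δ → ‖S f‖ ≤ ε

theorem ac_l1 (𝕜 : Type) [RCLike 𝕜] {X : Type u} [NormedAddCommGroup X] [NormedSpace 𝕜 X]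
    (S : Lp X ⊤ I01 →L[𝕜] X) (hS : AC S) :
    ∀ ε > (0 : ℝ), ∃ δ > (0 : ℝ), ∀ f : Lp X ⊤ I01, ‖f‖ ≤ 1 → ∫ t, ‖f t‖ ∂I01 ≤ δ →
      ‖S f‖ ≤ ε := by
  intro ε hε
  obtain ⟨δ₀, hδ₀, hac⟩ := hS (ε / 2) (by positivity)
  set τ : ℝ := ε / (2 * (‖S‖ + 1)) with hτ
  have hSpos : 0 < ‖S‖ + 1 := by positivity
  have hτpos : 0 < τ := by positivity
  refine ⟨τ * δ₀, by positivity, fun f hf hint => ?_⟩
  have hfm : Measurable (fun t => ‖f t‖) := (Lp.stronglyMeasurable f).norm.measurable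
  have hB : MeasurableSet {t : ℝ | τ < ‖f t‖} := measurableSet_lt measurable_const hfm
  set B : Set ℝ := {t : ℝ | τ < ‖f t‖} with hBdef
  have hr := restr_ae 𝕜 B hB f
  -- the small part
  have h2 : ‖f - restr 𝕜 B hB f‖ ≤ τ := by
    refine lp_norm_le hτpos.le ?_
    filter_upwards [hr, Lp.coeFn_sub f (restr 𝕜 B hB f)] with t ht ht2
    rw [ht2, Pi.sub_apply, ht]
    by_cases htB : t ∈ B
    · rw [Set.indicator_of_mem htB, sub_self, norm_zero]; exact hτpos.le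
    · rw [Set.indicator_of_notMem htB, sub_zero]
      exact not_lt.1 htB
  have h3 : ‖S (f - restr 𝕜 B hB f)‖ ≤ ε / 2 := by
    calc ‖S (f - restr 𝕜 B hB f)‖ ≤ ‖S‖ * ‖f - restr 𝕜 B hB f‖ := S.le_opNorm _
      _ ≤ (‖S‖ + 1) * τ := by
          apply mul_le_mul (by linarith) h2 (norm_nonneg _) hSpos.le
      _ = ε / 2 := by rw [hτ]; field_simp
  -- the part with small support
  have h4 : ‖restr 𝕜 B hB f‖ ≤ 1 := by
    calc ‖restr 𝕜 B hB f‖ ≤ ‖(restr 𝕜 B hB : Lp X ⊤ I01 →L[𝕜] Lp X ⊤ I01)‖ * ‖f‖ :=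
          ContinuousLinearMap.le_opNorm _ _
      _ ≤ 1 * 1 := mul_le_mul (restr_norm 𝕜 B hB) hf (norm_nonneg _) zero_le_one
      _ = 1 := one_mul 1
  have hfi : Integrable (fun t => ‖f t‖) I01 :=
    (memLp_one_iff_integrable.mp ((Lp.memLp f).mono_exponent le_top)).norm
  have h5 : I01 {t | restr 𝕜 B hB f t ≠ 0} ≤ ENNReal.ofReal δ₀ := by
    have h6 : I01 {t | restr 𝕜 B hB f t ≠ 0} ≤ I01 B := by
      apply measure_mono_ae
      filter_upwards [hr] with t ht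
      intro hne
      by_contra htB
      have htB' : t ∉ B := htB
      apply hne
      rw [ht, Set.indicator_of_notMem htB']
    have h7 := mul_meas_ge_le_integral_of_nonneg (μ := I01) (f := fun t => ‖f t‖)
      (Eventually.of_forall fun t => norm_nonneg _) hfi τ
    have h8 : I01.real {t | τ ≤ ‖f t‖} ≤ δ₀ := by
      have := h7.trans hint
      exact le_of_mul_le_mul_left this hτpos
    have h9 : I01 B ≤ I01 {t | τ ≤ ‖f t‖} := by
      apply measure_mono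
      intro t ht
      have ht' : τ < ‖f t‖ := ht
      exact ht'.le
    refine (h6.trans h9).trans ?_
    rw [← ofReal_measureReal (measure_ne_top _ _)]
    exact ENNReal.ofReal_le_ofReal h8
  have h10 := hac _ h4 h5
  have h11 : S f = S (f - restr 𝕜 B hB f) + S (restr 𝕜 B hB f) := by
    rw [← map_add, sub_add_cancel]
  rw [h11]
  calc ‖S (f - restr 𝕜 B hB f) + S (restr 𝕜 B hB f)‖ ≤ _ := norm_add_le _ _
    _ ≤ ε / 2 + ε / 2 := add_le_add h3 h10
    _ = ε := by ring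

open Classical in
/-- glued function -/
noncomputable def exG (𝕜 : Type) [RCLike 𝕜] {X : Type u} [NormedAddCommGroup X] [NormedSpace 𝕜 X]
    (B : ℕ → Set ℝ) (f : ℕ → Lp X ⊤ I01) (y : ℕ → 𝕜) (t : ℝ) : X :=
  if h : ∃ i, t ∈ B i then y (Classical.choose h) • f (Classical.choose h) t else 0

theorem exG_mem (𝕜 : Type) [RCLike 𝕜] {X : Type u} [NormedAddCommGroup X] [NormedSpace 𝕜 X]
    {B : ℕ → Set ℝ} (hd : ∀ i j, i ≠ j → Disjoint (B i) (B j)) (f : ℕ → Lp X ⊤ I01) (y : ℕ → 𝕜)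
    {t : ℝ} {i : ℕ} (h : t ∈ B i) : exG 𝕜 B f y t = y i • f i t := by
  have h' : ∃ i, t ∈ B i := ⟨i, h⟩
  have hi : Classical.choose h' = i := by
    by_contra hne
    exact Set.disjoint_left.1 (hd _ _ hne) (Classical.choose_spec h') h
  unfold exG
  rw [dif_pos h', hi]

theorem exG_notMem (𝕜 : Type) [RCLike 𝕜] {X : Type u} [NormedAddCommGroup X] [NormedSpace 𝕜 X]
    {B : ℕ → Set ℝ} (f : ℕ → Lp X ⊤ I01) (y : ℕ → 𝕜)
    {t : ℝ} (h : ¬ ∃ i, t ∈ B i) : exG 𝕜 B f y t = 0 := by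
  unfold exG
  rw [dif_neg h]

theorem exG_meas (𝕜 : Type) [RCLike 𝕜] {X : Type u} [NormedAddCommGroup X] [NormedSpace 𝕜 X]
    {B : ℕ → Set ℝ} (hB : ∀ i, MeasurableSet (B i)) (hd : ∀ i j, i ≠ j → Disjoint (B i) (B j))
    (f : ℕ → Lp X ⊤ I01) (y : ℕ → 𝕜) : AEStronglyMeasurable (exG 𝕜 B f y) I01 := by
  refine aestronglyMeasurable_of_tendsto_ae atTop
    (f := fun n t => ∑ i ∈ Finset.range n, (B i).indicator (fun t => y i • f i t) t) ?_ ?_
  · intro n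
    have h1 : ∀ i ∈ Finset.range n, AEStronglyMeasurable
        (fun t => (B i).indicator (fun t => y i • f i t) t) I01 := by
      intro i _
      exact ((Lp.aestronglyMeasurable (f i)).const_smul (y i)).indicator (hB i)
    exact Finset.aestronglyMeasurable_fun_sum _ h1
  · refine Eventually.of_forall fun t => ?_
    by_cases h : ∃ i, t ∈ B i
    · obtain ⟨i, hi⟩ := h
      rw [exG_mem 𝕜 hd f y hi]
      refine tendsto_const_nhds.congr' ?_
      filter_upwards [eventually_gt_atTop i] with n hn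
      rw [Finset.sum_eq_single_of_mem i (Finset.mem_range.2 hn)]
      · rw [Set.indicator_of_mem hi]
      · intro j _ hji
        rw [Set.indicator_of_notMem]
        intro hj
        exact Set.disjoint_left.1 (hd j i hji) hj hi
    · rw [exG_notMem 𝕜 f y h]
      refine tendsto_const_nhds.congr' ?_
      refine Eventually.of_forall fun n => ?_
      symm
      refine Finset.sum_eq_zero fun i _ => ?_
      rw [Set.indicator_of_notMem]
      exact fun hi => h ⟨i, hi⟩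

theorem exG_bound (𝕜 : Type) [RCLike 𝕜] {X : Type u} [NormedAddCommGroup X] [NormedSpace 𝕜 X]
    {B : ℕ → Set ℝ} (hd : ∀ i j, i ≠ j → Disjoint (B i) (B j))
    (f : ℕ → Lp X ⊤ I01) (hf : ∀ i, ‖f i‖ ≤ 1) (y : lp (fun _ : ℕ => 𝕜) ⊤) :
    ∀ᵐ t ∂I01, ‖exG 𝕜 B f (fun i => y i) t‖ ≤ ‖y‖ := by
  have h1 : ∀ᵐ t ∂I01, ∀ i, ‖f i t‖ ≤ ‖f i‖ := ae_all_iff.2 fun i => lp_ae_le (f i)
  filter_upwards [h1] with t ht
  by_cases h : ∃ i, t ∈ B i
  · obtain ⟨i, hi⟩ := h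
    rw [exG_mem 𝕜 hd f _ hi, norm_smul]
    have h2 : ‖y i‖ ≤ ‖y‖ := lp.norm_apply_le_norm (by simp) y i
    have h3 : ‖f i t‖ ≤ 1 := (ht i).trans (hf i)
    calc ‖y i‖ * ‖f i t‖ ≤ ‖y‖ * 1 :=
          mul_le_mul h2 h3 (norm_nonneg _) (norm_nonneg _)
      _ = ‖y‖ := mul_one _
  · rw [exG_notMem 𝕜 f _ h, norm_zero]
    exact norm_nonneg _

theorem exG_memLp (𝕜 : Type) [RCLike 𝕜] {X : Type u} [NormedAddCommGroup X] [NormedSpace 𝕜 X]
    {B : ℕ → Set ℝ} (hB : ∀ i, MeasurableSet (B i)) (hd : ∀ i j, i ≠ j → Disjoint (B i) (B j))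
    (f : ℕ → Lp X ⊤ I01) (hf : ∀ i, ‖f i‖ ≤ 1) (y : lp (fun _ : ℕ => 𝕜) ⊤) :
    MemLp (exG 𝕜 B f (fun i => y i)) ⊤ I01 :=
  MemLp.of_bound (exG_meas 𝕜 hB hd f _) ‖y‖ (exG_bound 𝕜 hd f hf y)

/-- the operator from bounded sequences -/
noncomputable def exW (𝕜 : Type) [RCLike 𝕜] {X : Type u} [NormedAddCommGroup X] [NormedSpace 𝕜 X]
    {B : ℕ → Set ℝ} (hB : ∀ i, MeasurableSet (B i)) (hd : ∀ i j, i ≠ j → Disjoint (B i) (B j))
    (f : ℕ → Lp X ⊤ I01) (hf : ∀ i, ‖f i‖ ≤ 1) : lp (fun _ : ℕ => 𝕜) ⊤ →L[𝕜] Lp X ⊤ I01 :=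
  LinearMap.mkContinuous
    { toFun := fun y => (exG_memLp 𝕜 hB hd f hf y).toLp
      map_add' := by
        intro x y
        rw [← MemLp.toLp_add]
        apply MemLp.toLp_congr
        refine Eventually.of_forall fun t => ?_
        by_cases h : ∃ i, t ∈ B i
        · obtain ⟨i, hi⟩ := h
          simp only [Pi.add_apply]
          rw [exG_mem 𝕜 hd f _ hi, exG_mem 𝕜 hd f _ hi, exG_mem 𝕜 hd f _ hi, ← add_smul]
          rfl
        · simp only [Pi.add_apply]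
          rw [exG_notMem 𝕜 f _ h, exG_notMem 𝕜 f _ h, exG_notMem 𝕜 f _ h, add_zero]
      map_smul' := by
        intro c x
        simp only [RingHom.id_apply]
        rw [← MemLp.toLp_const_smul]
        apply MemLp.toLp_congr
        refine Eventually.of_forall fun t => ?_
        by_cases h : ∃ i, t ∈ B i
        · obtain ⟨i, hi⟩ := h
          simp only [Pi.smul_apply]
          rw [exG_mem 𝕜 hd f _ hi, exG_mem 𝕜 hd f _ hi, smul_smul]
          rfl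
        · simp only [Pi.smul_apply]
          rw [exG_notMem 𝕜 f _ h, exG_notMem 𝕜 f _ h, smul_zero] } 1 (by
    intro y
    rw [one_mul]
    refine lp_norm_le (norm_nonneg _) ?_
    filter_upwards [MemLp.coeFn_toLp (exG_memLp 𝕜 hB hd f hf y), exG_bound 𝕜 hd f hf y]
      with t ht h2
    rw [LinearMap.coe_mk, AddHom.coe_mk, ht]
    exact h2)

theorem exW_ae (𝕜 : Type) [RCLike 𝕜] {X : Type u} [NormedAddCommGroup X] [NormedSpace 𝕜 X]
    {B : ℕ → Set ℝ} (hB : ∀ i, MeasurableSet (B i)) (hd : ∀ i j, i ≠ j → Disjoint (B i) (B j))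
    (f : ℕ → Lp X ⊤ I01) (hf : ∀ i, ‖f i‖ ≤ 1) (y : lp (fun _ : ℕ => 𝕜) ⊤) :
    ∀ᵐ t ∂I01, exW 𝕜 hB hd f hf y t = exG 𝕜 B f (fun i => y i) t :=
  MemLp.coeFn_toLp (exG_memLp 𝕜 hB hd f hf y)

theorem exhaust (𝕜 : Type) [RCLike 𝕜] {X : Type u} [NormedAddCommGroup X] [NormedSpace 𝕜 X]
    (hX : ¬ ContainsLinf 𝕜 X) (S : Lp X ⊤ I01 →L[𝕜] X) (B : ℕ → Set ℝ)
    (hB : ∀ i, MeasurableSet (B i)) (hd : ∀ i j, i ≠ j → Disjoint (B i) (B j))
    (f : ℕ → Lp X ⊤ I01) (hf : ∀ i, ‖f i‖ ≤ 1) :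
    Tendsto (fun i => S (restr 𝕜 (B i) (hB i) (f i))) atTop (𝓝 0) := by
  have h := linf_free_null 𝕜 X hX (S.comp (exW 𝕜 hB hd f hf))
  refine h.congr fun i => ?_
  rw [ContinuousLinearMap.comp_apply]
  congr 1
  apply Lp.ext
  filter_upwards [exW_ae 𝕜 hB hd f hf (lp.single ⊤ i (1 : 𝕜)), restr_ae 𝕜 (B i) (hB i) (f i)]
    with t h1 h2
  rw [h1, h2]
  by_cases hi : t ∈ B i
  · rw [exG_mem 𝕜 hd f _ hi, Set.indicator_of_mem hi]
    have : (lp.single (E := fun _ : ℕ => 𝕜) ⊤ i (1 : 𝕜)) i = 1 := by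
      rw [lp.coeFn_single, Pi.single_eq_same]
    rw [this, one_smul]
  · rw [Set.indicator_of_notMem hi]
    by_cases h3 : ∃ j, t ∈ B j
    · obtain ⟨j, hj⟩ := h3
      rw [exG_mem 𝕜 hd f _ hj]
      have hji : j ≠ i := by
        rintro rfl
        exact hi hj
      have : (lp.single (E := fun _ : ℕ => 𝕜) ⊤ i (1 : 𝕜)) j = 0 := by
        rw [lp.coeFn_single, Pi.single_eq_of_ne hji]
      rw [this, zero_smul]
    · rw [exG_notMem 𝕜 f _ h3]

theorem ac_set (𝕜 : Type) [RCLike 𝕜] {X : Type u} [NormedAddCommGroup X] [NormedSpace 𝕜 X]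
    (hX : ¬ ContainsLinf 𝕜 X) (S : Lp X ⊤ I01 →L[𝕜] X) (η ε : ℝ) (hη : 0 < η) (hε : 0 < ε) :
    ∃ (C : Set ℝ) (hC : MeasurableSet C), I01 C ≤ ENNReal.ofReal η ∧ ∃ δ > (0 : ℝ),
      ∀ f : Lp X ⊤ I01, ‖f‖ ≤ 1 → I01 {t | f t ≠ 0} ≤ ENNReal.ofReal δ →
        ‖S (restr 𝕜 Cᶜ hC.compl f)‖ ≤ ε := by
  classical
  by_contra hcon
  have hhalf : ∀ i : ℕ, (0 : ℝ) < (1 / 2 : ℝ) ^ i := fun i => by positivity
  have H : ∀ (i : ℕ) (C : {C : Set ℝ // MeasurableSet C ∧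
      I01 C ≤ ENNReal.ofReal (η * (1 - (1 / 2 : ℝ) ^ i))}), ∃ f : Lp X ⊤ I01, ‖f‖ ≤ 1 ∧
      I01 {t | f t ≠ 0} ≤ ENNReal.ofReal (η * (1 / 2 : ℝ) ^ (i + 1)) ∧
      ε < ‖S (restr 𝕜 C.1ᶜ C.2.1.compl f)‖ := by
    intro i C
    by_contra hc
    apply hcon
    refine ⟨C.1, C.2.1, C.2.2.trans (ENNReal.ofReal_le_ofReal ?_),
      η * (1 / 2 : ℝ) ^ (i + 1), by positivity, fun f hf1 hf2 => ?_⟩
    · have := hhalf i
      nlinarith
    · by_contra hc2
      exact hc ⟨f, hf1, hf2, not_le.mp hc2⟩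
  choose g hg1 hg2 hg3 using H
  have hsup : ∀ f : Lp X ⊤ I01, MeasurableSet {t | f t ≠ 0} := fun f =>
    (Lp.stronglyMeasurable f).measurableSet_support
  let step : ∀ i : ℕ, {C : Set ℝ // MeasurableSet C ∧
      I01 C ≤ ENNReal.ofReal (η * (1 - (1 / 2 : ℝ) ^ i))} → {C : Set ℝ // MeasurableSet C ∧
      I01 C ≤ ENNReal.ofReal (η * (1 - (1 / 2 : ℝ) ^ (i + 1)))} := fun i C =>
    ⟨C.1 ∪ {t | g i C t ≠ 0}, C.2.1.union (hsup _), by
      have h1 := hhalf i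
      have h2 : (1 / 2 : ℝ) ^ i ≤ 1 := pow_le_one₀ (by norm_num) (by norm_num)
      have e : η * (1 - (1 / 2 : ℝ) ^ (i + 1)) =
          η * (1 - (1 / 2 : ℝ) ^ i) + η * (1 / 2 : ℝ) ^ (i + 1) := by
        rw [pow_succ]
        ring
      rw [e, ENNReal.ofReal_add (mul_nonneg hη.le (by linarith)) (by positivity)]
      exact (measure_union_le _ _).trans (add_le_add C.2.2 (hg2 i C))⟩
  let Z : (i : ℕ) → {C : Set ℝ // MeasurableSet C ∧
      I01 C ≤ ENNReal.ofReal (η * (1 - (1 / 2 : ℝ) ^ i))} := fun i =>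
    Nat.rec (motive := fun i => {C : Set ℝ // MeasurableSet C ∧
      I01 C ≤ ENNReal.ofReal (η * (1 - (1 / 2 : ℝ) ^ i))})
      ⟨∅, MeasurableSet.empty, by rw [measure_empty]; exact bot_le⟩ (fun i C => step i C) i
  have hZ : ∀ i, (Z (i + 1)).1 = (Z i).1 ∪ {t | g i (Z i) t ≠ 0} := fun i => rfl
  have hmono : ∀ i j, i ≤ j → (Z i).1 ⊆ (Z j).1 := by
    intro i j hij
    induction j, hij using Nat.le_induction with
    | base => exact subset_rfl
    | succ j _ ih =>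
      rw [hZ j]
      exact ih.trans Set.subset_union_left
  let B : ℕ → Set ℝ := fun i => {t | g i (Z i) t ≠ 0} \ (Z i).1
  have hB : ∀ i, MeasurableSet (B i) := fun i => (hsup _).diff (Z i).2.1
  have hlt : ∀ i j, i < j → Disjoint (B i) (B j) := by
    intro i j hij
    rw [Set.disjoint_left]
    intro t hti htj
    apply htj.2
    apply hmono (i + 1) j hij
    rw [hZ i]
    exact Or.inr hti.1
  have hd : ∀ i j, i ≠ j → Disjoint (B i) (B j) := by
    intro i j hij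
    rcases lt_or_gt_of_ne hij with h | h
    · exact hlt i j h
    · exact (hlt j i h).symm
  have hex := exhaust 𝕜 hX S B hB hd (fun i => g i (Z i)) (fun i => hg1 i (Z i))
  have heq : ∀ i, restr 𝕜 (B i) (hB i) (g i (Z i)) =
      restr 𝕜 (Z i).1ᶜ (Z i).2.1.compl (g i (Z i)) := by
    intro i
    apply Lp.ext
    filter_upwards [restr_ae 𝕜 (B i) (hB i) (g i (Z i)),
      restr_ae 𝕜 (Z i).1ᶜ (Z i).2.1.compl (g i (Z i))] with t h1 h2
    rw [h1, h2]
    by_cases hC : t ∈ (Z i).1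
    · rw [Set.indicator_of_notMem (show t ∉ B i from fun h => h.2 hC),
        Set.indicator_of_notMem (show t ∉ (Z i).1ᶜ from fun h => h hC)]
    · rw [Set.indicator_of_mem (show t ∈ (Z i).1ᶜ from hC)]
      by_cases h0 : g i (Z i) t = 0
      · rw [h0, Set.indicator_of_notMem (show t ∉ B i from fun h => h.1 h0)]
      · rw [Set.indicator_of_mem (show t ∈ B i from ⟨h0, hC⟩)]
  have hev := (Metric.tendsto_nhds.mp hex) ε hε
  obtain ⟨i, hi⟩ := hev.exists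
  rw [dist_zero_right, heq i] at hi
  exact absurd hi (not_lt.mpr (hg3 i (Z i)).le)

theorem ac_family (𝕜 : Type) [RCLike 𝕜] {X : Type u} [NormedAddCommGroup X] [NormedSpace 𝕜 X]
    (hX : ¬ ContainsLinf 𝕜 X) (S : ℕ → Lp X ⊤ I01 →L[𝕜] X) (η : ℝ) (hη : 0 < η) :
    ∃ (A : Set ℝ) (hA : MeasurableSet A), I01 Aᶜ ≤ ENNReal.ofReal η ∧
      ∀ n, AC (fun f : Lp X ⊤ I01 => S n (restr 𝕜 A hA f)) := by
  choose C hC hCη δ hδ hCδ using fun m : ℕ =>
    ac_set 𝕜 hX (S m.unpair.1) (η / 2 / 2 ^ m) (1 / ((m.unpair.2 : ℝ) + 1)) (by positivity)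
      (by positivity)
  refine ⟨(⋃ m, C m)ᶜ, (MeasurableSet.iUnion hC).compl, ?_, ?_⟩
  · rw [compl_compl]
    calc I01 (⋃ m, C m) ≤ ∑' m, I01 (C m) := measure_iUnion_le _
      _ ≤ ∑' m : ℕ, ENNReal.ofReal (η / 2 / 2 ^ m) := ENNReal.tsum_le_tsum hCη
      _ = ENNReal.ofReal (∑' m : ℕ, η / 2 / 2 ^ m) :=
          (ENNReal.ofReal_tsum_of_nonneg (fun m => by positivity) (summable_geometric_two' η)).symm
      _ = ENNReal.ofReal η := by rw [tsum_geometric_two']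
  · intro n ε hε
    obtain ⟨k, hk⟩ := exists_nat_one_div_lt hε
    refine ⟨δ (Nat.pair n k), hδ _, fun f hf hfs => ?_⟩
    have hm := hCδ (Nat.pair n k)
    simp only [Nat.unpair_pair] at hm
    set A : Set ℝ := (⋃ m, C m)ᶜ with hAdef
    have hA : MeasurableSet A := (MeasurableSet.iUnion hC).compl
    set g : Lp X ⊤ I01 := restr 𝕜 A hA f with hg
    have hgae := restr_ae 𝕜 A hA f
    rw [← hg] at hgae
    have hg1 : ‖g‖ ≤ 1 := by
      calc ‖g‖ ≤ ‖(restr 𝕜 A hA : Lp X ⊤ I01 →L[𝕜] Lp X ⊤ I01)‖ * ‖f‖ :=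
            ContinuousLinearMap.le_opNorm _ _
        _ ≤ 1 * 1 := mul_le_mul (restr_norm 𝕜 A hA) hf (norm_nonneg _) zero_le_one
        _ = 1 := one_mul 1
    have hgs : I01 {t | g t ≠ 0} ≤ ENNReal.ofReal (δ (Nat.pair n k)) := by
      refine le_trans (measure_mono_ae ?_) hfs
      filter_upwards [hgae] with t ht h
      have h' : g t ≠ 0 := h
      intro h0
      apply h'
      rw [ht]
      by_cases htA : t ∈ A
      · rw [Set.indicator_of_mem htA]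
        exact h0
      · rw [Set.indicator_of_notMem htA]
    have hgg : restr 𝕜 (C (Nat.pair n k))ᶜ (hC _).compl g = g := by
      apply Lp.ext
      filter_upwards [hgae, restr_ae 𝕜 (C (Nat.pair n k))ᶜ (hC _).compl g] with t h1 h2
      rw [h2]
      by_cases htA : t ∈ A
      · have : t ∈ (C (Nat.pair n k))ᶜ := fun hc => htA (Set.mem_iUnion.2 ⟨_, hc⟩)
        rw [Set.indicator_of_mem this]
      · have hg0 : g t = 0 := by rw [h1, Set.indicator_of_notMem htA]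
        by_cases hc : t ∈ (C (Nat.pair n k))ᶜ
        · rw [Set.indicator_of_mem hc]
        · rw [Set.indicator_of_notMem hc, hg0]
    have h3 := hm g hg1 hgs
    rw [hgg] at h3
    exact h3.trans hk.le

section acred

variable {X : Type u} [NormedAddCommGroup X]

theorem acr_hasSum (D : ℕ → Set ℝ) (hdis : ∀ i j, i ≠ j → Disjoint (D i) (D j)) (F : ℕ → ℝ → X)
    (j : ℕ) (t : ℝ) (ht : t ∈ D j) : HasSum (fun i => (D i).indicator (F i) t) (F j t) := by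
  have h1 : (D j).indicator (F j) t = F j t := Set.indicator_of_mem ht _
  rw [← h1]
  apply hasSum_single
  intro i hi
  apply Set.indicator_of_notMem
  intro h
  exact Set.disjoint_left.mp (hdis i j hi) h ht

theorem acr_meas (D : ℕ → Set ℝ) (hD : ∀ j, MeasurableSet (D j))
    (hdis : ∀ i j, i ≠ j → Disjoint (D i) (D j)) (F : ℕ → Lp X ⊤ I01) :
    StronglyMeasurable (fun t => ∑' i, (D i).indicator (fun s => F i s) t) := by
  refine stronglyMeasurable_of_tendsto (u := atTop)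
    (f := fun N t => ∑ i ∈ Finset.range N, (D i).indicator (fun s => F i s) t) ?_ ?_
  · intro N
    refine Finset.stronglyMeasurable_fun_sum _ (fun i _ => ?_)
    exact (Lp.stronglyMeasurable (F i)).indicator (hD i)
  · rw [tendsto_pi_nhds]
    intro t
    by_cases h : ∃ j, t ∈ D j
    · obtain ⟨j, hj⟩ := h
      have := acr_hasSum D hdis (fun i s => F i s) j t hj
      rw [this.tsum_eq]
      exact this.tendsto_sum_nat
    · have : ∀ i, (D i).indicator (fun s => F i s) t = 0 :=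
        fun i => Set.indicator_of_notMem (fun hi => h ⟨i, hi⟩) _
      simp [this]

theorem acr_memLp (D : ℕ → Set ℝ) (hD : ∀ j, MeasurableSet (D j))
    (hdis : ∀ i j, i ≠ j → Disjoint (D i) (D j)) (F : ℕ → Lp X ⊤ I01) (C : ℝ)
    (hF : ∀ j, ‖F j‖ ≤ C) :
    MemLp (fun t => ∑' i, (D i).indicator (fun s => F i s) t) ⊤ I01 := by
  refine MemLp.of_bound (acr_meas D hD hdis F).aestronglyMeasurable C ?_
  have hall : ∀ᵐ t ∂I01, ∀ j, ‖F j t‖ ≤ C := by
    rw [ae_all_iff]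
    intro j
    filter_upwards [lp_ae_le (F j)] with t ht
    exact ht.trans (hF j)
  filter_upwards [hall] with t ht
  by_cases h : ∃ j, t ∈ D j
  · obtain ⟨j, hj⟩ := h
    rw [(acr_hasSum D hdis (fun i s => F i s) j t hj).tsum_eq]
    exact ht j
  · have : ∀ i, (D i).indicator (fun s => F i s) t = 0 :=
      fun i => Set.indicator_of_notMem (fun hi => h ⟨i, hi⟩) _
    simp only [this, tsum_zero, norm_zero]
    exact (norm_nonneg _).trans (hF 0)

/-- glueing of functions along a partition -/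
noncomputable def acrGlue (D : ℕ → Set ℝ) (hD : ∀ j, MeasurableSet (D j))
    (hdis : ∀ i j, i ≠ j → Disjoint (D i) (D j)) (F : ℕ → Lp X ⊤ I01) (C : ℝ)
    (hF : ∀ j, ‖F j‖ ≤ C) : Lp X ⊤ I01 := (acr_memLp D hD hdis F C hF).toLp

theorem acrGlue_ae (D : ℕ → Set ℝ) (hD : ∀ j, MeasurableSet (D j))
    (hdis : ∀ i j, i ≠ j → Disjoint (D i) (D j)) (F : ℕ → Lp X ⊤ I01) (C : ℝ)
    (hF : ∀ j, ‖F j‖ ≤ C) : ∀ᵐ t ∂I01, ∀ j, t ∈ D j → acrGlue D hD hdis F C hF t = F j t := by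
  filter_upwards [MemLp.coeFn_toLp (acr_memLp D hD hdis F C hF)] with t ht j hj
  unfold acrGlue
  rw [ht]
  exact (acr_hasSum D hdis (fun i s => F i s) j t hj).tsum_eq

theorem acr_ext (D : ℕ → Set ℝ) (hcov : ∀ᵐ t ∂I01, ∃ j, t ∈ D j) (f g : Lp X ⊤ I01)
    (h : ∀ᵐ t ∂I01, ∀ j, t ∈ D j → f t = g t) : f = g := by
  apply Lp.ext
  filter_upwards [hcov, h] with t ht h2
  obtain ⟨j, hj⟩ := ht
  exact h2 j hj

theorem acrGlue_norm (D : ℕ → Set ℝ) (hD : ∀ j, MeasurableSet (D j))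
    (hdis : ∀ i j, i ≠ j → Disjoint (D i) (D j)) (F : ℕ → Lp X ⊤ I01) (C : ℝ)
    (hF : ∀ j, ‖F j‖ ≤ C) (hcov : ∀ᵐ t ∂I01, ∃ j, t ∈ D j) (hC : 0 ≤ C) :
    ‖acrGlue D hD hdis F C hF‖ ≤ C := by
  apply lp_norm_le hC
  have hall : ∀ᵐ t ∂I01, ∀ j, ‖F j t‖ ≤ C := by
    rw [ae_all_iff]
    intro j
    filter_upwards [lp_ae_le (F j)] with t ht
    exact ht.trans (hF j)
  filter_upwards [hall, hcov, acrGlue_ae D hD hdis F C hF] with t h1 h2 h3
  obtain ⟨j, hj⟩ := h2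
  rw [h3 j hj]
  exact h1 j

variable (𝕜 : Type) [RCLike 𝕜] [NormedSpace 𝕜 X]

/-- reindexing of bounded sequences -/
noncomputable def acrRe (φ : ℕ → ℕ) : lp (fun _ : ℕ => X) ⊤ →L[𝕜] lp (fun _ : ℕ => X) ⊤ :=
  LinearMap.mkContinuous
    { toFun := fun z => ⟨fun n => z (φ n), memℓp_infty ⟨‖z‖, by
        rintro _ ⟨n, rfl⟩
        exact lp.norm_apply_le_norm (by simp) z (φ n)⟩⟩
      map_add' := by
        intro z w
        apply lp.ext
        funext n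
        rfl
      map_smul' := by
        intro c z
        apply lp.ext
        funext n
        rfl } 1 (by
    intro z
    rw [one_mul]
    refine lp.norm_le_of_forall_le (norm_nonneg _) (fun n => ?_)
    exact lp.norm_apply_le_norm (by simp) z (φ n))

theorem acrRe_apply (φ : ℕ → ℕ) (z : lp (fun _ : ℕ => X) ⊤) (n : ℕ) : acrRe 𝕜 φ z n = z (φ n) := rfl

theorem acrRe_norm (φ : ℕ → ℕ) (z : lp (fun _ : ℕ => X) ⊤) : ‖acrRe 𝕜 φ z‖ ≤ ‖z‖ :=
  lp.norm_le_of_forall_le (norm_nonneg _) (fun n => lp.norm_apply_le_norm (by simp) z (φ n))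

theorem acr_bd (P : lp (fun _ : ℕ => X) ⊤ →L[𝕜] Lp X ⊤ I01) (φ : ℕ → ℕ)
    (z : lp (fun _ : ℕ => X) ⊤) : ‖P (acrRe 𝕜 φ z)‖ ≤ ‖P‖ * ‖z‖ :=
  (P.le_opNorm _).trans (mul_le_mul_of_nonneg_left (acrRe_norm 𝕜 φ z) (norm_nonneg _))

/-- the glued projection -/
noncomputable def acrP (D : ℕ → Set ℝ) (hD : ∀ j, MeasurableSet (D j))
    (hdis : ∀ i j, i ≠ j → Disjoint (D i) (D j)) (hcov : ∀ᵐ t ∂I01, ∃ j, t ∈ D j)
    (P : lp (fun _ : ℕ => X) ⊤ →L[𝕜] Lp X ⊤ I01) : lp (fun _ : ℕ => X) ⊤ →L[𝕜] Lp X ⊤ I01 :=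
  LinearMap.mkContinuous
    { toFun := fun z => acrGlue D hD hdis (fun j => P (acrRe 𝕜 (Nat.pair j) z)) (‖P‖ * ‖z‖)
        (fun j => acr_bd 𝕜 P _ z)
      map_add' := by
        intro z w
        apply acr_ext D hcov
        have hall : ∀ᵐ t ∂I01, ∀ j, P (acrRe 𝕜 (Nat.pair j) (z + w)) t =
            P (acrRe 𝕜 (Nat.pair j) z) t + P (acrRe 𝕜 (Nat.pair j) w) t := by
          rw [ae_all_iff]
          intro j
          rw [map_add, map_add]
          exact Lp.coeFn_add _ _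
        filter_upwards [hall, Lp.coeFn_add
          (acrGlue D hD hdis (fun j => P (acrRe 𝕜 (Nat.pair j) z)) (‖P‖ * ‖z‖)
            (fun j => acr_bd 𝕜 P _ z))
          (acrGlue D hD hdis (fun j => P (acrRe 𝕜 (Nat.pair j) w)) (‖P‖ * ‖w‖)
            (fun j => acr_bd 𝕜 P _ w)),
          acrGlue_ae D hD hdis (fun j => P (acrRe 𝕜 (Nat.pair j) (z + w))) (‖P‖ * ‖z + w‖)
            (fun j => acr_bd 𝕜 P _ (z + w)),
          acrGlue_ae D hD hdis (fun j => P (acrRe 𝕜 (Nat.pair j) z)) (‖P‖ * ‖z‖)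
            (fun j => acr_bd 𝕜 P _ z),
          acrGlue_ae D hD hdis (fun j => P (acrRe 𝕜 (Nat.pair j) w)) (‖P‖ * ‖w‖)
            (fun j => acr_bd 𝕜 P _ w)] with t h1 h2 h3 h4 h5 j hj
        rw [h2, Pi.add_apply, h3 j hj, h4 j hj, h5 j hj, h1 j]
      map_smul' := by
        intro c z
        apply acr_ext D hcov
        have hall : ∀ᵐ t ∂I01, ∀ j, P (acrRe 𝕜 (Nat.pair j) (c • z)) t =
            c • P (acrRe 𝕜 (Nat.pair j) z) t := by
          rw [ae_all_iff]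
          intro j
          rw [map_smul, map_smul]
          exact Lp.coeFn_smul _ _
        filter_upwards [hall, Lp.coeFn_smul c
          (acrGlue D hD hdis (fun j => P (acrRe 𝕜 (Nat.pair j) z)) (‖P‖ * ‖z‖)
            (fun j => acr_bd 𝕜 P _ z)),
          acrGlue_ae D hD hdis (fun j => P (acrRe 𝕜 (Nat.pair j) (c • z))) (‖P‖ * ‖c • z‖)
            (fun j => acr_bd 𝕜 P _ (c • z)),
          acrGlue_ae D hD hdis (fun j => P (acrRe 𝕜 (Nat.pair j) z)) (‖P‖ * ‖z‖)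
            (fun j => acr_bd 𝕜 P _ z)] with t h1 h2 h3 h4 j hj
        rw [RingHom.id_apply, h2, Pi.smul_apply, h3 j hj, h4 j hj, h1 j] } ‖P‖ (by
    intro z
    exact acrGlue_norm D hD hdis (fun j => P (acrRe 𝕜 (Nat.pair j) z)) (‖P‖ * ‖z‖)
      (fun _ => acr_bd 𝕜 P _ z) hcov (by positivity))

theorem acrP_ae (D : ℕ → Set ℝ) (hD : ∀ j, MeasurableSet (D j))
    (hdis : ∀ i j, i ≠ j → Disjoint (D i) (D j)) (hcov : ∀ᵐ t ∂I01, ∃ j, t ∈ D j)
    (P : lp (fun _ : ℕ => X) ⊤ →L[𝕜] Lp X ⊤ I01) (z : lp (fun _ : ℕ => X) ⊤) :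
    ∀ᵐ t ∂I01, ∀ j, t ∈ D j → acrP 𝕜 D hD hdis hcov P z t = P (acrRe 𝕜 (Nat.pair j) z) t :=
  acrGlue_ae D hD hdis (fun j => P (acrRe 𝕜 (Nat.pair j) z)) (‖P‖ * ‖z‖)
    (fun j => acr_bd 𝕜 P _ z)

theorem acr_bdT (D : ℕ → Set ℝ) (hD : ∀ j, MeasurableSet (D j))
    (T : Lp X ⊤ I01 →L[𝕜] lp (fun _ : ℕ => X) ⊤) (f : Lp X ⊤ I01) (j m : ℕ) :
    ‖T (restr 𝕜 (D j) (hD j) f) m‖ ≤ ‖T‖ * ‖f‖ := by
  refine (lp.norm_apply_le_norm (by simp) _ m).trans ((T.le_opNorm _).trans ?_)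
  refine mul_le_mul_of_nonneg_left ?_ (norm_nonneg _)
  refine ((restr 𝕜 (D j) (hD j) : Lp X ⊤ I01 →L[𝕜] Lp X ⊤ I01).le_opNorm f).trans ?_
  exact mul_le_of_le_one_left (norm_nonneg _) (restr_norm 𝕜 (D j) (hD j))

/-- the combined embedding -/
noncomputable def acrT (D : ℕ → Set ℝ) (hD : ∀ j, MeasurableSet (D j))
    (T : Lp X ⊤ I01 →L[𝕜] lp (fun _ : ℕ => X) ⊤) : Lp X ⊤ I01 →L[𝕜] lp (fun _ : ℕ => X) ⊤ :=
  LinearMap.mkContinuous
    { toFun := fun f => ⟨fun k => T (restr 𝕜 (D k.unpair.1) (hD _) f) k.unpair.2,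
        memℓp_infty ⟨‖T‖ * ‖f‖, by
          rintro _ ⟨n, rfl⟩
          exact acr_bdT 𝕜 D hD T f _ _⟩⟩
      map_add' := by
        intro z w
        apply lp.ext
        funext n
        change T (restr 𝕜 (D n.unpair.1) (hD _) (z + w)) n.unpair.2 = _
        rw [map_add, map_add]
        rfl
      map_smul' := by
        intro c z
        apply lp.ext
        funext n
        change T (restr 𝕜 (D n.unpair.1) (hD _) (c • z)) n.unpair.2 = _
        rw [map_smul, map_smul]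
        rfl } ‖T‖ (by
    intro z
    refine lp.norm_le_of_forall_le (by positivity) (fun n => ?_)
    exact acr_bdT 𝕜 D hD T z _ _)

theorem acrT_apply (D : ℕ → Set ℝ) (hD : ∀ j, MeasurableSet (D j))
    (T : Lp X ⊤ I01 →L[𝕜] lp (fun _ : ℕ => X) ⊤) (f : Lp X ⊤ I01) (k : ℕ) :
    acrT 𝕜 D hD T f k = T (restr 𝕜 (D k.unpair.1) (hD _) f) k.unpair.2 := rfl

/-- evaluation -/
noncomputable def acrEv (n : ℕ) : lp (fun _ : ℕ => X) ⊤ →L[𝕜] X :=
  LinearMap.mkContinuous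
    { toFun := fun z => z n
      map_add' := by
        intro z w
        rfl
      map_smul' := by
        intro c z
        rfl } 1 (by
    intro z
    rw [one_mul]
    exact lp.norm_apply_le_norm (by simp) z n)

end acred

theorem ac_reduction (𝕜 : Type) [RCLike 𝕜] {X : Type u} [NormedAddCommGroup X] [NormedSpace 𝕜 X]
    (hX : ¬ ContainsLinf 𝕜 X) (T : Lp X ⊤ I01 →L[𝕜] lp (fun _ : ℕ => X) ⊤)
    (P : lp (fun _ : ℕ => X) ⊤ →L[𝕜] Lp X ⊤ I01) (hPT : ∀ f, P (T f) = f) :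
    ∃ (T' : Lp X ⊤ I01 →L[𝕜] lp (fun _ : ℕ => X) ⊤)
      (P' : lp (fun _ : ℕ => X) ⊤ →L[𝕜] Lp X ⊤ I01),
      (∀ f, P' (T' f) = f) ∧ ∀ n : ℕ, AC (fun f : Lp X ⊤ I01 => (T' f) n) := by
  have hfam : ∀ j : ℕ, ∃ (A : Set ℝ) (hA : MeasurableSet A),
      I01 Aᶜ ≤ ENNReal.ofReal ((1 / 2 : ℝ) ^ j) ∧
      ∀ n, AC (fun f : Lp X ⊤ I01 => (acrEv 𝕜 n ∘L T) (restr 𝕜 A hA f)) := fun j =>
    ac_family 𝕜 hX (fun n => acrEv 𝕜 n ∘L T) ((1 / 2 : ℝ) ^ j) (by positivity)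
  choose A hA hAc hAC using hfam
  have hD : ∀ j, MeasurableSet (disjointed A j) := fun j => MeasurableSet.disjointed hA j
  have hdis : ∀ i j, i ≠ j → Disjoint (disjointed A i) (disjointed A j) :=
    fun i j hij => disjoint_disjointed A hij
  have hcov : ∀ᵐ t ∂I01, ∃ j, t ∈ disjointed A j := by
    have h1 : I01 (⋃ j, disjointed A j)ᶜ = 0 := by
      rw [iUnion_disjointed]
      have h2 : ∀ j, I01 (⋃ j, A j)ᶜ ≤ ENNReal.ofReal ((1 / 2 : ℝ) ^ j) := fun j =>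
        (measure_mono (Set.compl_subset_compl.mpr (Set.subset_iUnion A j))).trans (hAc j)
      have h3 : Tendsto (fun j : ℕ => ENNReal.ofReal ((1 / 2 : ℝ) ^ j)) atTop (𝓝 0) := by
        rw [← ENNReal.ofReal_zero]
        exact ENNReal.tendsto_ofReal
          (tendsto_pow_atTop_nhds_zero_of_lt_one (by norm_num) (by norm_num))
      exact le_antisymm (ge_of_tendsto' h3 h2) bot_le
    rw [ae_iff]
    convert h1 using 2
    ext t
    simp
  refine ⟨acrT 𝕜 (disjointed A) hD T, acrP 𝕜 (disjointed A) hD hdis hcov P, ?_, ?_⟩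
  · intro f
    apply acr_ext (disjointed A) hcov
    have hre : ∀ j, acrRe 𝕜 (Nat.pair j) (acrT 𝕜 (disjointed A) hD T f) =
        T (restr 𝕜 (disjointed A j) (hD j) f) := by
      intro j
      apply lp.ext
      funext n
      rw [acrRe_apply, acrT_apply]
      simp only [Nat.unpair_pair]
    have hr : ∀ᵐ t ∂I01, ∀ j, restr 𝕜 (disjointed A j) (hD j) f t =
        (disjointed A j).indicator (fun s => f s) t := by
      rw [ae_all_iff]
      intro j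
      exact restr_ae 𝕜 _ (hD j) f
    filter_upwards [acrP_ae 𝕜 (disjointed A) hD hdis hcov P (acrT 𝕜 (disjointed A) hD T f), hr]
      with t h1 h2 j hj
    rw [h1 j hj, hre j, hPT, h2 j, Set.indicator_of_mem hj]
  · intro k ε hε
    obtain ⟨δ, hδ, h⟩ := hAC k.unpair.1 k.unpair.2 ε hε
    refine ⟨δ, hδ, fun f hf hs => ?_⟩
    have hr := restr_ae 𝕜 _ (hD k.unpair.1) f
    have e1 : restr 𝕜 (A k.unpair.1) (hA k.unpair.1)
        (restr 𝕜 (disjointed A k.unpair.1) (hD k.unpair.1) f) =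
        restr 𝕜 (disjointed A k.unpair.1) (hD k.unpair.1) f := by
      apply Lp.ext
      filter_upwards [hr, restr_ae 𝕜 _ (hA k.unpair.1)
        (restr 𝕜 (disjointed A k.unpair.1) (hD k.unpair.1) f)] with t h1 h2
      rw [h2]
      by_cases ht : t ∈ A k.unpair.1
      · rw [Set.indicator_of_mem ht]
      · rw [Set.indicator_of_notMem ht, h1, Set.indicator_of_notMem]
        intro h3
        exact ht (disjointed_subset A _ h3)
    have h2 := h (restr 𝕜 (disjointed A k.unpair.1) (hD k.unpair.1) f) ?_ ?_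
    · simp only [e1] at h2
      exact h2
    · refine ((restr 𝕜 (disjointed A k.unpair.1) (hD k.unpair.1) :
        Lp X ⊤ I01 →L[𝕜] Lp X ⊤ I01).le_opNorm f).trans ?_
      refine (mul_le_of_le_one_left (norm_nonneg _) (restr_norm 𝕜 _ (hD _))).trans hf
    · refine le_trans (measure_mono_ae ?_) hs
      filter_upwards [hr] with t h1 h2
      intro h3
      apply h2
      rw [h1]
      by_cases ht : t ∈ disjointed A k.unpair.1
      · rw [Set.indicator_of_mem ht]; exact h3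
      · rw [Set.indicator_of_notMem ht]

end Pool.Agent.Helper234.LInf
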