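import Pool.Agent.Helper234.LInf.Core

open MeasureTheory Filter Topology

namespace Pool.Agent.Helper234.LInf

universe u

/-- truncation -/
noncomputable def c0trunc (𝕜 : Type) [RCLike 𝕜] (y : ℕ → 𝕜) (n : ℕ) : ZeroAtInftyContinuousMap ℕ 𝕜 where
  toFun := fun k => if k ≤ n then y k else 0
  continuous_toFun := continuous_of_discreteTopology
  zero_at_infty' := by
    rw [cocompact_eq_cofinite, Nat.cofinite_eq_atTop]
    refine tendsto_const_nhds.congr' ?_
    filter_upwards [eventually_gt_atTop n] with k hk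
    rw [if_neg (by omega)]

theorem c0trunc_apply (𝕜 : Type) [RCLike 𝕜] (y : ℕ → 𝕜) (n k : ℕ) :
    c0trunc 𝕜 y n k = if k ≤ n then y k else 0 := rfl

theorem c0_norm_apply (𝕜 : Type) [RCLike 𝕜] (f : ZeroAtInftyContinuousMap ℕ 𝕜) (k : ℕ) :
    ‖f k‖ ≤ ‖f‖ := f.toBCF.norm_coe_le_norm k

theorem c0_norm_le (𝕜 : Type) [RCLike 𝕜] (f : ZeroAtInftyContinuousMap ℕ 𝕜) (C : ℝ) (hC : 0 ≤ C)
    (h : ∀ k, ‖f k‖ ≤ C) : ‖f‖ ≤ C := (BoundedContinuousFunction.norm_le hC).2 h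

theorem c0trunc_norm (𝕜 : Type) [RCLike 𝕜] (y : lp (fun _ : ℕ => 𝕜) ⊤) (n : ℕ) :
    ‖c0trunc 𝕜 (fun k => y k) n‖ ≤ ‖y‖ := by
  refine c0_norm_le 𝕜 _ _ (norm_nonneg _) fun k => ?_
  rw [c0trunc_apply]
  split_ifs
  · exact lp.norm_apply_le_norm ENNReal.top_ne_zero y k
  · rw [norm_zero]; exact norm_nonneg _

theorem c0_no_limit (𝕜 : Type) [RCLike 𝕜] (X : Type u) [NormedAddCommGroup X]
    [NormedSpace 𝕜 X] (hX : ¬ ContainsLinf 𝕜 X) (h0 : ContainsC0 𝕜 X) :
    ¬ LimitOperator 𝕜 X := by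
  rintro ⟨Φ, hΦ⟩
  obtain ⟨V, c, hc, hV⟩ := h0
  have hbd : ∀ (y : lp (fun _ : ℕ => 𝕜) ⊤) (n : ℕ),
      ‖V (c0trunc 𝕜 (fun k => y k) n)‖ ≤ ‖V‖ * ‖y‖ := by
    intro y n
    exact (V.le_opNorm _).trans (mul_le_mul_of_nonneg_left (c0trunc_norm 𝕜 y n) (norm_nonneg _))
  have hmem : ∀ y : lp (fun _ : ℕ => 𝕜) ⊤,
      Memℓp (E := fun _ : ℕ => X) (fun n => V (c0trunc 𝕜 (fun k => y k) n)) ⊤ := by
    intro y
    refine memℓp_infty ⟨‖V‖ * ‖y‖, ?_⟩
    rintro _ ⟨n, rfl⟩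
    exact hbd y n
  let W0 : lp (fun _ : ℕ => 𝕜) ⊤ →ₗ[𝕜] lp (fun _ : ℕ => X) ⊤ :=
    { toFun := fun y => ⟨fun n => V (c0trunc 𝕜 (fun k => y k) n), hmem y⟩
      map_add' := by
        intro y z
        ext n
        have h : c0trunc 𝕜 (fun k => (y + z) k) n =
            c0trunc 𝕜 (fun k => y k) n + c0trunc 𝕜 (fun k => z k) n := by
          ext k
          rw [ZeroAtInftyContinuousMap.add_apply, c0trunc_apply, c0trunc_apply, c0trunc_apply]
          split_ifs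
          · rfl
          · simp
        show V (c0trunc 𝕜 (fun k => (y + z) k) n) = _
        rw [h, map_add]
        rfl
      map_smul' := by
        intro a y
        ext n
        have h : c0trunc 𝕜 (fun k => (a • y) k) n = a • c0trunc 𝕜 (fun k => y k) n := by
          ext k
          rw [ZeroAtInftyContinuousMap.smul_apply, c0trunc_apply, c0trunc_apply]
          split_ifs
          · rfl
          · simp
        show V (c0trunc 𝕜 (fun k => (a • y) k) n) = _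
        rw [h, map_smul]
        rfl }
  let W : lp (fun _ : ℕ => 𝕜) ⊤ →L[𝕜] lp (fun _ : ℕ => X) ⊤ :=
    W0.mkContinuous ‖V‖ (fun y => lp.norm_le_of_forall_le (by positivity) (hbd y))
  have hW : ∀ y n, W y n = V (c0trunc 𝕜 (fun k => y k) n) := fun y n => rfl
  have hlim : ∀ j : ℕ, Φ (W (lp.single ⊤ j (1 : 𝕜))) =
      V (c0trunc 𝕜 (fun k => (lp.single ⊤ j (1 : 𝕜) : lp (fun _ : ℕ => 𝕜) ⊤) k) j) := by
    intro j
    refine hΦ _ _ ?_
    refine tendsto_const_nhds.congr' ?_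
    filter_upwards [eventually_ge_atTop j] with n hn
    rw [hW]
    congr 1
    ext k
    rw [c0trunc_apply, c0trunc_apply]
    by_cases hk : k = j
    · subst hk
      rw [if_pos le_rfl, if_pos hn]
    · rw [lp.single_apply_ne _ _ _ hk]
      simp
  have hnull := linf_free_null 𝕜 X hX (Φ.comp W)
  have hlow : ∀ j : ℕ, c ≤ ‖(Φ.comp W) (lp.single ⊤ j (1 : 𝕜))‖ := by
    intro j
    rw [ContinuousLinearMap.comp_apply, hlim j]
    refine le_trans ?_ (hV _)
    have h1 := c0_norm_apply 𝕜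
      (c0trunc 𝕜 (fun k => (lp.single ⊤ j (1 : 𝕜) : lp (fun _ : ℕ => 𝕜) ⊤) k) j) j
    rw [c0trunc_apply, if_pos le_rfl, lp.single_apply_self, norm_one] at h1
    nlinarith
  have h2 := hnull.norm
  rw [norm_zero] at h2
  have h3 := ge_of_tendsto' h2 hlow
  linarith

theorem rnp_linf_free (𝕜 : Type) [RCLike 𝕜] (X : Type u) [NormedAddCommGroup X]
    [NormedSpace 𝕜 X] (h : RNP 𝕜 X) : ¬ ContainsLinf 𝕜 X := by
  rintro ⟨V, c, hc, hV⟩
  -- coordinates
  set a : ℕ → ℝ := fun i => ((i / 2 : ℕ) : ℝ) + 1 with ha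
  have ha1 : ∀ i, 1 ≤ a i := fun i => by
    have : (0:ℝ) ≤ ((i / 2 : ℕ) : ℝ) := Nat.cast_nonneg _
    simp only [ha]; linarith
  have ha0 : ∀ i, 0 < a i := fun i => lt_of_lt_of_le one_pos (ha1 i)
  set φ : ℕ → ℝ → ℝ := fun i t => (if i % 2 = 0 then Real.sin (a i * t) else Real.cos (a i * t)) / a i with hφ
  have hφb : ∀ i t, |φ i t| ≤ 1 := by
    intro i t
    simp only [hφ]
    rw [abs_div, abs_of_pos (ha0 i), div_le_one (ha0 i)]
    split_ifs
    · exact (Real.abs_sin_le_one _).trans (ha1 i)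
    · exact (Real.abs_cos_le_one _).trans (ha1 i)
  have hsin : ∀ x y : ℝ, |Real.sin x - Real.sin y| ≤ |x - y| := by
    intro x y
    have := Convex.norm_image_sub_le_of_norm_hasDerivWithin_le (f := Real.sin) (f' := Real.cos) (s := Set.univ)
      (x := y) (y := x) (C := 1) (fun z _ => (Real.hasDerivAt_sin z).hasDerivWithinAt)
      (fun z _ => by rw [Real.norm_eq_abs]; exact Real.abs_cos_le_one z) convex_univ (Set.mem_univ _) (Set.mem_univ _)
    simpa [Real.norm_eq_abs] using this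
  have hcos : ∀ x y : ℝ, |Real.cos x - Real.cos y| ≤ |x - y| := by
    intro x y
    have := Convex.norm_image_sub_le_of_norm_hasDerivWithin_le (f := Real.cos) (f' := fun z => - Real.sin z) (s := Set.univ)
      (x := y) (y := x) (C := 1) (fun z _ => (Real.hasDerivAt_cos z).hasDerivWithinAt)
      (fun z _ => by rw [norm_neg, Real.norm_eq_abs]; exact Real.abs_sin_le_one z) convex_univ (Set.mem_univ _) (Set.mem_univ _)
    simpa [Real.norm_eq_abs] using this
  have hφl : ∀ i t s, |φ i t - φ i s| ≤ |t - s| := by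
    intro i t s
    simp only [hφ]
    rw [← sub_div, abs_div, abs_of_pos (ha0 i), div_le_iff₀ (ha0 i)]
    have hd : |a i * t - a i * s| = |t - s| * a i := by
      rw [← mul_sub, abs_mul, abs_of_pos (ha0 i)]; ring
    split_ifs
    · rw [← hd]; exact hsin _ _
    · rw [← hd]; exact hcos _ _
  have hmem : ∀ t, Memℓp (fun i => ((φ i t : ℝ) : 𝕜)) ⊤ := by
    intro t
    apply memℓp_infty
    refine ⟨1, ?_⟩
    rintro _ ⟨i, rfl⟩
    simp only [RCLike.norm_ofReal]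
    exact hφb i t
  set G : ℝ → lp (fun _ : ℕ => 𝕜) ⊤ := fun t => ⟨fun i => ((φ i t : ℝ) : 𝕜), hmem t⟩ with hG
  have hGi : ∀ t i, (G t : ℕ → 𝕜) i = ((φ i t : ℝ) : 𝕜) := fun t i => rfl
  have hGl : ∀ t s, ‖G t - G s‖ ≤ |t - s| := by
    intro t s
    apply lp.norm_le_of_forall_le (abs_nonneg _)
    intro i
    rw [lp.coeFn_sub, Pi.sub_apply, hGi, hGi, ← RCLike.ofReal_sub, RCLike.norm_ofReal]
    exact hφl i t s
  have hF : ∃ K, LipschitzWith K (fun t => V (G t)) := by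
    refine ⟨‖V‖₊, LipschitzWith.of_dist_le_mul ?_⟩
    intro t s
    rw [dist_eq_norm, ← map_sub, Real.dist_eq]
    exact (V.le_opNorm _).trans (mul_le_mul_of_nonneg_left (hGl t s) (norm_nonneg _))
  obtain ⟨t, v, htv⟩ := (h _ hF).exists
  rw [Metric.tendsto_nhdsWithin_nhds] at htv
  obtain ⟨δ, hδ, hball⟩ := htv (c / 4) (by positivity)
  obtain ⟨n, hn⟩ := exists_nat_gt (2 * Real.pi / δ)
  have hn1 : (0:ℝ) < (n:ℝ) + 1 := by positivity
  set k : ℝ := 2 * Real.pi / (n + 1) with hk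
  have hkpos : 0 < k := by positivity
  have hkδ : k < δ := by
    rw [hk, div_lt_iff₀ hn1]
    rw [div_lt_iff₀ hδ] at hn
    nlinarith
  set D : ℝ → lp (fun _ : ℕ => 𝕜) ⊤ := fun x => ((x : 𝕜))⁻¹ • (G (t + x) - G t) with hD
  have hVD : ∀ x, V (D x) = ((x : 𝕜))⁻¹ • (V (G (t + x)) - V (G t)) := by
    intro x
    simp only [hD]
    rw [map_smul, map_sub]
  have hDi : ∀ x i, (D x : ℕ → 𝕜) i = (((x⁻¹ * (φ i (t + x) - φ i t)) : ℝ) : 𝕜) := by
    intro x i
    simp only [hD]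
    rw [lp.coeFn_smul, Pi.smul_apply, lp.coeFn_sub, Pi.sub_apply, hGi, hGi, smul_eq_mul,
      RCLike.ofReal_mul, RCLike.ofReal_inv, RCLike.ofReal_sub]
  have hclose : ∀ x : ℝ, x ≠ 0 → |x| < δ → ‖D k - D x‖ ≤ 1 / 2 := by
    intro x hx0 hx
    have h1 := hball (x := k) (by simpa using hkpos.ne') (by rw [Real.dist_eq, sub_zero, abs_of_pos hkpos]; exact hkδ)
    have h2 := hball (x := x) (by simpa using hx0) (by rw [Real.dist_eq, sub_zero]; exact hx)
    rw [← hVD, dist_eq_norm] at h1 h2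
    have h3 : ‖V (D k - D x)‖ ≤ c / 4 + c / 4 := by
      have e : V (D k - D x) = (V (D k) - v) - (V (D x) - v) := by rw [map_sub]; abel
      rw [e]
      exact (norm_sub_le _ _).trans (add_le_add h1.le h2.le)
    have h4 := (hV (D k - D x)).trans h3
    have h5 : c * ‖D k - D x‖ ≤ c * (1 / 2) := by linarith
    exact le_of_mul_le_mul_left h5 hc
  have hcoord : ∀ i, (φ i (t + k) = φ i t) → ∀ φ', HasDerivAt (φ i) φ' t → |φ'| ≤ 1 / 2 := by
    intro i hi φ' hder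
    have h1 := hder.tendsto_slope_zero
    have h2 := h1.abs
    apply le_of_tendsto h2
    have hev : ∀ᶠ x : ℝ in 𝓝[≠] 0, |x| < δ := by
      apply mem_nhdsWithin_of_mem_nhds
      have := Metric.ball_mem_nhds (0:ℝ) hδ
      filter_upwards [this] with x hx
      rwa [Metric.mem_ball, Real.dist_eq, sub_zero] at hx
    filter_upwards [hev, self_mem_nhdsWithin] with x hx hx0
    have h3 := hclose x hx0 hx
    have h4 := (lp.norm_apply_le_norm ENNReal.top_ne_zero (D k - D x) i).trans h3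
    rw [lp.coeFn_sub, Pi.sub_apply, hDi, hDi, hi, sub_self, mul_zero, RCLike.ofReal_zero, zero_sub, norm_neg,
      RCLike.norm_ofReal] at h4
    simpa [smul_eq_mul] using h4
  -- the two coordinates
  have hidx0 : a (2 * n) = (n:ℝ) + 1 := by
    simp only [ha]
    have : 2 * n / 2 = n := by omega
    rw [this]
  have hidx1 : a (2 * n + 1) = (n:ℝ) + 1 := by
    simp only [ha]
    have : (2 * n + 1) / 2 = n := by omega
    rw [this]
  have hφ0 : φ (2 * n) = fun s => Real.sin (((n:ℝ) + 1) * s) / ((n:ℝ) + 1) := by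
    funext s
    simp only [hφ]
    rw [hidx0, if_pos (by omega)]
  have hφ1 : φ (2 * n + 1) = fun s => Real.cos (((n:ℝ) + 1) * s) / ((n:ℝ) + 1) := by
    funext s
    simp only [hφ]
    rw [hidx1, if_neg (by omega)]
  have harg : ((n:ℝ) + 1) * (t + k) = ((n:ℝ) + 1) * t + 2 * Real.pi := by
    rw [hk]; field_simp
  have hA := hcoord (2 * n) (by rw [hφ0]; simp only; rw [harg, Real.sin_add_two_pi]) (Real.cos (((n:ℝ) + 1) * t)) (by
    rw [hφ0]
    have h1 : HasDerivAt (fun s : ℝ => ((n:ℝ) + 1) * s) ((n:ℝ) + 1) t := by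
      simpa using (hasDerivAt_id t).const_mul ((n:ℝ) + 1)
    have h2 := (h1.sin).div_const ((n:ℝ) + 1)
    refine h2.congr_deriv ?_
    field_simp)
  have hB := hcoord (2 * n + 1) (by rw [hφ1]; simp only; rw [harg, Real.cos_add_two_pi]) (-Real.sin (((n:ℝ) + 1) * t)) (by
    rw [hφ1]
    have h1 : HasDerivAt (fun s : ℝ => ((n:ℝ) + 1) * s) ((n:ℝ) + 1) t := by
      simpa using (hasDerivAt_id t).const_mul ((n:ℝ) + 1)
    have h2 := (h1.cos).div_const ((n:ℝ) + 1)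
    refine h2.congr_deriv ?_
    field_simp)
  rw [abs_neg] at hB
  have hsq := Real.sin_sq_add_cos_sq (((n:ℝ) + 1) * t)
  have e1 : Real.sin (((n:ℝ) + 1) * t) ^ 2 ≤ (1/2) ^ 2 := by
    rw [← sq_abs]; exact pow_le_pow_left₀ (abs_nonneg _) hB 2
  have e2 : Real.cos (((n:ℝ) + 1) * t) ^ 2 ≤ (1/2) ^ 2 := by
    rw [← sq_abs]; exact pow_le_pow_left₀ (abs_nonneg _) hA 2
  nlinarith

end Pool.Agent.Helper234.LInf
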