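import Pool.Agent.Helper234.LInf.Defs

open Filter Topology

namespace Pool.Agent.Helper234.LInf

universe u v

/-- Rosenthal's lemma: one can pass to an infinite index set on which the off-diagonal part of each
functional is uniformly small. -/
theorem rosenthal_lemma (𝕜 : Type) [RCLike 𝕜] (lam : ℕ → lp (fun _ : ℕ => 𝕜) ⊤ →L[𝕜] 𝕜) (C : ℝ)
    (hC : ∀ i, ‖lam i‖ ≤ C) (I : Set ℕ) (hI : I.Infinite) (ε : ℝ) (hε : 0 < ε) :
    ∃ M : Set ℕ, M ⊆ I ∧ M.Infinite ∧ ∀ i ∈ M, ∀ y : lp (fun _ : ℕ => 𝕜) ⊤, ‖y‖ ≤ 1 →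
      (∀ k, y k ≠ 0 → k ∈ M ∧ k ≠ i) → ‖lam i y‖ ≤ ε := by
  by_contra hcon
  push Not at hcon
  have key : ∀ n : ℕ, ∀ J : Set ℕ, J ⊆ I → J.Infinite → ∃ J2 ⊆ J, J2.Infinite ∧ ∀ i ∈ J2,
      ∃ z : lp (fun _ : ℕ => 𝕜) ⊤, ‖z‖ ≤ 1 ∧ (∀ k, z k ≠ 0 → k ∈ J ∧ k ∉ J2) ∧
        n * ε ≤ ‖lam i z‖ := by
    intro n
    induction n with
    | zero =>
      intro J hJ hJi
      refine ⟨J, Set.Subset.rfl, hJi, fun i hi => ⟨0, by simp, ?_, by simp⟩⟩
      intro k hk
      exact absurd (by simp : (0 : lp (fun _ : ℕ => 𝕜) ⊤) k = 0) hk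
    | succ n ih =>
      intro J hJ hJi
      obtain ⟨e, he, heJ⟩ : ∃ e : ℕ → ℕ, Function.Injective e ∧ ∀ m, e m ∈ J :=
        ⟨Nat.nth (· ∈ J), Nat.nth_injective hJi, fun m => Nat.nth_mem_of_infinite hJi m⟩
      let Mp : ℕ → Set ℕ := fun p => Set.range fun q => e (Nat.pair p q)
      have hMJ : ∀ p, Mp p ⊆ J := by
        rintro p _ ⟨q, rfl⟩
        exact heJ _
      have hMi : ∀ p, (Mp p).Infinite := fun p => Set.infinite_range_of_injective (fun a b hab => by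
        exact (Nat.pair_eq_pair.1 (he hab)).2)
      have hMd : ∀ p p' x, x ∈ Mp p → x ∈ Mp p' → p = p' := by
        rintro p p' _ ⟨q, rfl⟩ ⟨q', h⟩
        exact ((Nat.pair_eq_pair.1 (he h)).1).symm
      choose ip hip y hy1 hy2 hy3 using fun p => hcon (Mp p) ((hMJ p).trans hJ) (hMi p)
      have hipinj : Function.Injective ip := fun p p' h =>
        hMd p p' (ip p) (hip p) (by rw [h]; exact hip p')
      obtain ⟨J2, hJ2, hJ2i, hz⟩ := ih (Set.range ip)
        (by rintro _ ⟨p, rfl⟩; exact hJ (hMJ p (hip p))) (Set.infinite_range_of_injective hipinj)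
      refine ⟨J2, hJ2.trans (by rintro _ ⟨p, rfl⟩; exact hMJ p (hip p)), hJ2i, ?_⟩
      intro i hi
      obtain ⟨p, rfl⟩ := hJ2 hi
      obtain ⟨z, hz1, hz2, hz3⟩ := hz (ip p) hi
      obtain ⟨c, hc1, hc2⟩ := RCLike.exists_norm_eq_mul_self (lam (ip p) (y p))
      obtain ⟨d, hd1, hd2⟩ := RCLike.exists_norm_eq_mul_self (lam (ip p) z)
      have hkey : ∀ k, y p k ≠ 0 → ∀ p', ip p' = k → False := by
        intro k h1 p' hp'
        obtain ⟨h3, h4⟩ := hy2 p k h1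
        have h5 : p = p' := hMd p p' k h3 (by rw [← hp']; exact hip p')
        exact h4 (by rw [← hp', h5])
      refine ⟨c • y p + d • z, ?_, ?_, ?_⟩
      · apply lp.norm_le_of_forall_le zero_le_one
        intro k
        rw [lp.coeFn_add, Pi.add_apply, lp.coeFn_smul, lp.coeFn_smul, Pi.smul_apply, Pi.smul_apply]
        by_cases h1 : y p k = 0
        · rw [h1, smul_zero, zero_add, norm_smul, hd1, one_mul]
          exact (lp.norm_apply_le_norm (by simp) z k).trans hz1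
        · have h2 : z k = 0 := by
            by_contra h2
            obtain ⟨⟨p', hp'⟩, -⟩ := hz2 k h2
            exact hkey k h1 p' hp'
          rw [h2, smul_zero, add_zero, norm_smul, hc1, one_mul]
          exact (lp.norm_apply_le_norm (by simp) (y p) k).trans (hy1 p)
      · intro k hk
        by_cases h1 : y p k = 0
        · have h2 : z k ≠ 0 := by
            intro h2
            apply hk
            rw [lp.coeFn_add, Pi.add_apply, lp.coeFn_smul, lp.coeFn_smul, Pi.smul_apply,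
              Pi.smul_apply, h1, h2]
            simp
          obtain ⟨⟨p', hp'⟩, h6⟩ := hz2 k h2
          exact ⟨by rw [← hp']; exact hMJ p' (hip p'), h6⟩
        · obtain ⟨h3, h4⟩ := hy2 p k h1
          refine ⟨hMJ p h3, fun h5 => ?_⟩
          obtain ⟨p', hp'⟩ := hJ2 h5
          exact hkey k h1 p' hp'
      · rw [map_add, map_smul, map_smul, smul_eq_mul, smul_eq_mul, ← hc2, ← hd2]
        rw [← RCLike.ofReal_add, RCLike.norm_ofReal, abs_of_nonneg (by positivity)]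
        push_cast
        linarith [hy3 p]
  obtain ⟨n, hn⟩ := exists_nat_gt (C / ε)
  obtain ⟨J2, hJ2, hJ2i, h⟩ := key n I Set.Subset.rfl hI
  obtain ⟨i, hi⟩ := hJ2i.nonempty
  obtain ⟨z, hz1, -, hz3⟩ := h i hi
  have h1 : ‖lam i z‖ ≤ C * 1 := (lam i).le_of_opNorm_le_of_le (hC i) hz1
  rw [div_lt_iff₀ hε] at hn
  linarith

/-- If `X` contains no copy of l^inf then every operator from l^inf sends the unit vectors to a
null sequence.  -/
theorem linf_free_null (𝕜 : Type) [RCLike 𝕜] (X : Type u) [NormedAddCommGroup X]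
    [NormedSpace 𝕜 X] (hX : ¬ ContainsLinf 𝕜 X) (V : lp (fun _ : ℕ => 𝕜) ⊤ →L[𝕜] X) :
    Tendsto (fun i : ℕ => V (lp.single ⊤ i (1 : 𝕜))) atTop (𝓝 0) := by
  classical
  by_contra hcon
  apply hX
  rw [Metric.tendsto_atTop] at hcon
  push Not at hcon
  obtain ⟨δ, hδ, hN⟩ := hcon
  set I : Set ℕ := {i | δ ≤ ‖V (lp.single ⊤ i (1 : 𝕜))‖} with hIdef
  have hI : I.Infinite := by
    rw [← Nat.frequently_atTop_iff_infinite]
    rw [Filter.frequently_atTop]
    intro N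
    obtain ⟨n, hn, h⟩ := hN N
    exact ⟨n, hn, by simpa [hIdef, dist_zero_right] using h⟩
  have hdual : ∀ i : ℕ, ∃ g : StrongDual 𝕜 X, ‖g‖ ≤ 1 ∧
      g (V (lp.single ⊤ i (1 : 𝕜))) = (‖V (lp.single ⊤ i (1 : 𝕜))‖ : 𝕜) := fun i =>
    exists_dual_vector'' 𝕜 _
  choose g hg1 hg2 using hdual
  obtain ⟨M, hMI, hM, hrest⟩ := rosenthal_lemma 𝕜 (fun i => (g i).comp V) ‖V‖ (by
    intro i
    calc ‖(g i).comp V‖ ≤ ‖g i‖ * ‖V‖ := ContinuousLinearMap.opNorm_comp_le _ _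
      _ ≤ 1 * ‖V‖ := by gcongr; exact hg1 i
      _ = ‖V‖ := one_mul _) I hI (δ / 2) (by positivity)
  set m : ℕ → ℕ := Nat.nth (· ∈ M) with hm
  have hmono : StrictMono m := Nat.nth_strictMono hM
  have hmem : ∀ k, m k ∈ M := fun k => Nat.nth_mem_of_infinite hM k
  have hinj : Function.Injective m := hmono.injective
  -- the embedding
  have hext : ∀ y : lp (fun _ : ℕ => 𝕜) ⊤, ∀ n : ℕ,
      ‖Function.extend m (fun k => y k) (fun _ => (0 : 𝕜)) n‖ ≤ ‖y‖ := by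
    intro y n
    by_cases h : ∃ k, m k = n
    · obtain ⟨k, rfl⟩ := h
      rw [hinj.extend_apply]
      exact lp.norm_apply_le_norm ENNReal.top_ne_zero y k
    · rw [Function.extend_apply' _ _ _ h]
      simp
  let W0 : lp (fun _ : ℕ => 𝕜) ⊤ →ₗ[𝕜] lp (fun _ : ℕ => 𝕜) ⊤ :=
    { toFun := fun y => ⟨Function.extend m (fun k => y k) (fun _ => (0 : 𝕜)),
        memℓp_infty ⟨‖y‖, by rintro _ ⟨n, rfl⟩; exact hext y n⟩⟩
      map_add' := by
        intro x y
        ext n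
        by_cases h : ∃ k, m k = n
        · obtain ⟨k, rfl⟩ := h
          change Function.extend m (fun k => (x + y) k) (fun _ => (0 : 𝕜)) (m k) =
            Function.extend m (fun k => x k) (fun _ => (0 : 𝕜)) (m k) +
            Function.extend m (fun k => y k) (fun _ => (0 : 𝕜)) (m k)
          simp only [hinj.extend_apply]
          rfl
        · change Function.extend m (fun k => (x + y) k) (fun _ => (0 : 𝕜)) n =
            Function.extend m (fun k => x k) (fun _ => (0 : 𝕜)) n +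
            Function.extend m (fun k => y k) (fun _ => (0 : 𝕜)) n
          simp [Function.extend_apply' _ _ _ h]
      map_smul' := by
        intro c y
        ext n
        by_cases h : ∃ k, m k = n
        · obtain ⟨k, rfl⟩ := h
          simp [hinj.extend_apply]
        · simp [Function.extend_apply' _ _ _ h] }
  have hW0 : ∀ y, ‖W0 y‖ ≤ 1 * ‖y‖ := by
    intro y
    rw [one_mul]
    exact lp.norm_le_of_forall_le (norm_nonneg _) (fun n => hext y n)
  let W : lp (fun _ : ℕ => 𝕜) ⊤ →L[𝕜] lp (fun _ : ℕ => 𝕜) ⊤ := W0.mkContinuous 1 hW0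
  have hWin : ∀ y k, W y (m k) = y k := by
    intro y k
    change Function.extend m (fun k => y k) (fun _ => (0 : 𝕜)) (m k) = y k
    rw [hinj.extend_apply]
  have hWout : ∀ y n, n ∉ M → W y n = 0 := by
    intro y n hn
    change Function.extend m (fun k => y k) (fun _ => (0 : 𝕜)) n = 0
    rw [Function.extend_apply']
    rintro ⟨k, rfl⟩
    exact hn (hmem k)
  have hWle : ∀ y n, ‖W y n‖ ≤ ‖y‖ := fun y n => hext y n
  refine ⟨V.comp W, δ / 2, by positivity, ?_⟩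
  intro y
  rcases eq_or_ne y 0 with rfl | hy
  · simp
  have hy0 : 0 < ‖y‖ := norm_pos_iff.mpr hy
  have key : ∀ k, ‖y k‖ * δ ≤ ‖V (W y)‖ + δ / 2 * ‖y‖ := by
    intro k
    set rest : lp (fun _ : ℕ => 𝕜) ⊤ := W y - y k • lp.single ⊤ (m k) (1 : 𝕜) with hr
    have hr1 : ∀ n, n ≠ m k → rest n = W y n := by
      intro n hn
      have : rest n = W y n - y k * (lp.single ⊤ (m k) (1 : 𝕜) : lp (fun _ : ℕ => 𝕜) ⊤) n := rfl
      rw [this, lp.single_apply, Pi.single_eq_of_ne hn]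
      simp
    have hr2 : rest (m k) = 0 := by
      have : rest (m k) = W y (m k) -
          y k * (lp.single ⊤ (m k) (1 : 𝕜) : lp (fun _ : ℕ => 𝕜) ⊤) (m k) := rfl
      rw [this, lp.single_apply, Pi.single_eq_same, hWin]
      simp
    have hrn : ‖rest‖ ≤ ‖y‖ := by
      apply lp.norm_le_of_forall_le (norm_nonneg _)
      intro n
      by_cases h : n = m k
      · rw [h, hr2]; simp
      · rw [hr1 n h]; exact hWle y n
    have hz := hrest (m k) (hmem k) (((‖y‖⁻¹ : ℝ) : 𝕜) • rest) (by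
        rw [norm_smul, RCLike.norm_ofReal, abs_of_pos (inv_pos.mpr hy0)]
        calc ‖y‖⁻¹ * ‖rest‖ ≤ ‖y‖⁻¹ * ‖y‖ := by gcongr
          _ = 1 := inv_mul_cancel₀ hy0.ne') (by
        intro n hn
        have hn1 : rest n ≠ 0 := by
          intro h0
          apply hn
          simp [h0]
        have hn2 : n ≠ m k := by
          rintro rfl
          exact hn1 hr2
        refine ⟨?_, hn2⟩
        by_contra hn3
        exact hn1 (by rw [hr1 n hn2, hWout y n hn3]))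
    have hz2 : ‖g (m k) (V rest)‖ ≤ δ / 2 * ‖y‖ := by
      have : ‖y‖⁻¹ * ‖g (m k) (V rest)‖ ≤ δ / 2 := by
        simpa [norm_smul, abs_of_pos (inv_pos.mpr hy0)] using hz
      rw [inv_mul_le_iff₀ hy0] at this
      linarith
    have hdec : W y = y k • lp.single ⊤ (m k) (1 : 𝕜) + rest := by
      rw [hr]; abel
    have h1 : g (m k) (V (W y)) = y k * (‖V (lp.single ⊤ (m k) (1 : 𝕜))‖ : 𝕜) +
        g (m k) (V rest) := by
      conv_lhs => rw [hdec]
      rw [map_add, map_add, map_smul, map_smul, hg2, smul_eq_mul]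
    have h2 : ‖g (m k) (V (W y))‖ ≤ ‖V (W y)‖ := by
      calc ‖g (m k) (V (W y))‖ ≤ ‖g (m k)‖ * ‖V (W y)‖ := (g (m k)).le_opNorm _
        _ ≤ 1 * ‖V (W y)‖ := by gcongr; exact hg1 _
        _ = _ := one_mul _
    have h3 : δ ≤ ‖V (lp.single ⊤ (m k) (1 : 𝕜))‖ := hMI (hmem k)
    have h4 : ‖y k * (‖V (lp.single ⊤ (m k) (1 : 𝕜))‖ : 𝕜)‖ ≤
        ‖g (m k) (V (W y))‖ + ‖g (m k) (V rest)‖ := by
      have : y k * (‖V (lp.single ⊤ (m k) (1 : 𝕜))‖ : 𝕜) =
        g (m k) (V (W y)) - g (m k) (V rest) := by rw [h1]; ring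
      rw [this]
      exact norm_sub_le _ _
    rw [norm_mul, RCLike.norm_ofReal, abs_of_nonneg (norm_nonneg _)] at h4
    calc ‖y k‖ * δ ≤ ‖y k‖ * ‖V (lp.single ⊤ (m k) (1 : 𝕜))‖ := by gcongr
      _ ≤ _ := h4
      _ ≤ _ := by gcongr
  have hfin : ‖y‖ ≤ (‖V (W y)‖ + δ / 2 * ‖y‖) / δ := by
    apply lp.norm_le_of_forall_le (by positivity)
    intro k
    rw [le_div_iff₀ hδ]
    exact key k
  rw [le_div_iff₀ hδ] at hfin
  change δ / 2 * ‖y‖ ≤ ‖V (W y)‖
  nlinarith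

/-- Phillips' lemma (weak form): if the functionals tend to 0 pointwise then the diagonal values
tend to 0.  -/
theorem phillips_lemma (𝕜 : Type) [RCLike 𝕜] (lam : ℕ → lp (fun _ : ℕ => 𝕜) ⊤ →L[𝕜] 𝕜) (C : ℝ)
    (hC : ∀ i, ‖lam i‖ ≤ C) (h0 : ∀ y, Tendsto (fun i => lam i y) atTop (𝓝 0)) :
    Tendsto (fun i : ℕ => lam i (lp.single ⊤ i (1 : 𝕜))) atTop (𝓝 0) := by
  classical
  by_contra hcon
  rw [Metric.tendsto_atTop] at hcon
  push Not at hcon
  obtain ⟨δ, hδ, hcon⟩ := hcon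
  set I : Set ℕ := {i | δ ≤ ‖lam i (lp.single ⊤ i (1 : 𝕜))‖} with hI
  have hIinf : I.Infinite := by
    rw [Set.infinite_iff_exists_gt]
    intro n
    obtain ⟨i, hi, h1⟩ := hcon (n + 1)
    refine ⟨i, ?_, by omega⟩
    rw [dist_zero_right] at h1
    exact h1
  obtain ⟨M, hMI, hMinf, hM⟩ := rosenthal_lemma 𝕜 lam C hC I hIinf (δ / 2) (half_pos hδ)
  have hmem : Memℓp (fun k : ℕ => if k ∈ M then (1 : 𝕜) else 0) ⊤ := by
    apply memℓp_infty
    refine ⟨1, ?_⟩
    rintro _ ⟨k, rfl⟩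
    simp only
    split_ifs <;> simp
  let y : lp (fun _ : ℕ => 𝕜) ⊤ := ⟨fun k : ℕ => if k ∈ M then (1 : 𝕜) else 0, hmem⟩
  have hy : ∀ k, y k = if k ∈ M then (1 : 𝕜) else 0 := fun _ => rfl
  have hev := (Metric.tendsto_atTop.1 (h0 y)) (δ / 2) (half_pos hδ)
  obtain ⟨N, hN⟩ := hev
  obtain ⟨i, hiM, hiN⟩ := hMinf.exists_gt N
  have h1 := hN i hiN.le
  rw [dist_zero_right] at h1
  set z : lp (fun _ : ℕ => 𝕜) ⊤ := y - lp.single ⊤ i (1 : 𝕜) with hz
  have hzk : ∀ k, z k = if k ∈ M ∧ k ≠ i then (1 : 𝕜) else 0 := by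
    intro k
    rw [hz, lp.coeFn_sub, Pi.sub_apply, hy]
    by_cases hk : k = i
    · subst hk
      rw [lp.single_apply_self]
      simp [hiM]
    · rw [lp.single_apply_ne _ _ _ hk]
      by_cases hkM : k ∈ M <;> simp [hk, hkM]
  have hz1 : ‖z‖ ≤ 1 := by
    apply lp.norm_le_of_forall_le zero_le_one
    intro k
    rw [hzk]
    split_ifs <;> simp
  have h2 := hM i hiM z hz1 (by
    intro k hk
    rw [hzk] at hk
    by_contra hnot
    rw [if_neg hnot] at hk
    exact hk rfl)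
  have h3 : lam i (lp.single ⊤ i (1 : 𝕜)) = lam i y - lam i z := by
    rw [← map_sub, hz, sub_sub_cancel]
  have h4 : δ ≤ ‖lam i (lp.single ⊤ i (1 : 𝕜))‖ := hMI hiM
  rw [h3] at h4
  have h5 := norm_sub_le (lam i y) (lam i z)
  linarith

/-- block operator -/
theorem exists_block (𝕜 : Type) [RCLike 𝕜] (X : Type u) [NormedAddCommGroup X]
    [NormedSpace 𝕜 X] (ι : ℕ → ℕ) (z : ℕ → lp (fun _ : ℕ => X) ⊤) (hz : ∀ i, ‖z i‖ ≤ 1) :
    ∃ W : lp (fun _ : ℕ => 𝕜) ⊤ →L[𝕜] lp (fun _ : ℕ => X) ⊤, ‖W‖ ≤ 1 ∧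
      ∀ y n, (W y) n = y (ι n) • z (ι n) n := by
  have hbd : ∀ (y : lp (fun _ : ℕ => 𝕜) ⊤) (n : ℕ), ‖y (ι n) • z (ι n) n‖ ≤ ‖y‖ := by
    intro y n
    rw [norm_smul]
    have h1 : ‖y (ι n)‖ ≤ ‖y‖ := lp.norm_apply_le_norm ENNReal.top_ne_zero y (ι n)
    have h2 : ‖z (ι n) n‖ ≤ 1 :=
      (lp.norm_apply_le_norm ENNReal.top_ne_zero (z (ι n)) n).trans (hz _)
    calc ‖y (ι n)‖ * ‖z (ι n) n‖ ≤ ‖y‖ * 1 :=
          mul_le_mul h1 h2 (norm_nonneg _) (norm_nonneg _)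
      _ = ‖y‖ := mul_one _
  have hmem : ∀ y : lp (fun _ : ℕ => 𝕜) ⊤, Memℓp (fun n => y (ι n) • z (ι n) n) ⊤ := by
    intro y
    apply memℓp_infty
    refine ⟨‖y‖, ?_⟩
    rintro _ ⟨n, rfl⟩
    exact hbd y n
  let L : lp (fun _ : ℕ => 𝕜) ⊤ →ₗ[𝕜] lp (fun _ : ℕ => X) ⊤ :=
    { toFun := fun y => ⟨fun n => y (ι n) • z (ι n) n, hmem y⟩
      map_add' := fun y y' => by
        ext n
        show (y + y') (ι n) • z (ι n) n = y (ι n) • z (ι n) n + y' (ι n) • z (ι n) n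
        rw [lp.coeFn_add, Pi.add_apply, add_smul]
      map_smul' := fun c y => by
        ext n
        show (c • y) (ι n) • z (ι n) n = c • (y (ι n) • z (ι n) n)
        rw [lp.coeFn_smul, Pi.smul_apply, smul_assoc] }
  refine ⟨L.mkContinuous 1 (fun y => ?_), ?_, ?_⟩
  · rw [one_mul]
    exact lp.norm_le_of_forall_le (norm_nonneg _) (fun n => hbd y n)
  · exact LinearMap.mkContinuous_norm_le _ zero_le_one _
  · intro y n
    rfl

theorem uniform_tails (𝕜 : Type) [RCLike 𝕜] (X : Type u) [NormedAddCommGroup X]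
    [NormedSpace 𝕜 X] (hX : ¬ ContainsLinf 𝕜 X)
    (A : ℕ → lp (fun _ : ℕ => X) ⊤ →L[𝕜] X) (C : ℝ) (hC : ∀ m, ‖A m‖ ≤ C)
    (h0 : ∀ z, Tendsto (fun m => A m z) atTop (𝓝 0)) :
    ∀ ε > 0, ∃ N : ℕ, ∀ (m : ℕ) (z : lp (fun _ : ℕ => X) ⊤), ‖z‖ ≤ 1 →
      (∀ n < N, z n = 0) → (∃ K, ∀ n ≥ K, z n = 0) → ‖A m z‖ ≤ ε := by
  classical
  by_contra hcon
  push Not at hcon
  obtain ⟨ε, hε, hcon⟩ := hcon
  choose M Z hZ1 hZ2 hZ3 hZ4 using hcon
  choose Kf hKf using hZ3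
  obtain ⟨Ns, hNs0, hNs1⟩ : ∃ Ns : ℕ → ℕ, Ns 0 = 0 ∧
      ∀ i, Ns (i + 1) = max (Kf (Ns i)) (Ns i + 1) :=
    ⟨fun i => Nat.rec 0 (fun _ r => max (Kf r) (r + 1)) i, rfl, fun i => rfl⟩
  have hmono : StrictMono Ns := by
    apply strictMono_nat_of_lt_succ
    intro i
    rw [hNs1]
    exact lt_of_lt_of_le (Nat.lt_succ_self _) (le_max_right _ _)
  have hex : ∀ n : ℕ, ∃ i, Ns i ≤ n ∧ n < Ns (i + 1) := by
    intro n
    have h1 : ∃ j, n < Ns j := ⟨n + 1, lt_of_lt_of_le (Nat.lt_succ_self n) (hmono.le_apply)⟩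
    have h2 : Nat.find h1 ≠ 0 := by
      intro h3
      have h4 := Nat.find_spec h1
      rw [h3, hNs0] at h4
      exact Nat.not_lt_zero _ h4
    obtain ⟨i, hi⟩ := Nat.exists_eq_succ_of_ne_zero h2
    refine ⟨i, ?_, ?_⟩
    · have := Nat.find_min h1 (m := i) (by omega)
      exact not_lt.mp this
    · have := Nat.find_spec h1
      rw [hi] at this
      exact this
  choose ι hι1 hι2 using hex
  have huniq : ∀ n i, Ns i ≤ n → n < Ns (i + 1) → ι n = i := by
    intro n i h1 h2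
    have h3 : Ns (ι n) < Ns (i + 1) := lt_of_le_of_lt (hι1 n) h2
    have h4 : Ns i < Ns (ι n + 1) := lt_of_le_of_lt h1 (hι2 n)
    rw [hmono.lt_iff_lt] at h3 h4
    omega
  obtain ⟨z, hzdef⟩ : ∃ z : ℕ → lp (fun _ : ℕ => X) ⊤, z = fun i => Z (Ns i) := ⟨_, rfl⟩
  have hz1 : ∀ i, ‖z i‖ ≤ 1 := fun i => by rw [hzdef]; exact hZ1 _
  have hz0 : ∀ i n, ι n ≠ i → z i n = 0 := by
    intro i n hn
    rw [hzdef]
    rcases lt_or_ge n (Ns i) with h1 | h1
    · exact hZ2 (Ns i) n h1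
    · have h2 : Ns (i + 1) ≤ n := by
        by_contra h3
        push Not at h3
        exact hn (huniq n i h1 h3)
      apply hKf
      refine le_trans ?_ h2
      rw [hNs1]
      exact le_max_left _ _
  obtain ⟨W, hW1, hW⟩ := exists_block 𝕜 X ι z hz1
  have hWe : ∀ i, W (lp.single ⊤ i (1 : 𝕜)) = z i := by
    intro i
    ext n
    rw [hW]
    by_cases h : ι n = i
    · rw [h, lp.single_apply_self, one_smul]
    · rw [lp.single_apply_ne _ _ _ h, zero_smul, hz0 i n h]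
  have hε4 : ∀ i, ε < ‖A (M (Ns i)) (z i)‖ := fun i => by rw [hzdef]; exact hZ4 (Ns i)
  by_cases hinf : ∃ m, {i | M (Ns i) = m}.Infinite
  · obtain ⟨m, hm⟩ := hinf
    have h1 := linf_free_null 𝕜 X hX ((A m).comp W)
    have h2 : Tendsto (fun i : ℕ => ‖A m (z i)‖) atTop (𝓝 0) := by
      have h3 := h1.norm
      rw [norm_zero] at h3
      refine h3.congr (fun i => ?_)
      rw [ContinuousLinearMap.comp_apply, hWe]
    have h3 : ∀ᶠ i in atTop, ‖A m (z i)‖ < ε := h2.eventually_lt_const hε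
    have h4 : ∃ᶠ i in atTop, M (Ns i) = m := Nat.frequently_atTop_iff_infinite.mpr hm
    obtain ⟨i, hi1, hi2⟩ := (h4.and_eventually h3).exists
    have h5 := hε4 i
    rw [hi1] at h5
    exact lt_irrefl _ (h5.trans hi2)
  · push Not at hinf
    have htend : Tendsto (fun i => M (Ns i)) atTop atTop := by
      rw [← Nat.cofinite_eq_atTop]
      apply Filter.Tendsto.cofinite_of_finite_preimage_singleton
      intro m
      exact hinf m
    choose ξ hξ1 hξ2 using fun i => exists_dual_vector'' 𝕜 (A (M (Ns i)) (z i))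
    have hC0 : 0 ≤ C := (norm_nonneg _).trans (hC 0)
    have h1 := phillips_lemma 𝕜 (fun i => (ξ i).comp ((A (M (Ns i))).comp W)) C ?_ ?_
    · have h2 : Tendsto (fun i : ℕ => ‖A (M (Ns i)) (z i)‖) atTop (𝓝 0) := by
        have h3 := h1.norm
        rw [norm_zero] at h3
        refine h3.congr (fun i => ?_)
        rw [ContinuousLinearMap.comp_apply, ContinuousLinearMap.comp_apply, hWe, hξ2]
        simp
      obtain ⟨i, hi⟩ := (h2.eventually_lt_const hε).exists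
      exact lt_irrefl _ ((hε4 i).trans hi)
    · intro i
      calc ‖(ξ i).comp ((A (M (Ns i))).comp W)‖ ≤ ‖ξ i‖ * ‖(A (M (Ns i))).comp W‖ :=
            ContinuousLinearMap.opNorm_comp_le _ _
        _ ≤ 1 * (C * 1) := by
            apply mul_le_mul (hξ1 i) _ (norm_nonneg _) zero_le_one
            exact (ContinuousLinearMap.opNorm_comp_le _ _).trans
              (mul_le_mul (hC _) hW1 (norm_nonneg _) hC0)
        _ = C := by ring
    · intro y
      have h3 : Tendsto (fun i => ‖A (M (Ns i)) (W y)‖) atTop (𝓝 0) := by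
        have h4 := ((h0 (W y)).comp htend).norm
        rw [norm_zero] at h4
        exact h4
      refine squeeze_zero_norm (fun i => ?_) h3
      rw [ContinuousLinearMap.comp_apply, ContinuousLinearMap.comp_apply]
      calc ‖ξ i (A (M (Ns i)) (W y))‖ ≤ ‖ξ i‖ * ‖A (M (Ns i)) (W y)‖ :=
            ContinuousLinearMap.le_opNorm _ _
        _ ≤ 1 * ‖A (M (Ns i)) (W y)‖ := mul_le_mul_of_nonneg_right (hξ1 i) (norm_nonneg _)
        _ = ‖A (M (Ns i)) (W y)‖ := one_mul _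

/-- the tail of a bounded sequence -/
noncomputable def tlz (𝕜 : Type) [RCLike 𝕜] (X : Type u) [NormedAddCommGroup X]
    [NormedSpace 𝕜 X] (N : ℕ) : lp (fun _ : ℕ => X) ⊤ →ₗ[𝕜] lp (fun _ : ℕ => X) ⊤ where
  toFun z := ⟨fun n => if n < N then 0 else z n, by
    apply memℓp_infty
    refine ⟨‖z‖, ?_⟩
    rintro _ ⟨n, rfl⟩
    dsimp only
    split_ifs
    · rw [norm_zero]; exact norm_nonneg z
    · exact lp.norm_apply_le_norm ENNReal.top_ne_zero z n⟩
  map_add' z w := by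
    ext n
    simp only [lp.coeFn_add, Pi.add_apply]
    split_ifs <;> simp
  map_smul' c z := by
    ext n
    simp only [lp.coeFn_smul, Pi.smul_apply, RingHom.id_apply]
    split_ifs <;> simp

theorem tlz_apply (𝕜 : Type) [RCLike 𝕜] (X : Type u) [NormedAddCommGroup X]
    [NormedSpace 𝕜 X] (N : ℕ) (z : lp (fun _ : ℕ => X) ⊤) (n : ℕ) :
    tlz 𝕜 X N z n = if n < N then 0 else z n := rfl

theorem limit_part (𝕜 : Type) [RCLike 𝕜] (X : Type u) [NormedAddCommGroup X]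
    [NormedSpace 𝕜 X] [CompleteSpace X]
    (A : ℕ → lp (fun _ : ℕ => X) ⊤ →L[𝕜] X)
    (tails : ∀ ε > 0, ∃ N : ℕ, ∀ (m : ℕ) (z : lp (fun _ : ℕ => X) ⊤), ‖z‖ ≤ 1 →
      (∀ n < N, z n = 0) → (∃ K, ∀ n ≥ K, z n = 0) → ‖A m z‖ ≤ ε) :
    ∃ Φ : ℕ → lp (fun _ : ℕ => X) ⊤ →L[𝕜] X,
      (∀ m (z : lp (fun _ : ℕ => X) ⊤), Tendsto (fun n => z n) atTop (𝓝 0) → Φ m z = 0) ∧
      ∀ ε > 0, ∃ N : ℕ, ∀ (m : ℕ) (z w : lp (fun _ : ℕ => X) ⊤), ‖z‖ ≤ 1 →
        (∀ n < N, w n = 0) → (∀ n ≥ N, w n = z n) → ‖Φ m z - A m w‖ ≤ ε := by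
  set T := tlz 𝕜 X with hT
  have hTn : ∀ N (z : lp (fun _ : ℕ => X) ⊤), ‖T N z‖ ≤ ‖z‖ := by
    intro N z
    apply lp.norm_le_of_forall_le (norm_nonneg z)
    intro n
    rw [hT, tlz_apply]
    split_ifs
    · rw [norm_zero]; exact norm_nonneg z
    · exact lp.norm_apply_le_norm ENNReal.top_ne_zero z n
  have key : ∀ ε > 0, ∃ N0 : ℕ, ∀ (m : ℕ) (z : lp (fun _ : ℕ => X) ⊤), ‖z‖ ≤ 1 →
      ∀ N N2, N0 ≤ N → N ≤ N2 → ‖A m (T N2 z) - A m (T N z)‖ ≤ ε := by
    intro ε hε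
    obtain ⟨N0, hN0⟩ := tails ε hε
    refine ⟨N0, fun m z hz N N2 h1 h2 => ?_⟩
    rw [norm_sub_rev, ← map_sub]
    have hu : ∀ n, (T N z - T N2 z) n = if N ≤ n ∧ n < N2 then z n else 0 := by
      intro n
      rw [lp.coeFn_sub, Pi.sub_apply, hT, tlz_apply, tlz_apply]
      by_cases h3 : n < N
      · have h4 : n < N2 := by omega
        rw [if_pos h3, if_pos h4, if_neg (by omega), sub_zero]
      · by_cases h4 : n < N2
        · rw [if_neg h3, if_pos h4, if_pos (by omega), sub_zero]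
        · rw [if_neg h3, if_neg h4, if_neg (by omega), sub_self]
    apply hN0 m
    · refine le_trans ?_ hz
      apply lp.norm_le_of_forall_le (norm_nonneg z)
      intro n
      rw [hu]
      split_ifs
      · exact lp.norm_apply_le_norm ENNReal.top_ne_zero z n
      · rw [norm_zero]; exact norm_nonneg z
    · intro n hn
      rw [hu, if_neg (by omega)]
    · refine ⟨N2, fun n hn => ?_⟩
      rw [hu, if_neg (by omega)]
  have hcau : ∀ (m : ℕ) (z : lp (fun _ : ℕ => X) ⊤), CauchySeq (fun N => A m (T N z)) := by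
    intro m z
    rw [Metric.cauchySeq_iff']
    intro ε hε
    have hz1 : 0 < ‖z‖ + 1 := by positivity
    obtain ⟨N0, hN0⟩ := key (ε / (2 * (‖z‖ + 1))) (by positivity)
    refine ⟨N0, fun N hN => ?_⟩
    have hc : ‖(((‖z‖ + 1)⁻¹ : ℝ) : 𝕜) • z‖ ≤ 1 := by
      rw [norm_smul, RCLike.norm_ofReal, abs_of_pos (by positivity), inv_mul_le_iff₀ hz1]
      linarith
    have h1 := hN0 m ((((‖z‖ + 1)⁻¹ : ℝ) : 𝕜) • z) hc N0 N le_rfl hN
    rw [map_smul, map_smul, map_smul, map_smul, ← smul_sub, norm_smul, RCLike.norm_ofReal,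
      abs_of_pos (by positivity), inv_mul_le_iff₀ hz1] at h1
    rw [dist_eq_norm]
    refine lt_of_le_of_lt h1 ?_
    have e : (‖z‖ + 1) * (ε / (2 * (‖z‖ + 1))) = ε / 2 := by field_simp
    rw [e]; linarith
  choose L hL using fun m z => cauchySeq_tendsto_of_complete (hcau m z)
  let Φ : ℕ → lp (fun _ : ℕ => X) ⊤ →L[𝕜] X := fun m => LinearMap.mkContinuous
    { toFun := L m
      map_add' := fun z w => by
        refine tendsto_nhds_unique (hL m (z + w)) ?_
        have h1 := (hL m z).add (hL m w)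
        refine h1.congr fun N => ?_
        rw [map_add, map_add]
      map_smul' := fun c z => by
        refine tendsto_nhds_unique (hL m (c • z)) ?_
        have h1 := (hL m z).const_smul c
        refine h1.congr fun N => ?_
        rw [map_smul, map_smul] } ‖A m‖ (fun z => by
          refine le_of_tendsto (hL m z).norm (Eventually.of_forall fun N => ?_)
          exact ((A m).le_opNorm _).trans
            (mul_le_mul_of_nonneg_left (hTn N z) (norm_nonneg _)))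
  have hΦ : ∀ m z, Φ m z = L m z := fun m z => rfl
  refine ⟨Φ, ?_, ?_⟩
  · intro m z hz
    rw [hΦ]
    refine tendsto_nhds_unique (hL m z) ?_
    rw [tendsto_zero_iff_norm_tendsto_zero]
    have h1 : Tendsto (fun N => ‖A m‖ * ‖T N z‖) atTop (𝓝 0) := by
      have h2 : Tendsto (fun N => ‖T N z‖) atTop (𝓝 0) := by
        rw [Metric.tendsto_atTop]
        intro ε hε
        rw [Metric.tendsto_atTop] at hz
        obtain ⟨N0, hN0⟩ := hz (ε / 2) (by positivity)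
        refine ⟨N0, fun N hN => ?_⟩
        rw [Real.dist_eq, sub_zero, abs_of_nonneg (norm_nonneg _)]
        refine lt_of_le_of_lt (b := ε / 2) ?_ (by linarith)
        apply lp.norm_le_of_forall_le (by positivity)
        intro n
        rw [hT, tlz_apply]
        split_ifs with h3
        · rw [norm_zero]; positivity
        · have h4 := hN0 n (by omega)
          rw [dist_zero_right] at h4
          exact h4.le
      simpa using h2.const_mul ‖A m‖
    exact squeeze_zero (fun N => norm_nonneg _) (fun N => (A m).le_opNorm _) h1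
  · intro ε hε
    obtain ⟨N, hN⟩ := key ε hε
    refine ⟨N, fun m z w hz hw1 hw2 => ?_⟩
    have hw : w = T N z := by
      ext n
      rw [hT, tlz_apply]
      split_ifs with h3
      · exact hw1 n h3
      · exact hw2 n (by omega)
    rw [hΦ, hw]
    refine le_of_tendsto ((hL m z).sub_const (A m (T N z))).norm ?_
    filter_upwards [eventually_ge_atTop N] with N2 hN2
    exact hN m z hz N N2 le_rfl hN2

/-- coordinatewise diagonal operator built from `S : X → Z` -/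
noncomputable def diag11112 {𝕜 : Type} [RCLike 𝕜] {X : Type u} [NormedAddCommGroup X]
    [NormedSpace 𝕜 X] (S : X →L[𝕜] lp (fun _ : ℕ => X) ⊤) :
    lp (fun _ : ℕ => X) ⊤ →L[𝕜] lp (fun _ : ℕ => X) ⊤ :=
  LinearMap.mkContinuous
    { toFun := fun z => ⟨fun n => (S (z n)) n, by
        apply memℓp_infty
        refine ⟨‖S‖ * ‖z‖, ?_⟩
        rintro _ ⟨n, rfl⟩
        calc ‖(S (z n)) n‖ ≤ ‖S (z n)‖ := lp.norm_apply_le_norm (by simp) _ _
          _ ≤ ‖S‖ * ‖z n‖ := S.le_opNorm _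
          _ ≤ ‖S‖ * ‖z‖ := by
            gcongr
            exact lp.norm_apply_le_norm (by simp) _ _⟩
      map_add' := by
        intro z w
        ext n
        simp
      map_smul' := by
        intro c z
        ext n
        simp } ‖S‖ (by
    intro z
    apply lp.norm_le_of_forall_le (by positivity)
    intro n
    calc ‖(S (z n)) n‖ ≤ ‖S (z n)‖ := lp.norm_apply_le_norm (by simp) _ _
      _ ≤ ‖S‖ * ‖z n‖ := S.le_opNorm _
      _ ≤ ‖S‖ * ‖z‖ := by
        gcongr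
        exact lp.norm_apply_le_norm (by simp) _ _)

theorem diag11112_apply {𝕜 : Type} [RCLike 𝕜] {X : Type u} [NormedAddCommGroup X]
    [NormedSpace 𝕜 X] (S : X →L[𝕜] lp (fun _ : ℕ => X) ⊤) (z : lp (fun _ : ℕ => X) ⊤) (n : ℕ) :
    (diag11112 S z) n = (S (z n)) n := rfl

theorem core_limit (𝕜 : Type) [RCLike 𝕜] (X : Type u) [NormedAddCommGroup X]
    [NormedSpace 𝕜 X] [CompleteSpace X] (hX : ¬ ContainsLinf 𝕜 X)
    (L : Type v) [NormedAddCommGroup L] [NormedSpace 𝕜 L]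
    (T : L →L[𝕜] lp (fun _ : ℕ => X) ⊤) (P : lp (fun _ : ℕ => X) ⊤ →L[𝕜] L)
    (hPT : ∀ f, P (T f) = f)
    (ρ : ℕ → X →L[𝕜] L) (κ : ℕ → L →L[𝕜] X)
    (hρ : ∀ m, ‖ρ m‖ ≤ 1) (hκ : ∀ m, ‖κ m‖ ≤ 1) (hκρ : ∀ m x, κ m (ρ m x) = x)
    (hκ0 : ∀ f, Tendsto (fun m => κ m f) atTop (𝓝 0))
    (hAC : ∀ n : ℕ, ∀ ε > (0 : ℝ), ∃ M0 : ℕ, ∀ M ≥ M0, ∀ x : X, ‖x‖ ≤ 1 → ∀ σ : ℕ → 𝕜,
      (∀ i, σ i = 1 ∨ σ i = -1) →
      ‖(T (∑ i ∈ Finset.range M, σ i • ρ i x)) n‖ ≤ ε * M)
    (hS : ∀ (M : ℕ) (g : ℕ → L) (K : ℝ),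
      (∀ σ : ℕ → 𝕜, (∀ i, σ i = 1 ∨ σ i = -1) → ‖∑ i ∈ Finset.range M, σ i • g i‖ ≤ K) →
      ‖∑ i ∈ Finset.range M, κ i (g i)‖ ≤ K) :
    LimitOperator 𝕜 X := by
  classical
  set A : ℕ → lp (fun _ : ℕ => X) ⊤ →L[𝕜] X := fun m => (κ m).comp P with hA
  have hAap : ∀ m z, A m z = κ m (P z) := fun m z => rfl
  have hAC' : ∀ m, ‖A m‖ ≤ ‖P‖ := by
    intro m
    calc ‖A m‖ ≤ ‖κ m‖ * ‖P‖ := ContinuousLinearMap.opNorm_comp_le _ _
      _ ≤ 1 * ‖P‖ := by gcongr; exact hκ m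
      _ = ‖P‖ := one_mul _
  have hA0 : ∀ z, Tendsto (fun m => A m z) atTop (𝓝 0) := fun z => hκ0 (P z)
  have tails := uniform_tails 𝕜 X hX A ‖P‖ hAC' hA0
  obtain ⟨Φ, hΦ0, hΦ⟩ := limit_part 𝕜 X A tails
  -- step 2
  set R : ℝ := ‖T‖ + 1 with hR
  have hRpos : 0 < R := by positivity
  obtain ⟨N, hN⟩ : ∃ N : ℕ, ∀ (m : ℕ) (z w : lp (fun _ : ℕ => X) ⊤), ‖z‖ ≤ R →
        (∀ n < N, w n = 0) → (∀ n ≥ N, w n = z n) → ‖Φ m z - A m w‖ ≤ 1 / 4 := by
    obtain ⟨N, hN⟩ := hΦ (1 / (4 * R)) (by positivity)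
    refine ⟨N, fun m z w hz hw1 hw2 => ?_⟩
    have hRn : ‖((R : 𝕜)⁻¹)‖ = R⁻¹ := by
      rw [norm_inv, RCLike.norm_ofReal, abs_of_pos hRpos]
    have h := hN m ((R : 𝕜)⁻¹ • z) ((R : 𝕜)⁻¹ • w) (by
      rw [norm_smul, hRn, inv_mul_le_iff₀ hRpos]; simpa using hz) (by
      intro n hn
      rw [lp.coeFn_smul, Pi.smul_apply, hw1 n hn, smul_zero]) (by
      intro n hn
      rw [lp.coeFn_smul, Pi.smul_apply, hw2 n hn]
      rfl)
    rw [map_smul, map_smul, ← smul_sub, norm_smul, hRn, inv_mul_le_iff₀ hRpos] at h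
    calc ‖Φ m z - A m w‖ ≤ R * (1 / (4 * R)) := h
      _ = 1 / 4 := by field_simp
  -- step 3
  set e2 : ℝ := 1 / (4 * ((N : ℝ) + 1) * (‖P‖ + 1)) with he2
  have he2pos : 0 < e2 := by positivity
  choose M0 hM0 using fun n => hAC n e2 he2pos
  set M : ℕ := 1 + ∑ n ∈ Finset.range N, M0 n with hM
  have hMpos : 0 < M := by omega
  have hMge : ∀ n < N, M0 n ≤ M := by
    intro n hn
    have : M0 n ≤ ∑ n ∈ Finset.range N, M0 n :=
      Finset.single_le_sum (fun _ _ => Nat.zero_le _) (Finset.mem_range.2 hn)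
    omega
  have hMR : (0 : ℝ) < M := by exact_mod_cast hMpos
  have key : ∀ x : X, ‖x‖ ≤ 1 →
      ‖∑ m ∈ Finset.range M, Φ m (T (ρ m x)) - (M : 𝕜) • x‖ ≤ M / 2 := by
    intro x hx
    set z : ℕ → lp (fun _ : ℕ => X) ⊤ := fun m => T (ρ m x) with hz
    set g : ℕ → ℕ → L := fun n m => P (lp.single ⊤ n (z m n)) with hg
    set w : ℕ → lp (fun _ : ℕ => X) ⊤ :=
      fun m => z m - ∑ n ∈ Finset.range N, lp.single ⊤ n (z m n) with hw
    have hznorm : ∀ m, ‖z m‖ ≤ R := by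
      intro m
      calc ‖T (ρ m x)‖ ≤ ‖T‖ * ‖ρ m x‖ := T.le_opNorm _
        _ ≤ ‖T‖ * (‖ρ m‖ * ‖x‖) := by gcongr; exact (ρ m).le_opNorm _
        _ ≤ ‖T‖ * (1 * 1) := by
          gcongr
          exact hρ m
        _ ≤ R := by rw [hR]; linarith
    have hsum : ∀ m k, (∑ n ∈ Finset.range N, lp.single ⊤ n (z m n) : lp (fun _ : ℕ => X) ⊤) k
        = if k < N then z m k else 0 := by
      intro m k
      rw [lp.coeFn_sum, Finset.sum_apply]
      split_ifs with hk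
      · rw [Finset.sum_eq_single k]
        · exact lp.single_apply_self _ _ _
        · intro b _ hb
          exact lp.single_apply_ne _ _ _ (Ne.symm hb)
        · intro h
          exact absurd (Finset.mem_range.2 hk) h
      · apply Finset.sum_eq_zero
        intro b hb
        have : b < N := Finset.mem_range.1 hb
        exact lp.single_apply_ne _ _ _ (by omega)
    have hw1 : ∀ m, ∀ n < N, w m n = 0 := by
      intro m n hn
      have : w m n = z m n - (∑ n ∈ Finset.range N, lp.single ⊤ n (z m n) :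
          lp (fun _ : ℕ => X) ⊤) n := rfl
      rw [this, hsum, if_pos hn, sub_self]
    have hw2 : ∀ m, ∀ n ≥ N, w m n = z m n := by
      intro m n hn
      have : w m n = z m n - (∑ n ∈ Finset.range N, lp.single ⊤ n (z m n) :
          lp (fun _ : ℕ => X) ⊤) n := rfl
      rw [this, hsum, if_neg (by omega), sub_zero]
    have hAw : ∀ m, A m (w m) = x - ∑ n ∈ Finset.range N, κ m (g n m) := by
      intro m
      rw [hw]
      simp only [map_sub, map_sum, hAap, hg]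
      rw [hPT, hκρ]
    have hclose : ∀ m, ‖Φ m (z m) - x + ∑ n ∈ Finset.range N, κ m (g n m)‖ ≤ 1 / 4 := by
      intro m
      have h := hN m (z m) (w m) (hznorm m) (hw1 m) (hw2 m)
      rw [hAw] at h
      have : Φ m (z m) - (x - ∑ n ∈ Finset.range N, κ m (g n m))
          = Φ m (z m) - x + ∑ n ∈ Finset.range N, κ m (g n m) := by abel
      rwa [this] at h
    have hcol : ∀ n < N, ‖∑ m ∈ Finset.range M, κ m (g n m)‖ ≤ ‖P‖ * (e2 * M) := by
      intro n hn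
      apply hS M (g n) (‖P‖ * (e2 * M))
      intro σ hσ
      have h1 : ∑ i ∈ Finset.range M, σ i • g n i
          = P (lp.single ⊤ n ((T (∑ i ∈ Finset.range M, σ i • ρ i x)) n)) := by
        have h2 : (T (∑ i ∈ Finset.range M, σ i • ρ i x)) n
            = ∑ i ∈ Finset.range M, σ i • z i n := by
          rw [map_sum, lp.coeFn_sum, Finset.sum_apply]
          apply Finset.sum_congr rfl
          intro i _
          rw [map_smul]
          rfl
        rw [h2]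
        have h3 : (lp.single ⊤ n (∑ i ∈ Finset.range M, σ i • z i n) : lp (fun _ : ℕ => X) ⊤)
            = ∑ i ∈ Finset.range M, σ i • lp.single ⊤ n (z i n) := by
          ext k
          rw [lp.coeFn_sum, Finset.sum_apply]
          by_cases hk : k = n
          · subst hk
            rw [lp.single_apply_self]
            apply Finset.sum_congr rfl
            intro i _
            rw [lp.coeFn_smul, Pi.smul_apply, lp.single_apply_self]
          · rw [lp.single_apply_ne _ _ _ hk]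
            symm
            apply Finset.sum_eq_zero
            intro i _
            rw [lp.coeFn_smul, Pi.smul_apply, lp.single_apply_ne _ _ _ hk, smul_zero]
        rw [h3, map_sum]
        apply Finset.sum_congr rfl
        intro i _
        rw [map_smul]
      rw [h1]
      calc ‖P (lp.single ⊤ n ((T (∑ i ∈ Finset.range M, σ i • ρ i x)) n))‖
          ≤ ‖P‖ * ‖(lp.single ⊤ n ((T (∑ i ∈ Finset.range M, σ i • ρ i x)) n) :
              lp (fun _ : ℕ => X) ⊤)‖ := P.le_opNorm _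
        _ = ‖P‖ * ‖(T (∑ i ∈ Finset.range M, σ i • ρ i x)) n‖ := by
          rw [lp.norm_single (by simp)]
        _ ≤ ‖P‖ * (e2 * M) := by
          gcongr
          exact hM0 n M (hMge n hn) x hx σ hσ
    have hsplit : ∑ m ∈ Finset.range M, Φ m (T (ρ m x)) - (M : 𝕜) • x
        = ∑ m ∈ Finset.range M, (Φ m (z m) - x + ∑ n ∈ Finset.range N, κ m (g n m))
          - ∑ n ∈ Finset.range N, ∑ m ∈ Finset.range M, κ m (g n m) := by
      rw [Finset.sum_add_distrib, Finset.sum_sub_distrib, Finset.sum_const, Finset.card_range,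
        Finset.sum_comm (s := Finset.range N), add_sub_cancel_right]
      congr 1
      exact Nat.cast_smul_eq_nsmul 𝕜 M x
    rw [hsplit]
    have hb1 : ‖∑ m ∈ Finset.range M, (Φ m (z m) - x + ∑ n ∈ Finset.range N, κ m (g n m))‖
        ≤ M * (1 / 4) := by
      calc _ ≤ ∑ m ∈ Finset.range M, ‖(Φ m (z m) - x + ∑ n ∈ Finset.range N, κ m (g n m))‖ :=
            norm_sum_le _ _
        _ ≤ ∑ m ∈ Finset.range M, (1 / 4 : ℝ) := Finset.sum_le_sum fun m _ => hclose m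
        _ = M * (1 / 4) := by rw [Finset.sum_const, Finset.card_range, nsmul_eq_mul]
    have hb2 : ‖∑ n ∈ Finset.range N, ∑ m ∈ Finset.range M, κ m (g n m)‖
        ≤ N * (‖P‖ * (e2 * M)) := by
      calc _ ≤ ∑ n ∈ Finset.range N, ‖∑ m ∈ Finset.range M, κ m (g n m)‖ :=
            norm_sum_le _ _
        _ ≤ ∑ n ∈ Finset.range N, (‖P‖ * (e2 * M)) :=
            Finset.sum_le_sum fun n hn => hcol n (Finset.mem_range.1 hn)
        _ = N * (‖P‖ * (e2 * M)) := by rw [Finset.sum_const, Finset.card_range, nsmul_eq_mul]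
    have hb3 : (N : ℝ) * (‖P‖ * (e2 * M)) ≤ M * (1 / 4) := by
      have hP0 : 0 ≤ ‖P‖ := norm_nonneg _
      have hN0 : (0 : ℝ) ≤ N := Nat.cast_nonneg _
      have h1 : (N : ℝ) * ‖P‖ ≤ ((N : ℝ) + 1) * (‖P‖ + 1) := by nlinarith
      have h2 : e2 * (((N : ℝ) + 1) * (‖P‖ + 1)) = 1 / 4 := by
        rw [he2]; field_simp
      calc (N : ℝ) * (‖P‖ * (e2 * M)) = e2 * ((N : ℝ) * ‖P‖) * M := by ring
        _ ≤ e2 * (((N : ℝ) + 1) * (‖P‖ + 1)) * M := by gcongr
        _ = M * (1 / 4) := by rw [h2]; ring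
    calc _ ≤ (M : ℝ) * (1 / 4) + (M : ℝ) * (1 / 4) :=
          (norm_sub_le _ _).trans (add_le_add hb1 (hb2.trans hb3))
      _ = (M : ℝ) / 2 := by ring
  -- step 4
  set V : X →L[𝕜] X := (M : 𝕜)⁻¹ • ∑ m ∈ Finset.range M, (Φ m).comp (T.comp (ρ m)) with hV
  have hVap : ∀ x, V x = (M : 𝕜)⁻¹ • ∑ m ∈ Finset.range M, Φ m (T (ρ m x)) := by
    intro x
    rw [hV]
    simp [ContinuousLinearMap.sum_apply]
  have hMK : (M : 𝕜) ≠ 0 := by exact_mod_cast hMpos.ne'
  have hMKn : ‖(M : 𝕜)⁻¹‖ = (M : ℝ)⁻¹ := by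
    rw [norm_inv, RCLike.norm_natCast]
  have hV1 : ∀ x : X, ‖x‖ ≤ 1 → ‖V x - x‖ ≤ 1 / 2 := by
    intro x hx
    have h : V x - x = (M : 𝕜)⁻¹ • (∑ m ∈ Finset.range M, Φ m (T (ρ m x)) - (M : 𝕜) • x) := by
      rw [hVap, smul_sub, smul_smul, inv_mul_cancel₀ hMK, one_smul]
    rw [h, norm_smul, hMKn, inv_mul_le_iff₀ hMR]
    calc _ ≤ (M : ℝ) / 2 := key x hx
      _ = (M : ℝ) * (1 / 2) := by ring
  have hV2 : ‖(1 : X →L[𝕜] X) - V‖ ≤ 1 / 2 := by
    apply ContinuousLinearMap.opNorm_le_bound _ (by norm_num)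
    intro x
    by_cases hx0 : x = 0
    · simp [hx0]
    have hxn : 0 < ‖x‖ := norm_pos_iff.2 hx0
    have hxn' : ((‖x‖ : ℝ) : 𝕜) ≠ 0 := by exact_mod_cast hxn.ne'
    set y : X := ((‖x‖ : ℝ) : 𝕜)⁻¹ • x with hy
    have hyn : ‖y‖ ≤ 1 := by
      rw [hy, norm_smul, norm_inv, RCLike.norm_ofReal, abs_of_pos hxn, inv_mul_cancel₀ hxn.ne']
    have hxy : x = ((‖x‖ : ℝ) : 𝕜) • y := by
      rw [hy, smul_smul, mul_inv_cancel₀ hxn', one_smul]
    have h := hV1 y hyn
    have h2 : ((1 : X →L[𝕜] X) - V) x = ((‖x‖ : ℝ) : 𝕜) • (y - V y) := by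
      conv_lhs => rw [hxy]
      rw [map_smul]
      rfl
    rw [h2, norm_smul, RCLike.norm_ofReal, abs_of_pos hxn, norm_sub_rev]
    nlinarith
  have hV3 : ‖(1 : X →L[𝕜] X) - V‖ < 1 := lt_of_le_of_lt hV2 (by norm_num)
  set u := Units.oneSub ((1 : X →L[𝕜] X) - V) hV3 with hu
  have huv : (u : X →L[𝕜] X) = V := by
    rw [hu, Units.val_oneSub]
    abel
  set W : X →L[𝕜] X := ((u⁻¹ : (X →L[𝕜] X)ˣ) : X →L[𝕜] X) with hW
  have hWV : ∀ v, W (V v) = v := by
    intro v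
    have h : W * V = 1 := by
      rw [hW, ← huv]
      exact Units.inv_mul u
    have := congrArg (fun f : X →L[𝕜] X => f v) h
    simpa using this
  -- step 5
  refine ⟨W.comp ((M : 𝕜)⁻¹ • ∑ m ∈ Finset.range M, (Φ m).comp (diag11112 (T.comp (ρ m)))), ?_⟩
  intro x v hxv
  have hc : Memℓp (fun _ : ℕ => v) ⊤ := by
    apply memℓp_infty
    refine ⟨‖v‖, ?_⟩
    rintro _ ⟨n, rfl⟩
    exact le_rfl
  set c : lp (fun _ : ℕ => X) ⊤ := ⟨fun _ => v, hc⟩ with hcdef
  have hm : ∀ m, Φ m (diag11112 (T.comp (ρ m)) x) = Φ m (T (ρ m v)) := by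
    intro m
    have h1 : diag11112 (T.comp (ρ m)) c = T (ρ m v) := by
      ext n
      rw [diag11112_apply]
      rfl
    have h2 : Φ m (diag11112 (T.comp (ρ m)) (x - c)) = 0 := by
      apply hΦ0
      apply squeeze_zero_norm (a := fun n => ‖T.comp (ρ m)‖ * ‖x n - v‖)
      · intro n
        rw [diag11112_apply]
        calc ‖((T.comp (ρ m)) ((x - c : lp (fun _ : ℕ => X) ⊤) n)) n‖
            ≤ ‖(T.comp (ρ m)) ((x - c : lp (fun _ : ℕ => X) ⊤) n)‖ :=
              lp.norm_apply_le_norm (by simp) _ _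
          _ ≤ ‖T.comp (ρ m)‖ * ‖(x - c : lp (fun _ : ℕ => X) ⊤) n‖ :=
              ContinuousLinearMap.le_opNorm _ _
          _ = ‖T.comp (ρ m)‖ * ‖x n - v‖ := rfl
      · have h3 : Tendsto (fun n => ‖x n - v‖) atTop (𝓝 0) :=
          tendsto_iff_norm_sub_tendsto_zero.1 hxv
        simpa using h3.const_mul ‖T.comp (ρ m)‖
    rw [map_sub, map_sub, h1, sub_eq_zero] at h2
    exact h2
  have hfin : (W.comp ((M : 𝕜)⁻¹ • ∑ m ∈ Finset.range M,
      (Φ m).comp (diag11112 (T.comp (ρ m))))) x = W (V v) := by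
    rw [hVap]
    simp only [ContinuousLinearMap.comp_apply, ContinuousLinearMap.smul_apply,
      ContinuousLinearMap.sum_apply, hm]
  rw [hfin, hWV]

end Pool.Agent.Helper234.LInf
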