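import Mathlib

open MeasureTheory Filter Topology

namespace Pool.Agent.Helper234.LInf

universe u

/-- Lebesgue measure on the unit interval, as a measure on the reals. -/
noncomputable def I01 : Measure ℝ := (volume : Measure ℝ).restrict (Set.Icc (0 : ℝ) 1)

/-- `X` contains an isomorphic copy of the space of bounded scalar sequences. -/
def ContainsLinf (𝕜 : Type) [RCLike 𝕜] (X : Type u) [NormedAddCommGroup X] [NormedSpace 𝕜 X] :
    Prop :=
  ∃ V : lp (fun _ : ℕ => 𝕜) ⊤ →L[𝕜] X, ∃ c : ℝ, 0 < c ∧ ∀ y, c * ‖y‖ ≤ ‖V y‖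

/-- `X` contains an isomorphic copy of the space of null scalar sequences. -/
def ContainsC0 (𝕜 : Type) [RCLike 𝕜] (X : Type u) [NormedAddCommGroup X] [NormedSpace 𝕜 X] :
    Prop :=
  ∃ V : ZeroAtInftyContinuousMap ℕ 𝕜 →L[𝕜] X, ∃ c : ℝ, 0 < c ∧ ∀ y, c * ‖y‖ ≤ ‖V y‖

/-- The limit operator on convergent sequences of `X` extends to a bounded linear operator defined
on all bounded sequences. -/
def LimitOperator (𝕜 : Type) [RCLike 𝕜] (X : Type u) [NormedAddCommGroup X] [NormedSpace 𝕜 X] :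
    Prop :=
  ∃ Φ : lp (fun _ : ℕ => X) ⊤ →L[𝕜] X,
    ∀ (x : lp (fun _ : ℕ => X) ⊤) (v : X), Tendsto (fun n => x n) atTop (𝓝 v) → Φ x = v

/-- The operator `S` from integrable functions to `X` is represented by the bounded strongly
measurable function `f`. -/
def Represents (𝕜 : Type) [RCLike 𝕜] (X : Type u) [NormedAddCommGroup X] [NormedSpace 𝕜 X]
    (f : Lp X ⊤ I01) (S : Lp 𝕜 1 I01 →L[𝕜] X) : Prop :=
  ∀ (h : Lp 𝕜 1 I01) (ξ : X →L[𝕜] 𝕜), ξ (S h) = ∫ t, h t * ξ (f t) ∂I01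

/-- The representable operators form a complemented subspace of all operators. -/
def RepComplemented (𝕜 : Type) [RCLike 𝕜] (X : Type u) [NormedAddCommGroup X] [NormedSpace 𝕜 X] :
    Prop :=
  ∃ Q : (Lp 𝕜 1 I01 →L[𝕜] X) →L[𝕜] Lp X ⊤ I01,
    ∀ (f : Lp X ⊤ I01) (S : Lp 𝕜 1 I01 →L[𝕜] X), Represents 𝕜 X f S → Q S = f

/-- Radon-Nikodym property: Lipschitz maps from the reals are differentiable almost everywhere. -/
def RNP (𝕜 : Type) [RCLike 𝕜] (X : Type u) [NormedAddCommGroup X] [NormedSpace 𝕜 X] : Prop :=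
  ∀ F : ℝ → X, (∃ K, LipschitzWith K F) →
    ∀ᵐ t : ℝ, ∃ v : X, Tendsto (fun h : ℝ => ((h : 𝕜))⁻¹ • (F (t + h) - F t)) (𝓝[≠] 0) (𝓝 v)

/-- The two spaces of the question are isomorphic. -/
def Iso (𝕜 : Type) [RCLike 𝕜] (X : Type u) [NormedAddCommGroup X] [NormedSpace 𝕜 X] : Prop :=
  Nonempty (Lp X ⊤ I01 ≃L[𝕜] lp (fun _ : ℕ => X) ⊤)

end Pool.Agent.Helper234.LInf
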