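import Pool.Agent.Helper234.LInf.Show
import Pool.Agent.Helper234.LInf.Ops
import Pool.Agent.Helper234.LInfS.RNPRep

open MeasureTheory Filter Topology

namespace Pool.Agent.Helper234.LInf

open Pool.Agent.Helper234

universe u

section
variable (𝕜 : Type) [RCLike 𝕜] {X : Type u} [NormedAddCommGroup X] [NormedSpace 𝕜 X]
    [NormedSpace ℝ X] [IsScalarTower ℝ 𝕜 X]

theorem hasDer_iff (F : ℝ → X) (v : X) (t : ℝ) : Show.HasDer 𝕜 F v t ↔ HasDerivAt F v t := by
  rw [hasDerivAt_iff_tendsto_slope_zero]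
  unfold Show.HasDer
  refine tendsto_congr (fun h => ?_)
  rw [← RCLike.ofReal_inv]
  exact (RCLike.real_smul_eq_coe_smul (K := 𝕜) _ _).symm

/-- dyadic difference quotients -/
noncomputable def dq {X : Type u} [NormedAddCommGroup X] [NormedSpace ℝ X] (F : ℝ → X) (m : ℕ)
    (t : ℝ) : X :=
  (2 ^ m : ℝ) • (F (((⌊2 ^ m * t⌋₊ : ℝ) + 1) / 2 ^ m) - F ((⌊2 ^ m * t⌋₊ : ℝ) / 2 ^ m))

omit 𝕜 in
theorem dq_meas {X : Type u} [NormedAddCommGroup X] [NormedSpace ℝ X] (F : ℝ → X) (m : ℕ) :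
    StronglyMeasurable (dq F m) := by
  have h2 : StronglyMeasurable (fun k : ℕ => (2 ^ m : ℝ) •
      (F (((k : ℝ) + 1) / 2 ^ m) - F ((k : ℝ) / 2 ^ m))) := StronglyMeasurable.of_discrete
  exact h2.comp_measurable (g := fun t : ℝ => ⌊2 ^ m * t⌋₊)
      (Nat.measurable_floor.comp (measurable_const.mul measurable_id))

theorem dq_bound {X : Type u} [NormedAddCommGroup X] [NormedSpace ℝ X] (F : ℝ → X) (K : NNReal)
    (hF : LipschitzWith K F) (m : ℕ) (t : ℝ) : ‖dq F m t‖ ≤ K := by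
  unfold dq
  rw [norm_smul]
  have h1 := hF.dist_le_mul (((⌊2 ^ m * t⌋₊ : ℝ) + 1) / 2 ^ m) ((⌊2 ^ m * t⌋₊ : ℝ) / 2 ^ m)
  rw [dist_eq_norm, Real.dist_eq] at h1
  have h2 : |((⌊2 ^ m * t⌋₊ : ℝ) + 1) / 2 ^ m - (⌊2 ^ m * t⌋₊ : ℝ) / 2 ^ m| = (2 ^ m)⁻¹ := by
    rw [← sub_div, add_sub_cancel_left, one_div, abs_of_pos (by positivity)]
  rw [h2] at h1
  have h3 : ‖(2 ^ m : ℝ)‖ = 2 ^ m := by simp
  rw [h3]
  calc (2 : ℝ) ^ m * _ ≤ 2 ^ m * (K * (2 ^ m)⁻¹) := by gcongr
    _ = K := by field_simp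

theorem dq_memLp {X : Type u} [NormedAddCommGroup X] [NormedSpace ℝ X] (F : ℝ → X)
    (hF : Show.IsLip F) (m : ℕ) : MemLp (dq F m) ⊤ I01 := by
  obtain ⟨K, hK⟩ := hF
  exact MemLp.of_bound (dq_meas F m).aestronglyMeasurable K
    (Eventually.of_forall fun t => dq_bound F K hK m t)

/-- the bounded sequence of dyadic difference quotients -/
noncomputable def dqSeq {X : Type u} [NormedAddCommGroup X] [NormedSpace ℝ X] (F : ℝ → X)
    (hF : Show.IsLip F) : lp (fun _ : ℕ => Lp X ⊤ I01) ⊤ :=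
  ⟨fun m => (dq_memLp F hF m).toLp, memℓp_infty ⟨hF.choose, by
    rintro _ ⟨m, rfl⟩
    refine lp_norm_le (by positivity) ?_
    filter_upwards [(dq_memLp F hF m).coeFn_toLp] with t ht
    rw [ht]
    exact dq_bound F _ hF.choose_spec m t⟩⟩

theorem dqSeq_ae {X : Type u} [NormedAddCommGroup X] [NormedSpace ℝ X] (F : ℝ → X)
    (hF : Show.IsLip F) (m : ℕ) : ∀ᵐ t ∂I01, (dqSeq F hF m) t = dq F m t :=
  (dq_memLp F hF m).coeFn_toLp

theorem dqSeq_norm {X : Type u} [NormedAddCommGroup X] [NormedSpace ℝ X] (F : ℝ → X)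
    (hF : Show.IsLip F) (K : NNReal) (hK : LipschitzWith K F) : ‖dqSeq F hF‖ ≤ K := by
  refine lp.norm_le_of_forall_le (by positivity) (fun m => ?_)
  refine lp_norm_le (by positivity) ?_
  filter_upwards [dqSeq_ae F hF m] with t ht
  rw [ht]
  exact dq_bound F K hK m t

theorem isLip_add {X : Type u} [NormedAddCommGroup X] {F G : ℝ → X} (hF : Show.IsLip F)
    (hG : Show.IsLip G) : Show.IsLip (fun t => F t + G t) := by
  obtain ⟨K, hK⟩ := hF
  obtain ⟨K', hK'⟩ := hG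
  exact ⟨K + K', hK.add hK'⟩

omit [NormedSpace ℝ X] [IsScalarTower ℝ 𝕜 X] in
theorem isLip_smul (a : 𝕜) {F : ℝ → X} (hF : Show.IsLip F) :
    Show.IsLip (fun t => a • F t) := by
  obtain ⟨K, hK⟩ := hF
  refine ⟨‖a‖₊ * K, LipschitzWith.of_dist_le_mul fun s t => ?_⟩
  rw [dist_eq_norm, ← smul_sub, norm_smul, ← dist_eq_norm, NNReal.coe_mul, mul_assoc]
  exact mul_le_mul_of_nonneg_left (hK.dist_le_mul s t) (norm_nonneg _)

theorem der_of_psi
    (Ψ : lp (fun _ : ℕ => Lp X ⊤ I01) ⊤ →L[𝕜] Lp X ⊤ I01)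
    (hΨ : ∀ (g : lp (fun _ : ℕ => Lp X ⊤ I01) ⊤) (f : Lp X ⊤ I01),
        Tendsto (fun m : ℕ => ∫ t, ‖(g m) t - f t‖ ∂I01) atTop (𝓝 0) → Ψ g = f) :
    Show.DerivativeExtends 𝕜 X := by
  classical
  refine ⟨fun F => if h : Show.IsLip F then Ψ (dqSeq F h) else 0, ‖Ψ‖, ?_, ?_, ?_, ?_⟩
  · intro F G hF hG
    have hFG := isLip_add hF hG
    simp only [hF, hG, hFG, dite_true]
    rw [← map_add]
    congr 1
    apply lp.ext
    funext m
    apply Lp.ext
    have e1 : (dqSeq F hF + dqSeq G hG : lp (fun _ : ℕ => Lp X ⊤ I01) ⊤) m =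
      dqSeq F hF m + dqSeq G hG m := rfl
    rw [e1]
    filter_upwards [dqSeq_ae _ hFG m, dqSeq_ae F hF m, dqSeq_ae G hG m,
      Lp.coeFn_add (dqSeq F hF m) (dqSeq G hG m)] with t h1 h2 h3 h4
    rw [h1, h4, Pi.add_apply, h2, h3]
    unfold dq
    rw [← smul_add]
    congr 1
    exact add_sub_add_comm _ _ _ _
  · intro a F hF
    have haF := isLip_smul 𝕜 a hF
    simp only [hF, haF, dite_true]
    rw [← map_smul]
    congr 1
    apply lp.ext
    funext m
    apply Lp.ext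
    have e1 : (a • dqSeq F hF : lp (fun _ : ℕ => Lp X ⊤ I01) ⊤) m = a • dqSeq F hF m := rfl
    rw [e1]
    filter_upwards [dqSeq_ae _ haF m, dqSeq_ae F hF m,
      Lp.coeFn_smul a (dqSeq F hF m)] with t h1 h2 h4
    rw [h1, h4, Pi.smul_apply, h2]
    unfold dq
    rw [← smul_sub, smul_comm]
  · intro F K hK
    have hF : Show.IsLip F := ⟨K, hK⟩
    simp only [hF, dite_true]
    refine (Ψ.le_opNorm _).trans ?_
    exact mul_le_mul_of_nonneg_left (dqSeq_norm F hF K hK) (norm_nonneg _)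
  · intro F f hF hder
    simp only [hF, dite_true]
    apply hΨ
    obtain ⟨K, hK⟩ := hF
    have hF : Show.IsLip F := ⟨K, hK⟩
    have hae : ∀ᵐ t ∂I01, Tendsto (fun m => ‖(dqSeq F hF m) t - f t‖) atTop (𝓝 0) := by
      have h1 : ∀ᵐ t ∂I01, ∀ m, (dqSeq F hF m) t = dq F m t := ae_all_iff.2 fun m => dqSeq_ae F hF m
      filter_upwards [h1, hder, LInfS.I01_ae_mem] with t h1 h2 h3
      rw [hasDer_iff, hasDerivAt_iff_tendsto_slope_zero] at h2
      have h4 := LInfS.dyadic_quot F t h3.1 (f t) h2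
      have h5 : Tendsto (fun m => (dqSeq F hF m) t) atTop (𝓝 (f t)) := by
        refine h4.congr (fun m => ?_)
        rw [h1 m]
        rfl
      have h6 := (h5.sub_const (f t)).norm
      rwa [sub_self, norm_zero] at h6
    have hint : Tendsto (fun m => ∫ t, ‖(dqSeq F hF m) t - f t‖ ∂I01) atTop
        (𝓝 (∫ _t, (0 : ℝ) ∂I01)) := by
      apply tendsto_integral_of_dominated_convergence (fun _ => (K : ℝ) + ‖f‖)
      · intro m
        exact ((Lp.aestronglyMeasurable _).sub (Lp.aestronglyMeasurable f)).norm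
      · exact integrable_const _
      · intro m
        filter_upwards [lp_ae_le f, dqSeq_ae F hF m] with t ht h2
        rw [norm_norm, h2]
        refine (norm_sub_le _ _).trans ?_
        exact add_le_add (dq_bound F K hK m t) ht
      · exact hae
    rwa [integral_zero] at hint

theorem der_of_rnp [CompleteSpace X] (h : Show.RNP 𝕜 X) : Show.DerivativeExtends 𝕜 X := by
  classical
  have hmem : ∀ F : ℝ → X, Show.IsLip F → MemLp (fun t => deriv F t) ⊤ I01 := by
    rintro F ⟨K, hK⟩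
    refine MemLp.of_bound (stronglyMeasurable_deriv F).aestronglyMeasurable K ?_
    exact Eventually.of_forall fun t => norm_deriv_le_of_lipschitz hK
  have hd : ∀ F : ℝ → X, Show.IsLip F → ∀ᵐ t ∂I01, HasDerivAt F (deriv F t) t := by
    intro F hF
    have h1 : ∀ᵐ t ∂I01, ∃ v : X, Show.HasDer 𝕜 F v t := ae_restrict_of_ae (h F hF)
    filter_upwards [h1] with t ht
    obtain ⟨v, hv⟩ := ht
    rw [hasDer_iff] at hv
    exact hv.differentiableAt.hasDerivAt
  refine ⟨fun F => if hF : Show.IsLip F then (hmem F hF).toLp else 0, 1, ?_, ?_, ?_, ?_⟩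
  · intro F G hF hG
    have hFG := isLip_add hF hG
    simp only [hF, hG, hFG, dite_true]
    apply Lp.ext
    filter_upwards [(hmem _ hFG).coeFn_toLp, (hmem _ hF).coeFn_toLp, (hmem _ hG).coeFn_toLp,
      Lp.coeFn_add ((hmem _ hF).toLp) ((hmem _ hG).toLp), hd F hF, hd G hG] with t h1 h2 h3 h4 h5 h6
    rw [h1, h4, Pi.add_apply, h2, h3]
    exact (h5.add h6).deriv
  · intro a F hF
    have haF := isLip_smul 𝕜 a hF
    simp only [hF, haF, dite_true]
    apply Lp.ext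
    filter_upwards [(hmem _ haF).coeFn_toLp, (hmem _ hF).coeFn_toLp,
      Lp.coeFn_smul a ((hmem _ hF).toLp), hd F hF] with t h1 h2 h4 h5
    rw [h1, h4, Pi.smul_apply, h2]
    have h6 : HasDerivAt (fun t => a • F t) (a • deriv F t) t := by
      rw [← hasDer_iff 𝕜] at h5 ⊢
      unfold Show.HasDer at h5 ⊢
      refine (h5.const_smul a).congr (fun s => ?_)
      rw [← smul_sub, smul_comm]
    exact h6.deriv
  · intro F K hK
    have hF : Show.IsLip F := ⟨K, hK⟩
    simp only [hF, dite_true]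
    rw [one_mul]
    refine lp_norm_le (by positivity) ?_
    filter_upwards [(hmem _ hF).coeFn_toLp] with t ht
    rw [ht]
    exact norm_deriv_le_of_lipschitz hK
  · intro F f hF hder
    simp only [hF, dite_true]
    apply Lp.ext
    filter_upwards [(hmem _ hF).coeFn_toLp, hder] with t h1 h2
    rw [h1]
    rw [hasDer_iff] at h2
    exact h2.deriv


theorem hasDerivAt_of_represents [CompleteSpace X] (f : Lp X ⊤ I01) (S : Lp 𝕜 1 I01 →L[𝕜] X)
    (h : Represents 𝕜 X f S) :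
    ∀ᵐ t ∂I01, HasDerivAt (fun t : ℝ => S (LInfS.ind 𝕜 (Set.Iio t) measurableSet_Iio)) (f t) t := by
  have hfi : Integrable (fun t => f t) I01 := LInfS.Lp_top_integrable f
  set g : ℝ → X := (Set.Icc (0 : ℝ) 1).indicator (fun t => f t) with hg
  have hgi : Integrable g volume := by
    rw [hg, integrable_indicator_iff measurableSet_Icc]
    exact hfi
  have h1 := LocallyIntegrable.ae_hasDerivAt_integral hgi.locallyIntegrable
  have h2 : ∀ᵐ t ∂I01, ∀ c, HasDerivAt (fun x => ∫ s in c..x, g s) (g t) t := ae_restrict_of_ae h1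
  have h0 : ∀ᵐ t ∂I01, t ≠ (0 : ℝ) := by
    refine ae_restrict_of_ae ?_
    rw [ae_iff]
    simp
  filter_upwards [h2, LInfS.I01_ae_mem, h0] with t ht hmem hne
  have htpos : 0 < t := lt_of_le_of_ne hmem.1 (Ne.symm hne)
  have hgt : g t = f t := by
    rw [hg]
    exact Set.indicator_of_mem (show t ∈ Set.Icc (0 : ℝ) 1 from ⟨hmem.1, hmem.2.le⟩) _
  rw [← hgt]
  refine (ht 0).congr_of_eventuallyEq ?_
  filter_upwards [lt_mem_nhds htpos] with x hx
  rw [LInfS.represents_ind f S h, intervalIntegral.integral_of_le hx.le]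
  have e1 : ∫ s in Set.Iio x, f s ∂I01 = ∫ s in Set.Iio x, g s := by
    have e0 : I01.restrict (Set.Iio x) =
        (volume : Measure ℝ).restrict (Set.Iio x ∩ Set.Icc (0 : ℝ) 1) :=
      Measure.restrict_restrict measurableSet_Iio
    rw [e0, hg, setIntegral_indicator measurableSet_Icc]
  rw [e1, ← integral_Iic_eq_integral_Iio, ← integral_indicator measurableSet_Iic,
    ← integral_indicator measurableSet_Ioc]
  refine integral_congr_ae ?_
  have h00 : ∀ᵐ s : ℝ, s ≠ 0 := by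
    rw [ae_iff]
    simp
  filter_upwards [h00] with s hs
  by_cases h3 : s ≤ x
  · by_cases h4 : 0 < s
    · rw [Set.indicator_of_mem (show s ∈ Set.Iic x from h3),
        Set.indicator_of_mem (show s ∈ Set.Ioc 0 x from ⟨h4, h3⟩)]
    · rw [Set.indicator_of_mem (show s ∈ Set.Iic x from h3),
        Set.indicator_of_notMem (fun h : s ∈ Set.Ioc 0 x => h4 h.1), hg,
        Set.indicator_of_notMem (fun h : s ∈ Set.Icc (0 : ℝ) 1 =>
          h4 (lt_of_le_of_ne h.1 (Ne.symm hs)))]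
  · rw [Set.indicator_of_notMem (fun h : s ∈ Set.Iic x => h3 h),
      Set.indicator_of_notMem (fun h : s ∈ Set.Ioc 0 x => h3 h.2)]

theorem rep_of_der [CompleteSpace X] (h : Show.DerivativeExtends 𝕜 X) : RepComplemented 𝕜 X := by
  obtain ⟨D, C, hadd, hsmul, hbd, hder⟩ := h
  have hlip : ∀ S : Lp 𝕜 1 I01 →L[𝕜] X, LipschitzWith ‖S‖₊
      (fun t : ℝ => S (LInfS.ind 𝕜 (Set.Iio t) measurableSet_Iio)) := fun S => LInfS.lipschitz_ind S
  let L : (Lp 𝕜 1 I01 →L[𝕜] X) →ₗ[𝕜] Lp X ⊤ I01 :=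
    { toFun := fun S => D (fun t : ℝ => S (LInfS.ind 𝕜 (Set.Iio t) measurableSet_Iio))
      map_add' := fun S S' => by
        rw [← hadd _ _ ⟨_, hlip S⟩ ⟨_, hlip S'⟩]
        rfl
      map_smul' := fun a S => by
        rw [RingHom.id_apply, ← hsmul _ _ ⟨_, hlip S⟩]
        rfl }
  refine ⟨L.mkContinuous C (fun S => hbd _ _ (hlip S)), fun f S hfS => ?_⟩
  refine hder _ f ⟨_, hlip S⟩ ?_
  filter_upwards [hasDerivAt_of_represents 𝕜 f S hfS] with t ht
  rwa [hasDer_iff]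

end

end Pool.Agent.Helper234.LInf
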