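import Pool.Agent.Helper234.LInf.Ops

open MeasureTheory Filter Topology

namespace Pool.Agent.Helper234.LInf

universe u

theorem radA_11472 (m : ℕ) (u : ℝ) : rad (m + 1) (u / 2) = rad m u := by
  have h1 : (2 : ℝ) ^ (m + 1 + 1) * (u / 2) = 2 ^ (m + 1) * u := by
    rw [pow_succ (2 : ℝ) (m + 1)]; ring
  unfold rad
  rw [h1]

theorem radB_11472 (m : ℕ) (u : ℝ) : rad (m + 1) (u / 2 + 1 / 2) = rad m u := by
  have h1 : (2 : ℝ) ^ (m + 1 + 1) * (u / 2 + 1 / 2) = 2 ^ (m + 1) * u + ((2 ^ (m + 1) : ℤ) : ℝ) := by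
    rw [pow_succ (2 : ℝ) (m + 1)]; push_cast; ring
  have h2 : Even ((2 : ℤ) ^ (m + 1)) := by
    rw [Int.even_pow]; exact ⟨by decide, Nat.succ_ne_zero m⟩
  unfold rad
  rw [h1, Int.floor_add_intCast]
  by_cases h3 : Even ⌊(2 : ℝ) ^ (m + 1) * u⌋
  · rw [if_pos h3, if_pos (h3.add h2)]
  · rw [if_neg h3, if_neg (fun h4 => h3 ((Int.even_add.mp h4).mpr h2))]

theorem radC_11472 (u : ℝ) : rad 0 (u / 2 + 1 / 2) = - rad 0 (u / 2) := by
  have h1 : (2 : ℝ) ^ (0 + 1) * (u / 2) = u := by ring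
  have h2 : (2 : ℝ) ^ (0 + 1) * (u / 2 + 1 / 2) = u + 1 := by ring
  unfold rad
  rw [h1, h2, Int.floor_add_one]
  by_cases h3 : Even ⌊u⌋
  · rw [if_pos h3, if_neg (fun h4 => (Int.even_add_one.mp h4) h3)]
  · rw [if_neg h3, if_pos (Int.even_add_one.mpr h3)]
    norm_num

theorem radInt_11472 (m l : ℕ) (a b : ℝ) :
    IntervalIntegrable (fun t => rad m t * rad l t) volume a b := by
  have h1 : Measurable fun t => rad m t * rad l t := (measurable_rad m).mul (measurable_rad l)
  rw [intervalIntegrable_iff]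
  refine Measure.integrableOn_of_bounded (M := 1) ?_ h1.aestronglyMeasurable ?_
  · exact measure_Ioc_lt_top.ne
  · refine Eventually.of_forall fun t => ?_
    rw [Real.norm_eq_abs, abs_mul]
    exact mul_le_one₀ (abs_rad m t) (abs_nonneg _) (abs_rad l t)

theorem split_11472 (m l : ℕ) : ∫ t in (0 : ℝ)..1, rad m t * rad l t =
    (1 / 2) * ((∫ u in (0 : ℝ)..1, rad m (u / 2) * rad l (u / 2)) +
      ∫ u in (0 : ℝ)..1, rad m (u / 2 + 1 / 2) * rad l (u / 2 + 1 / 2)) := by
  have h1 := intervalIntegral.integral_comp_div (a := 0) (b := 1)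
    (fun t => rad m t * rad l t) (two_ne_zero' ℝ)
  have h2 := intervalIntegral.integral_comp_div_add (a := 0) (b := 1)
    (fun t => rad m t * rad l t) (two_ne_zero' ℝ) (1 / 2)
  rw [h1, h2, ← intervalIntegral.integral_add_adjacent_intervals (b := 1 / 2)
    (radInt_11472 m l 0 (1 / 2)) (radInt_11472 m l (1 / 2) 1)]
  have e1 : (0 : ℝ) / 2 = 0 := by norm_num
  have e2 : (0 : ℝ) / 2 + 1 / 2 = 1 / 2 := by norm_num
  have e3 : (1 : ℝ) / 2 + 1 / 2 = 1 := by norm_num
  rw [e1, zero_add, e3, smul_eq_mul, smul_eq_mul]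
  ring

theorem orth_11472 (m : ℕ) : ∀ k : ℕ, ∫ t in (0 : ℝ)..1, rad m t * rad (m + k + 1) t = 0 := by
  induction m with
  | zero =>
    intro k
    rw [split_11472]
    simp only [radC_11472, Nat.zero_add, radA_11472, radB_11472, neg_mul,
      intervalIntegral.integral_neg, add_neg_cancel, mul_zero]
  | succ m ih =>
    intro k
    have h1 : m + 1 + k + 1 = (m + k + 1) + 1 := by omega
    rw [h1, split_11472]
    simp only [radA_11472, radB_11472]
    rw [ih k]
    norm_num

theorem rad_orth (m l : ℕ) (h : m ≠ l) : ∫ t, rad m t * rad l t ∂I01 = 0 := by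
  have key : ∀ a b : ℕ, a < b → ∫ t, rad a t * rad b t ∂I01 = 0 := by
    intro a b hab
    obtain ⟨k, rfl⟩ : ∃ k, b = a + k + 1 := ⟨b - a - 1, by omega⟩
    unfold I01
    rw [integral_Icc_eq_integral_Ioc, ← intervalIntegral.integral_of_le zero_le_one]
    exact orth_11472 a k
  rcases lt_or_gt_of_ne h with h1 | h1
  · exact key m l h1
  · have h2 := key l m h1
    rw [← h2]
    exact integral_congr_ae (Eventually.of_forall fun t => mul_comm _ _)

theorem rn_memLp (m : ℕ) : MemLp (rad m) 2 I01 :=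
  MemLp.of_bound (measurable_rad m).aestronglyMeasurable 1
    (Eventually.of_forall fun t => by rw [Real.norm_eq_abs]; exact abs_rad m t)

theorem rn_bessel {B : Set ℝ} (hB : MeasurableSet B) :
    Tendsto (fun m : ℕ => ∫ t, rad m t * B.indicator (fun _ => (1 : ℝ)) t ∂I01) atTop (𝓝 0) := by
  have horth : Orthonormal ℝ (fun m : ℕ => (rn_memLp m).toLp) := by
    rw [orthonormal_iff_ite]
    intro i j
    rw [L2.inner_def]
    have h1 : ∫ t, inner ℝ ((rn_memLp i).toLp (rad i) t) ((rn_memLp j).toLp (rad j) t) ∂I01 =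
        ∫ t, rad i t * rad j t ∂I01 := by
      refine integral_congr_ae ?_
      filter_upwards [MemLp.coeFn_toLp (rn_memLp i), MemLp.coeFn_toLp (rn_memLp j)] with t h2 h3
      rw [h2, h3, real_inner_eq_re_inner, RCLike.inner_apply]
      simp [mul_comm]
    rw [h1]
    split_ifs with h
    · subst h
      simp only [rad_sq]
      simp
    · exact rad_orth i j h
  have hx : MemLp (B.indicator (fun _ => (1 : ℝ))) 2 I01 :=
    (memLp_const (1 : ℝ)).indicator hB
  have hsum := (horth.inner_products_summable (hx.toLp)).tendsto_atTop_zero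
  have h4 : ∀ m : ℕ, inner ℝ ((rn_memLp m).toLp (rad m)) (hx.toLp) =
      ∫ t, rad m t * B.indicator (fun _ => (1 : ℝ)) t ∂I01 := by
    intro m
    rw [L2.inner_def]
    refine integral_congr_ae ?_
    filter_upwards [MemLp.coeFn_toLp (rn_memLp m), MemLp.coeFn_toLp hx] with t h2 h3
    rw [h2, h3, real_inner_eq_re_inner, RCLike.inner_apply]
    simp [mul_comm]
  simp only [h4] at hsum
  have h5 := (Real.continuous_sqrt.tendsto 0).comp hsum
  rw [Real.sqrt_zero] at h5
  rw [tendsto_zero_iff_norm_tendsto_zero]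
  refine h5.congr fun m => ?_
  rw [Function.comp_apply, Real.sqrt_sq (norm_nonneg _)]

section rn
variable {X : Type u} [NormedAddCommGroup X] [NormedSpace ℝ X] [CompleteSpace X]

omit [CompleteSpace X] in
theorem rn_integrable {f : ℝ → X} (hf : Integrable f I01) (m : ℕ) :
    Integrable (fun t => rad m t • f t) I01 := by
  refine hf.mono ((measurable_rad m).aestronglyMeasurable.smul hf.1)
    (Eventually.of_forall fun t => ?_)
  rw [norm_smul, Real.norm_eq_abs]
  exact mul_le_of_le_one_left (norm_nonneg _) (abs_rad m t)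

theorem rn_main {f : ℝ → X} (hf : Integrable f I01) :
    Tendsto (fun m : ℕ => ∫ t, rad m t • f t ∂I01) atTop (𝓝 0) := by
  refine Integrable.induction
    (P := fun f : ℝ → X => Tendsto (fun m : ℕ => ∫ t, rad m t • f t ∂I01) atTop (𝓝 0))
    ?_ ?_ ?_ ?_ hf
  · intro c s hs _
    have h1 : ∀ m : ℕ, ∫ t, rad m t • s.indicator (fun _ => c) t ∂I01 =
        (∫ t, rad m t * s.indicator (fun _ => (1 : ℝ)) t ∂I01) • c := by
      intro m
      rw [← integral_smul_const]
      refine integral_congr_ae (Eventually.of_forall fun t => ?_)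
      by_cases ht : t ∈ s <;> simp [ht]
    simp only [h1]
    have h2 := (rn_bessel hs).smul_const c
    rwa [zero_smul] at h2
  · intro f g _ hf hg h1 h2
    have h3 := h1.add h2
    rw [add_zero] at h3
    refine h3.congr fun m => ?_
    rw [← integral_add (rn_integrable hf m) (rn_integrable hg m)]
    refine integral_congr_ae (Eventually.of_forall fun t => ?_)
    simp only [Pi.add_apply, smul_add]
  · refine isClosed_of_closure_subset fun f hf => ?_
    rw [Set.mem_ofPred_eq, Metric.tendsto_atTop]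
    intro ε hε
    obtain ⟨g, hg, hfg⟩ := Metric.mem_closure_iff.1 hf (ε / 2) (by positivity)
    obtain ⟨N, hN⟩ := Metric.tendsto_atTop.1 hg (ε / 2) (by positivity)
    refine ⟨N, fun m hm => ?_⟩
    have h1 := hN m hm
    rw [dist_zero_right] at h1 ⊢
    have hfi : Integrable f I01 := L1.integrable_coeFn f
    have hgi : Integrable g I01 := L1.integrable_coeFn g
    have h2 : ‖(∫ t, rad m t • f t ∂I01) - ∫ t, rad m t • g t ∂I01‖ ≤ dist f g := by
      rw [← integral_sub (rn_integrable hfi m) (rn_integrable hgi m), dist_eq_norm,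
        L1.norm_eq_integral_norm]
      refine (norm_integral_le_integral_norm _).trans ?_
      refine integral_mono_ae ?_ (L1.integrable_coeFn (f - g)).norm ?_
      · exact ((rn_integrable hfi m).sub (rn_integrable hgi m)).norm
      · filter_upwards [Lp.coeFn_sub f g] with t ht
        rw [ht, Pi.sub_apply, ← smul_sub, norm_smul, Real.norm_eq_abs]
        exact mul_le_of_le_one_left (norm_nonneg _) (abs_rad m t)
    have h3 : (∫ t, rad m t • f t ∂I01) = ((∫ t, rad m t • f t ∂I01) - ∫ t, rad m t • g t ∂I01) +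
        ∫ t, rad m t • g t ∂I01 := by abel
    calc ‖∫ t, rad m t • f t ∂I01‖ ≤ ‖(∫ t, rad m t • f t ∂I01) - ∫ t, rad m t • g t ∂I01‖ +
          ‖∫ t, rad m t • g t ∂I01‖ := by
            conv_lhs => rw [h3]
            exact norm_add_le _ _
      _ < ε := by linarith
  · intro f g hfg _ h1
    refine h1.congr fun m => integral_congr_ae ?_
    filter_upwards [hfg] with t ht
    rw [ht]

end rn

theorem rad_null (𝕜 : Type) [RCLike 𝕜] {X : Type u} [NormedAddCommGroup X] [NormedSpace 𝕜 X]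
    [NormedSpace ℝ X] [IsScalarTower ℝ 𝕜 X] [CompleteSpace X] (f : Lp X ⊤ I01) :
    Tendsto (fun m : ℕ => (intOp 𝕜 : Lp X ⊤ I01 →L[𝕜] X)
      (mulOp 𝕜 (rad m) (measurable_rad m) (abs_rad m) f)) atTop (𝓝 0) := by
  have hf : Integrable f I01 :=
    memLp_one_iff_integrable.mp ((Lp.memLp f).mono_exponent le_top)
  refine (rn_main hf).congr fun m => ?_
  rw [intOp_apply]
  refine integral_congr_ae ?_
  filter_upwards [mulOp_ae 𝕜 (rad m) (measurable_rad m) (abs_rad m) f] with t ht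
  rw [ht, RCLike.real_smul_eq_coe_smul (K := 𝕜)]

theorem ae_sum_tens (𝕜 : Type) [RCLike 𝕜] {X : Type u} [NormedAddCommGroup X] [NormedSpace 𝕜 X]
    (M : ℕ) (x : X) (σ : ℕ → 𝕜) :
    ∀ᵐ t ∂I01, (∑ i ∈ Finset.range M, σ i • (tens 𝕜 (rad i) (measurable_rad i) (abs_rad i) x) :
      Lp X ⊤ I01) t = (∑ i ∈ Finset.range M, σ i * ((rad i t : ℝ) : 𝕜)) • x := by
  induction M with
  | zero =>
    simp only [Finset.range_zero, Finset.sum_empty, zero_smul]
    exact Lp.coeFn_zero X ⊤ I01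
  | succ M ih =>
    rw [Finset.sum_range_succ]
    filter_upwards [ih, Lp.coeFn_add (∑ i ∈ Finset.range M, σ i • (tens 𝕜 (rad i) (measurable_rad i) (abs_rad i) x) :
      Lp X ⊤ I01) (σ M • (tens 𝕜 (rad M) (measurable_rad M) (abs_rad M) x)),
      Lp.coeFn_smul (σ M) (tens 𝕜 (rad M) (measurable_rad M) (abs_rad M) x),
      tens_ae 𝕜 (rad M) (measurable_rad M) (abs_rad M) x] with t h1 h2 h3 h4
    rw [h2, Pi.add_apply, h1, h3, Pi.smul_apply, h4, Finset.sum_range_succ, add_smul, mul_smul]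

theorem int_rad_mul (i j : ℕ) : ∫ t, rad i t * rad j t ∂I01 = if i = j then 1 else 0 := by
  split_ifs with h
  · subst h
    simp [rad_sq]
  · exact rad_orth i j h

theorem integrable_radsum (M : ℕ) (s : ℕ → ℝ) :
    Integrable (fun t => ∑ i ∈ Finset.range M, s i * rad i t) I01 := by
  refine integrable_finset_sum _ fun i _ => ?_
  refine Integrable.const_mul ?_ _
  refine Integrable.mono' (integrable_const (1 : ℝ)) (measurable_rad i).aestronglyMeasurable ?_
  exact Eventually.of_forall fun t => by simpa using abs_rad i t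

theorem int_radsum_sq (M : ℕ) (s : ℕ → ℝ) (hs : ∀ i, s i * s i = 1) :
    ∫ t, (∑ i ∈ Finset.range M, s i * rad i t) ^ 2 ∂I01 = M := by
  have h1 : ∀ t, (∑ i ∈ Finset.range M, s i * rad i t) ^ 2
      = ∑ i ∈ Finset.range M, ∑ j ∈ Finset.range M, (s i * s j) * (rad i t * rad j t) := by
    intro t
    rw [sq, Finset.sum_mul_sum]
    refine Finset.sum_congr rfl fun i _ => Finset.sum_congr rfl fun j _ => by ring
  simp_rw [h1]
  have hint : ∀ i j, Integrable (fun t => (s i * s j) * (rad i t * rad j t)) I01 := by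
    intro i j
    refine Integrable.const_mul ?_ _
    refine Integrable.mono' (integrable_const (1 : ℝ))
      ((measurable_rad i).mul (measurable_rad j)).aestronglyMeasurable ?_
    refine Eventually.of_forall fun t => ?_
    rw [Real.norm_eq_abs, abs_mul]
    exact mul_le_one₀ (abs_rad i t) (abs_nonneg _) (abs_rad j t)
  rw [integral_finset_sum _ fun i _ => integrable_finset_sum _ fun j _ => hint i j]
  have h2 : ∀ i ∈ Finset.range M,
      ∫ t, ∑ j ∈ Finset.range M, (s i * s j) * (rad i t * rad j t) ∂I01 = 1 := by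
    intro i hi
    rw [integral_finset_sum _ fun j _ => hint i j]
    simp_rw [integral_const_mul, int_rad_mul]
    rw [Finset.sum_eq_single i]
    · simp [hs]
    · intro j _ hj
      rw [if_neg (Ne.symm hj), mul_zero]
    · intro h; exact absurd hi h
  rw [Finset.sum_congr rfl h2]
  simp

theorem int_abs_radsum (M : ℕ) (s : ℕ → ℝ) (hs : ∀ i, s i * s i = 1) :
    ∫ t, |∑ i ∈ Finset.range M, s i * rad i t| ∂I01 ≤ Real.sqrt M := by
  set G : ℝ → ℝ := fun t => ∑ i ∈ Finset.range M, s i * rad i t with hG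
  have hGi : Integrable G I01 := integrable_radsum M s
  have hGb : ∀ t, |G t| ≤ M := by
    intro t
    refine (Finset.abs_sum_le_sum_abs _ _).trans ?_
    have : ∀ i ∈ Finset.range M, |s i * rad i t| ≤ 1 := by
      intro i _
      have h1 : |s i| ≤ 1 := by
        have : |s i| ^ 2 = 1 := by rw [sq_abs, sq, hs]
        nlinarith [abs_nonneg (s i)]
      rw [abs_mul]
      exact mul_le_one₀ h1 (abs_nonneg _) (abs_rad i t)
    refine (Finset.sum_le_sum this).trans ?_
    simp
  have hG2 : Integrable (fun t => G t ^ 2) I01 := by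
    refine Integrable.mono' (integrable_const ((M : ℝ) ^ 2)) (hGi.aestronglyMeasurable.pow 2) ?_
    refine Eventually.of_forall fun t => ?_
    rw [Real.norm_eq_abs, abs_pow]
    exact pow_le_pow_left₀ (abs_nonneg _) (hGb t) 2
  set a : ℝ := ∫ t, |G t| ∂I01 with ha
  have h0 : 0 ≤ ∫ t, (|G t| - a) ^ 2 ∂I01 := integral_nonneg fun t => sq_nonneg _
  have h1 : ∫ t, (|G t| - a) ^ 2 ∂I01 = M - a ^ 2 := by
    have h2 : ∀ t, (|G t| - a) ^ 2 = (G t ^ 2 - (2 * a) * |G t|) + a ^ 2 := by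
      intro t
      rw [sub_sq, sq_abs]; ring
    have hG3 : Integrable (fun t => (2 * a) * |G t|) I01 := hGi.abs.const_mul _
    have hG4 : Integrable (fun t => G t ^ 2 - (2 * a) * |G t|) I01 := hG2.sub hG3
    have e1 : ∫ t, G t ^ 2 ∂I01 = M := int_radsum_sq M s hs
    have e2 : ∫ t, (2 * a) * |G t| ∂I01 = (2 * a) * a := by
      rw [integral_const_mul, ← ha]
    have e3 : ∫ t, (G t ^ 2 - (2 * a) * |G t|) ∂I01 = M - (2 * a) * a := by
      rw [integral_sub hG2 hG3, e1, e2]
    simp_rw [h2]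
    rw [integral_add hG4 (integrable_const _), e3]
    simp
    ring
  apply Real.le_sqrt_of_sq_le
  linarith [h0, h1]

theorem rad_l1 (𝕜 : Type) [RCLike 𝕜] {X : Type u} [NormedAddCommGroup X] [NormedSpace 𝕜 X]
    (M : ℕ) (x : X) (hx : ‖x‖ ≤ 1) (σ : ℕ → 𝕜) (hσ : ∀ i, σ i = 1 ∨ σ i = -1) :
    ∫ t, ‖(∑ i ∈ Finset.range M, σ i • (tens 𝕜 (rad i) (measurable_rad i) (abs_rad i) x) :
      Lp X ⊤ I01) t‖ ∂I01 ≤ Real.sqrt M := by
  have hex : ∀ i, ∃ r : ℝ, σ i = (r : 𝕜) ∧ r * r = 1 := by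
    intro i
    rcases hσ i with h | h
    · exact ⟨1, by simp [h], by norm_num⟩
    · exact ⟨-1, by simp [h], by norm_num⟩
  choose s hs1 hs2 using hex
  refine le_trans ?_ (int_abs_radsum M s hs2)
  refine integral_mono_of_nonneg (Eventually.of_forall fun t => norm_nonneg _)
    (integrable_radsum M s).abs ?_
  filter_upwards [ae_sum_tens 𝕜 M x σ] with t ht
  rw [ht, norm_smul]
  have h3 : (∑ i ∈ Finset.range M, σ i * ((rad i t : ℝ) : 𝕜))
      = ((∑ i ∈ Finset.range M, s i * rad i t : ℝ) : 𝕜) := by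
    rw [RCLike.ofReal_sum]
    refine Finset.sum_congr rfl fun i _ => ?_
    rw [hs1 i, RCLike.ofReal_mul]
  rw [h3, RCLike.norm_ofReal]
  exact mul_le_of_le_one_right (abs_nonneg _) hx

theorem lp_sum_ae {X : Type u} [NormedAddCommGroup X] (M : ℕ) (G : ℕ → Lp X ⊤ I01) :
    ∀ᵐ t ∂I01, (∑ i ∈ Finset.range M, G i : Lp X ⊤ I01) t = ∑ i ∈ Finset.range M, G i t := by
  induction M with
  | zero =>
    simp only [Finset.range_zero, Finset.sum_empty]
    filter_upwards [Lp.coeFn_zero X ⊤ I01] with t ht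
    rw [ht]; rfl
  | succ n ih =>
    rw [Finset.sum_range_succ]
    filter_upwards [ih, Lp.coeFn_add (∑ i ∈ Finset.range n, G i) (G n)] with t h1 h2
    rw [h2, Pi.add_apply, h1, Finset.sum_range_succ]

theorem sign_choice (𝕜 : Type) [RCLike 𝕜] {X : Type u} [NormedAddCommGroup X] [NormedSpace 𝕜 X]
    [NormedSpace ℝ X] [IsScalarTower ℝ 𝕜 X] [CompleteSpace X] (M : ℕ) (g : ℕ → Lp X ⊤ I01) (K : ℝ)
    (h : ∀ σ : ℕ → 𝕜, (∀ i, σ i = 1 ∨ σ i = -1) → ‖∑ i ∈ Finset.range M, σ i • g i‖ ≤ K) :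
    ‖∑ i ∈ Finset.range M, (intOp 𝕜 : Lp X ⊤ I01 →L[𝕜] X)
      (mulOp 𝕜 (rad i) (measurable_rad i) (abs_rad i) (g i))‖ ≤ K := by
  classical
  have hK : 0 ≤ K := (norm_nonneg _).trans (h (fun _ => 1) (fun _ => Or.inl rfl))
  let S : (Fin M → Bool) → ℕ → 𝕜 := fun τ i =>
    if hi : i < M then (if τ ⟨i, hi⟩ then 1 else -1) else 1
  have hS : ∀ τ i, S τ i = 1 ∨ S τ i = -1 := by
    intro τ i
    change (if hi : i < M then (if τ ⟨i, hi⟩ then (1 : 𝕜) else -1) else 1) = 1 ∨
      (if hi : i < M then (if τ ⟨i, hi⟩ then (1 : 𝕜) else -1) else 1) = -1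
    split_ifs <;> simp
  have hae : ∀ τ : Fin M → Bool, ∀ᵐ t ∂I01, ‖∑ i ∈ Finset.range M, S τ i • g i t‖ ≤ K := by
    intro τ
    have h1 : ∀ᵐ t ∂I01, ∀ i : ℕ, (S τ i • g i : Lp X ⊤ I01) t = S τ i • g i t := by
      rw [ae_all_iff]
      intro i
      filter_upwards [Lp.coeFn_smul (S τ i) (g i)] with t ht
      rw [ht]; rfl
    filter_upwards [h1, lp_sum_ae M (fun i => S τ i • g i),
      lp_ae_le (∑ i ∈ Finset.range M, S τ i • g i)] with t ht1 ht2 ht3
    rw [ht2] at ht3
    simp only [ht1] at ht3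
    exact ht3.trans (h _ (hS τ))
  rw [← ae_all_iff] at hae
  rw [← map_sum]
  refine (ContinuousLinearMap.le_opNorm _ _).trans ?_
  have hF : ‖∑ i ∈ Finset.range M, mulOp 𝕜 (rad i) (measurable_rad i) (abs_rad i) (g i)‖ ≤ K := by
    refine lp_norm_le hK ?_
    have h2 : ∀ᵐ t ∂I01, ∀ i : ℕ,
        mulOp 𝕜 (rad i) (measurable_rad i) (abs_rad i) (g i) t = ((rad i t : ℝ) : 𝕜) • g i t := by
      rw [ae_all_iff]
      intro i
      exact mulOp_ae 𝕜 (rad i) (measurable_rad i) (abs_rad i) (g i)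
    filter_upwards [hae, h2,
      lp_sum_ae M (fun i => mulOp 𝕜 (rad i) (measurable_rad i) (abs_rad i) (g i))] with t ht1 ht2 ht3
    rw [ht3]
    simp only [ht2]
    have h4 := ht1 (fun i => decide (rad i t = 1))
    have h5 : ∑ i ∈ Finset.range M, ((rad i t : ℝ) : 𝕜) • g i t =
        ∑ i ∈ Finset.range M, S (fun i => decide (rad i t = 1)) i • g i t := by
      refine Finset.sum_congr rfl fun i hi => ?_
      rw [Finset.mem_range] at hi
      have h6 : S (fun i => decide (rad i t = 1)) i = ((rad i t : ℝ) : 𝕜) := by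
        change (if hi : i < M then (if decide (rad i t = 1) then (1 : 𝕜) else -1) else 1) = _
        rw [dif_pos hi]
        rcases rad_or i t with h7 | h7
        · rw [h7]; simp
        · rw [h7]
          have : ¬ ((-1 : ℝ) = 1) := by norm_num
          simp [this]
      rw [h6]
    rw [h5]
    exact h4
  calc ‖(intOp 𝕜 : Lp X ⊤ I01 →L[𝕜] X)‖ *
      ‖∑ i ∈ Finset.range M, mulOp 𝕜 (rad i) (measurable_rad i) (abs_rad i) (g i)‖ ≤ 1 * K := by
        gcongr
        exact intOp_norm 𝕜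
    _ = K := one_mul K

theorem kappa_rho (𝕜 : Type) [RCLike 𝕜] {X : Type u} [NormedAddCommGroup X] [NormedSpace 𝕜 X]
    [NormedSpace ℝ X] [IsScalarTower ℝ 𝕜 X] [CompleteSpace X] (m : ℕ) (x : X) :
    (intOp 𝕜 : Lp X ⊤ I01 →L[𝕜] X)
      (mulOp 𝕜 (rad m) (measurable_rad m) (abs_rad m)
        (tens 𝕜 (rad m) (measurable_rad m) (abs_rad m) x)) = x := by
  rw [intOp_apply]
  have h : ∀ᵐ t ∂I01, mulOp 𝕜 (rad m) (measurable_rad m) (abs_rad m)
        (tens 𝕜 (rad m) (measurable_rad m) (abs_rad m) x) t = x := by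
    filter_upwards [mulOp_ae 𝕜 (rad m) (measurable_rad m) (abs_rad m)
        (tens 𝕜 (rad m) (measurable_rad m) (abs_rad m) x),
      tens_ae 𝕜 (rad m) (measurable_rad m) (abs_rad m) x] with t h1 h2
    rw [h1, h2, smul_smul, ← RCLike.ofReal_mul, rad_sq]
    simp
  rw [integral_congr_ae h]
  simp

end Pool.Agent.Helper234.LInf
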