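import Pool.Agent.Helper234.LInf.Ops

open MeasureTheory Filter Topology

namespace Pool.Agent.Helper234.LInf

universe u

/-- dyadic interval -/
def dyad (m k : ℕ) : Set ℝ := Set.Ico ((k : ℝ) / 2 ^ m) (((k : ℝ) + 1) / 2 ^ m)

theorem measurableSet_dyad (m k : ℕ) : MeasurableSet (dyad m k) := measurableSet_Ico

/-- index of the dyadic interval of level `m` containing `t` -/
noncomputable def idx (m : ℕ) (t : ℝ) : ℕ := ⌊(2 : ℝ) ^ m * t⌋₊

theorem dyadic_ae {X : Type u} [NormedAddCommGroup X] [NormedSpace ℝ X] [CompleteSpace X]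
    (f : Lp X ⊤ I01) :
    ∀ᵐ t ∂I01, Tendsto (fun m : ℕ => (2 : ℝ) ^ m • ∫ s in dyad m (idx m t), f s ∂I01) atTop
      (𝓝 (f t)) := by
  set g : ℝ → X := (Set.Icc (0:ℝ) 1).indicator (fun s => f s) with hg
  have hfint : Integrable (fun s => f s) I01 :=
    memLp_one_iff_integrable.mp ((Lp.memLp f).mono_exponent le_top)
  have hgint : Integrable g volume := by
    rw [hg, integrable_indicator_iff measurableSet_Icc]
    exact hfint
  have hae := LocallyIntegrable.ae_hasDerivAt_integral hgint.locallyIntegrable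
  have h1 : ∀ᵐ t : ℝ, t ≠ 1 := by simp [ae_iff, measure_singleton]
  suffices hsuff : ∀ᵐ t : ℝ, t ∈ Set.Icc (0:ℝ) 1 →
      Tendsto (fun m : ℕ => (2 : ℝ) ^ m • ∫ s in dyad m (idx m t), f s ∂I01) atTop (𝓝 (f t)) from
    (ae_restrict_iff' measurableSet_Icc).mpr hsuff
  have hgen : ∀ (φ : ℝ → X) (D : Set ℝ), MeasurableSet D → D ⊆ Set.Icc (0:ℝ) 1 →
      ∫ s in D, φ s ∂I01 = ∫ s in D, φ s := by
    intro φ D hD hsub
    unfold I01
    rw [Measure.restrict_restrict hD, Set.inter_eq_left.mpr hsub]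
  filter_upwards [hae, h1] with t ht ht1 htm
  have ht0 : 0 ≤ t := htm.1
  have htlt : t < 1 := lt_of_le_of_ne htm.2 ht1
  set F : ℝ → X := fun x => ∫ s in (0:ℝ)..x, g s with hF
  have hder : HasDerivAt F (g t) t := ht 0
  have hgt : g t = f t := by rw [hg, Set.indicator_of_mem htm]
  rw [← hgt]
  -- the dyadic endpoints
  have hpos : ∀ m : ℕ, (0:ℝ) < 2 ^ m := fun m => by positivity
  have hle : ∀ m : ℕ, ((idx m t : ℕ) : ℝ) / 2 ^ m ≤ t := by
    intro m
    rw [div_le_iff₀ (hpos m)]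
    have := Nat.floor_le (mul_nonneg (hpos m).le ht0)
    unfold idx; linarith
  have hlt : ∀ m : ℕ, t < (((idx m t : ℕ) : ℝ) + 1) / 2 ^ m := by
    intro m
    rw [lt_div_iff₀ (hpos m)]
    have := Nat.lt_floor_add_one ((2:ℝ) ^ m * t)
    unfold idx; linarith
  have hle1 : ∀ m : ℕ, (((idx m t : ℕ) : ℝ) + 1) / 2 ^ m ≤ 1 := by
    intro m
    rw [div_le_one (hpos m)]
    have h2 : idx m t < 2 ^ m := by
      unfold idx
      rw [Nat.floor_lt (mul_nonneg (hpos m).le ht0)]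
      push_cast
      nlinarith [hpos m]
    have : idx m t + 1 ≤ 2 ^ m := h2
    exact_mod_cast this
  have hge0 : ∀ m : ℕ, (0:ℝ) ≤ ((idx m t : ℕ) : ℝ) / 2 ^ m := fun m => by positivity
  have hint : ∀ m : ℕ, ∫ s in dyad m (idx m t), f s ∂I01
      = F ((((idx m t : ℕ) : ℝ) + 1) / 2 ^ m) - F (((idx m t : ℕ) : ℝ) / 2 ^ m) := by
    intro m
    set a := ((idx m t : ℕ) : ℝ) / 2 ^ m with ha
    set b := (((idx m t : ℕ) : ℝ) + 1) / 2 ^ m with hb
    have hab : a ≤ b := (hle m).trans (hlt m).le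
    have hsub : dyad m (idx m t) ⊆ Set.Icc (0:ℝ) 1 := by
      intro s hs
      exact ⟨(hge0 m).trans hs.1, hs.2.le.trans (hle1 m)⟩
    rw [hgen (fun s => f s) _ (measurableSet_dyad _ _) hsub]
    simp only [hF]
    rw [intervalIntegral.integral_interval_sub_left (hgint.intervalIntegrable) (hgint.intervalIntegrable),
      intervalIntegral.integral_of_le hab, ← integral_Ico_eq_integral_Ioc]
    apply setIntegral_congr_fun measurableSet_Ico
    intro s hs
    rw [hg, Set.indicator_of_mem (hsub hs)]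
  rw [Metric.tendsto_atTop]
  intro ε hε
  have hlo := hder.isLittleO
  rw [Asymptotics.isLittleO_iff] at hlo
  have h3 := hlo (show (0:ℝ) < ε / 4 by positivity)
  obtain ⟨δ, hδ, hball⟩ := Metric.eventually_nhds_iff.mp h3
  obtain ⟨N, hN⟩ := exists_pow_lt_of_lt_one hδ (show (1/2 : ℝ) < 1 by norm_num)
  refine ⟨N, fun m hm => ?_⟩
  set a := ((idx m t : ℕ) : ℝ) / 2 ^ m with ha
  set b := (((idx m t : ℕ) : ℝ) + 1) / 2 ^ m with hb
  have hba : b - a = 1 / 2 ^ m := by rw [ha, hb]; ring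
  have hsmall : (1:ℝ) / 2 ^ m < δ := by
    have h5 : (1/2 : ℝ) ^ m ≤ (1/2) ^ N := pow_le_pow_of_le_one (by norm_num) (by norm_num) hm
    rw [one_div_pow] at h5
    linarith
  have hat : |a - t| ≤ 1 / 2 ^ m := by
    rw [abs_le]; constructor <;> linarith [hle m, hlt m]
  have hbt : |b - t| ≤ 1 / 2 ^ m := by
    rw [abs_le]; constructor <;> linarith [hle m, hlt m]
  have ea := hball (y := a) (by rw [Real.dist_eq]; linarith)
  have eb := hball (y := b) (by rw [Real.dist_eq]; linarith)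
  rw [Real.norm_eq_abs] at ea eb
  rw [dist_eq_norm, hint m]
  have h6 : (2:ℝ) ^ m • (F b - F a) - g t
      = (2:ℝ) ^ m • ((F b - F t - (b - t) • g t) - (F a - F t - (a - t) • g t)) := by
    have h7 : (F b - F t - (b - t) • g t) - (F a - F t - (a - t) • g t) = (F b - F a) - (b - a) • g t := by
      simp only [sub_smul]; abel
    have h9 : (2:ℝ) ^ m • (F b - F a - (b - a) • g t) = (2:ℝ) ^ m • (F b - F a) - (2:ℝ) ^ m • ((b - a) • g t) :=
      smul_sub _ _ _
    rw [h7, h9, hba, smul_smul, mul_one_div_cancel (hpos m).ne', one_smul]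
  rw [h6, norm_smul, Real.norm_eq_abs, abs_of_pos (hpos m)]
  have h8 : ‖(F b - F t - (b - t) • g t) - (F a - F t - (a - t) • g t)‖ ≤ ε / 4 * (1 / 2 ^ m) + ε / 4 * (1 / 2 ^ m) := by
    refine (norm_sub_le _ _).trans (add_le_add (eb.trans ?_) (ea.trans ?_))
    · exact mul_le_mul_of_nonneg_left hbt (by positivity)
    · exact mul_le_mul_of_nonneg_left hat (by positivity)
  calc (2:ℝ) ^ m * ‖(F b - F t - (b - t) • g t) - (F a - F t - (a - t) • g t)‖
      ≤ 2 ^ m * (ε / 4 * (1 / 2 ^ m) + ε / 4 * (1 / 2 ^ m)) := mul_le_mul_of_nonneg_left h8 (hpos m).le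
    _ = ε / 2 := by field_simp; ring
    _ < ε := by linarith

theorem exists_stepOp (𝕜 : Type) [RCLike 𝕜] {X : Type u} [NormedAddCommGroup X] [NormedSpace 𝕜 X]
    (m : ℕ) :
    ∃ E : (Lp 𝕜 1 I01 →L[𝕜] X) →L[𝕜] Lp X ⊤ I01, ‖E‖ ≤ 1 ∧
      ∀ S : Lp 𝕜 1 I01 →L[𝕜] X, ∀ᵐ t ∂I01, E S t =
        (2 : 𝕜) ^ m • S (indicatorConstLp 1 (measurableSet_dyad m (idx m t))
          (measure_ne_top I01 _) (1 : 𝕜)) := by
  set g : (Lp 𝕜 1 I01 →L[𝕜] X) → ℕ → X := fun S k =>
    (2 : 𝕜) ^ m • S (indicatorConstLp 1 (measurableSet_dyad m k) (measure_ne_top I01 _) (1 : 𝕜)) with hg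
  have hidx : Measurable (idx m) := by
    unfold idx
    exact Nat.measurable_floor.comp (measurable_const.mul measurable_id)
  have hgm : ∀ S, AEStronglyMeasurable (fun t => g S (idx m t)) I01 := fun S =>
    ((StronglyMeasurable.of_discrete (f := g S)).comp_measurable hidx).aestronglyMeasurable
  have hnorm1 : ∀ k, ‖(indicatorConstLp 1 (measurableSet_dyad m k) (measure_ne_top I01 _) (1 : 𝕜) :
      Lp 𝕜 1 I01)‖ ≤ ((2 : ℝ) ^ m)⁻¹ := by
    intro k
    rw [norm_indicatorConstLp one_ne_zero ENNReal.one_ne_top]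
    rw [norm_one, one_mul, ENNReal.toReal_one, div_one, Real.rpow_one]
    have h1 : I01 (dyad m k) ≤ volume (dyad m k) := Measure.restrict_apply_le _ _
    have h2 : volume (dyad m k) = ENNReal.ofReal (((2 : ℝ) ^ m)⁻¹) := by
      unfold dyad
      rw [Real.volume_Ico]
      congr 1
      rw [← sub_div, add_sub_cancel_left, one_div]
    rw [h2] at h1
    exact ENNReal.toReal_le_of_le_ofReal (by positivity) h1
  have hgb : ∀ S k, ‖g S k‖ ≤ ‖S‖ := by
    intro S k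
    simp only [hg]
    rw [norm_smul, norm_pow, RCLike.norm_ofNat]
    calc (2 : ℝ) ^ m * ‖S (indicatorConstLp 1 (measurableSet_dyad m k) (measure_ne_top I01 _) (1 : 𝕜))‖
        ≤ (2 : ℝ) ^ m * (‖S‖ * ((2 : ℝ) ^ m)⁻¹) := by
          refine mul_le_mul_of_nonneg_left ?_ (by positivity)
          exact (S.le_opNorm _).trans (mul_le_mul_of_nonneg_left (hnorm1 k) (norm_nonneg _))
      _ = ‖S‖ := by
          have : (2 : ℝ) ^ m ≠ 0 := by positivity
          field_simp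
  have hmem : ∀ S, MemLp (fun t => g S (idx m t)) ⊤ I01 := fun S =>
    MemLp.of_bound (hgm S) ‖S‖ (Eventually.of_forall fun t => hgb S _)
  have hgadd : ∀ S T k, g (S + T) k = g S k + g T k := by
    intro S T k
    simp only [hg]
    rw [ContinuousLinearMap.add_apply, smul_add]
  have hgsmul : ∀ (c : 𝕜) S k, g (c • S) k = c • g S k := by
    intro c S k
    simp only [hg]
    rw [ContinuousLinearMap.smul_apply, smul_comm]
  refine ⟨LinearMap.mkContinuous
    { toFun := fun S => (hmem S).toLp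
      map_add' := by
        intro S T
        rw [← MemLp.toLp_add]
        apply MemLp.toLp_congr
        refine Eventually.of_forall fun t => ?_
        simp only [Pi.add_apply]
        exact hgadd S T _
      map_smul' := by
        intro c S
        simp only [RingHom.id_apply]
        rw [← MemLp.toLp_const_smul]
        apply MemLp.toLp_congr
        refine Eventually.of_forall fun t => ?_
        simp only [Pi.smul_apply]
        exact hgsmul c S _ } 1 (by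
      intro S
      rw [one_mul]
      refine lp_norm_le (norm_nonneg _) ?_
      filter_upwards [MemLp.coeFn_toLp (hmem S)] with t ht
      rw [LinearMap.coe_mk, AddHom.coe_mk, ht]
      exact hgb S _), LinearMap.mkContinuous_norm_le _ zero_le_one _, ?_⟩
  intro S
  exact MemLp.coeFn_toLp (hmem S)

theorem represents_indicator (𝕜 : Type) [RCLike 𝕜] {X : Type u} [NormedAddCommGroup X]
    [NormedSpace 𝕜 X] [NormedSpace ℝ X] [IsScalarTower ℝ 𝕜 X] [CompleteSpace X]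
    (f : Lp X ⊤ I01) (S : Lp 𝕜 1 I01 →L[𝕜] X) (h : Represents 𝕜 X f S) (A : Set ℝ)
    (hA : MeasurableSet A) :
    S (indicatorConstLp 1 hA (measure_ne_top I01 _) (1 : 𝕜)) = ∫ s in A, f s ∂I01 := by
  refine (SeparatingDual.eq_iff_forall_dual_eq (R := 𝕜)).2 fun ξ => ?_
  rw [h]
  have h1 : ∀ᵐ t ∂I01, (indicatorConstLp 1 hA (measure_ne_top I01 _) (1 : 𝕜) : Lp 𝕜 1 I01) t *
      ξ (f t) = A.indicator (fun s => ξ (f s)) t := by
    filter_upwards [indicatorConstLp_coeFn (p := 1) (hs := hA)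
      (hμs := measure_ne_top I01 A) (c := (1 : 𝕜))] with t ht
    rw [ht]
    by_cases hx : t ∈ A <;> simp [hx]
  rw [integral_congr_ae h1, integral_indicator hA]
  have hint : Integrable f I01 := memLp_one_iff_integrable.mp ((Lp.memLp f).mono_exponent le_top)
  exact ξ.integral_comp_comm hint.restrict

/-- combine a bounded sequence of operators to an operator into the bounded sequences -/
theorem nec_rep_comb {𝕜 : Type} [RCLike 𝕜] {V : Type*} [NormedAddCommGroup V] [NormedSpace 𝕜 V]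
    {X : Type u} [NormedAddCommGroup X] [NormedSpace 𝕜 X] (A : ℕ → V →L[𝕜] X) (C : ℝ)
    (hC : ∀ m v, ‖A m v‖ ≤ C * ‖v‖) :
    ∃ G : V →L[𝕜] lp (fun _ : ℕ => X) ⊤, (∀ v m, (G v) m = A m v) ∧ ∀ v, ‖G v‖ ≤ C * ‖v‖ := by
  have hmem : ∀ v, Memℓp (fun m => A m v) ⊤ := by
    intro v
    apply memℓp_infty
    refine ⟨C * ‖v‖, ?_⟩
    rintro _ ⟨m, rfl⟩
    exact hC m v
  have hnn : ∀ v : V, 0 ≤ C * ‖v‖ := fun v => (norm_nonneg _).trans (hC 0 v)
  have hbd : ∀ v, ‖(⟨fun m => A m v, hmem v⟩ : lp (fun _ : ℕ => X) ⊤)‖ ≤ C * ‖v‖ := by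
    intro v
    apply lp.norm_le_of_forall_le (hnn v)
    intro m
    exact hC m v
  let L : V →ₗ[𝕜] lp (fun _ : ℕ => X) ⊤ :=
    { toFun := fun v => ⟨fun m => A m v, hmem v⟩
      map_add' := by
        intro v w
        apply lp.ext
        funext m
        show A m (v + w) = A m v + A m w
        rw [map_add]
      map_smul' := by
        intro c v
        apply lp.ext
        funext m
        show A m (c • v) = c • A m v
        rw [map_smul] }
  exact ⟨L.mkContinuous C hbd, fun v m => rfl, hbd⟩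

/-- the coordinates of an operator into the bounded sequences -/
theorem nec_rep_coord {𝕜 : Type} [RCLike 𝕜] {V : Type*} [NormedAddCommGroup V] [NormedSpace 𝕜 V]
    {X : Type u} [NormedAddCommGroup X] [NormedSpace 𝕜 X]
    (B : V →L[𝕜] lp (fun _ : ℕ => X) ⊤) (n : ℕ) :
    ∃ A : V →L[𝕜] X, ∀ v, A v = (B v) n := by
  let L : V →ₗ[𝕜] X :=
    { toFun := fun v => (B v) n
      map_add' := by
        intro v w
        rw [map_add]
        rfl
      map_smul' := by
        intro c v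
        rw [map_smul]
        rfl }
  refine ⟨L.mkContinuous ‖B‖ ?_, fun v => rfl⟩
  intro v
  exact (lp.norm_apply_le_norm (by simp) (B v) n).trans (B.le_opNorm v)

theorem nec_rep_tendsto (𝕜 : Type) [RCLike 𝕜] {X : Type u} [NormedAddCommGroup X]
    [NormedSpace 𝕜 X] (T : Lp X ⊤ I01 →L[𝕜] lp (fun _ : ℕ => X) ⊤)
    (hac : ∀ n : ℕ, ∀ ε > (0 : ℝ), ∃ δ > (0 : ℝ), ∀ f : Lp X ⊤ I01, ‖f‖ ≤ 1 →
      ∫ t, ‖f t‖ ∂I01 ≤ δ → ‖(T f) n‖ ≤ ε) (h : ℕ → Lp X ⊤ I01) (K : ℝ) (hK : 0 < K)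
    (hb : ∀ m, ‖h m‖ ≤ K) (hae : ∀ᵐ t ∂I01, Tendsto (fun m => h m t) atTop (𝓝 0)) (n : ℕ) :
    Tendsto (fun m => (T (h m)) n) atTop (𝓝 0) := by
  have hint : Tendsto (fun m => ∫ t, ‖h m t‖ ∂I01) atTop (𝓝 (∫ _t, (0 : ℝ) ∂I01)) := by
    apply tendsto_integral_of_dominated_convergence (fun _ => K)
    · intro m
      exact (Lp.aestronglyMeasurable (h m)).norm
    · exact integrable_const K
    · intro m
      filter_upwards [lp_ae_le (h m)] with t ht
      rw [norm_norm]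
      exact ht.trans (hb m)
    · filter_upwards [hae] with t ht
      have := ht.norm
      rwa [norm_zero] at this
  rw [integral_zero] at hint
  rw [Metric.tendsto_atTop]
  intro ε hε
  obtain ⟨δ, hδ, hδ'⟩ := hac n (ε / (2 * K)) (by positivity)
  have hev : ∀ᶠ m in atTop, ∫ t, ‖h m t‖ ∂I01 ≤ δ * K :=
    hint.eventually (ge_mem_nhds (by positivity))
  obtain ⟨N, hN⟩ := eventually_atTop.1 hev
  refine ⟨N, fun m hm => ?_⟩
  have hnK : ‖((K : ℝ) : 𝕜)⁻¹‖ = K⁻¹ := by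
    rw [norm_inv, RCLike.norm_ofReal, abs_of_pos hK]
  have h1 : ‖((K : ℝ) : 𝕜)⁻¹ • h m‖ ≤ 1 := by
    rw [norm_smul, hnK, inv_mul_le_iff₀ hK, mul_one]
    exact hb m
  have h2 : ∫ t, ‖(((K : ℝ) : 𝕜)⁻¹ • h m) t‖ ∂I01 ≤ δ := by
    have e : ∫ t, ‖(((K : ℝ) : 𝕜)⁻¹ • h m) t‖ ∂I01 = K⁻¹ * ∫ t, ‖h m t‖ ∂I01 := by
      rw [← integral_const_mul]
      apply integral_congr_ae
      filter_upwards [Lp.coeFn_smul (((K : ℝ) : 𝕜)⁻¹) (h m)] with t ht
      rw [ht, Pi.smul_apply, norm_smul, hnK]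
    rw [e, inv_mul_le_iff₀ hK, mul_comm]
    exact hN m hm
  have h3 := hδ' _ h1 h2
  have h4 : (T (((K : ℝ) : 𝕜)⁻¹ • h m)) n = ((K : ℝ) : 𝕜)⁻¹ • (T (h m)) n := by
    rw [map_smul]
    rfl
  rw [h4, norm_smul, hnK, inv_mul_le_iff₀ hK] at h3
  rw [dist_zero_right]
  have h5 : K * (ε / (2 * K)) = ε / 2 := by
    field_simp
  rw [h5] at h3
  linarith

theorem nec_rep (𝕜 : Type) [RCLike 𝕜] {X : Type u} [NormedAddCommGroup X] [NormedSpace 𝕜 X]
    [NormedSpace ℝ X] [IsScalarTower ℝ 𝕜 X] [CompleteSpace X] (hΦ : LimitOperator 𝕜 X)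
    (T : Lp X ⊤ I01 →L[𝕜] lp (fun _ : ℕ => X) ⊤)
    (P : lp (fun _ : ℕ => X) ⊤ →L[𝕜] Lp X ⊤ I01) (hPT : ∀ f, P (T f) = f)
    (hac : ∀ n : ℕ, ∀ ε > (0 : ℝ), ∃ δ > (0 : ℝ), ∀ f : Lp X ⊤ I01, ‖f‖ ≤ 1 →
      ∫ t, ‖f t‖ ∂I01 ≤ δ → ‖(T f) n‖ ≤ ε) :
    RepComplemented 𝕜 X := by
  obtain ⟨Φ, hΦ⟩ := hΦ
  choose E hE1 hE2 using fun m => exists_stepOp 𝕜 (X := X) m
  have hEn : ∀ m S, ‖E m S‖ ≤ ‖S‖ := by
    intro m S
    have := (E m).le_of_opNorm_le (hE1 m) S
    rwa [one_mul] at this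
  choose A hA using fun n m => nec_rep_coord (T.comp (E m)) n
  have hAn : ∀ n m S, ‖A n m S‖ ≤ ‖T‖ * ‖S‖ := by
    intro n m S
    rw [hA]
    refine (lp.norm_apply_le_norm (by simp) _ n).trans ?_
    refine (T.le_opNorm _).trans ?_
    exact mul_le_mul_of_nonneg_left (hEn m S) (norm_nonneg _)
  choose G hG1 hG2 using fun n => nec_rep_comb (A n) ‖T‖ (hAn n)
  obtain ⟨R, hR1, hR2⟩ := nec_rep_comb (fun n => Φ.comp (G n)) (‖Φ‖ * ‖T‖) (by
    intro n S
    refine (Φ.le_opNorm _).trans ?_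
    rw [mul_assoc]
    exact mul_le_mul_of_nonneg_left (hG2 n S) (norm_nonneg _))
  refine ⟨P.comp R, ?_⟩
  intro f S hfS
  have hae : ∀ᵐ t ∂I01, Tendsto (fun m => (E m S - f) t) atTop (𝓝 0) := by
    have h1 : ∀ᵐ t ∂I01, ∀ m, E m S t =
        (2 : 𝕜) ^ m • S (indicatorConstLp 1 (measurableSet_dyad m (idx m t))
          (measure_ne_top I01 _) (1 : 𝕜)) := ae_all_iff.2 fun m => hE2 m S
    have h2 : ∀ᵐ t ∂I01, ∀ m, (E m S - f) t = E m S t - f t :=
      ae_all_iff.2 fun m => by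
        filter_upwards [Lp.coeFn_sub (E m S) f] with t ht
        rw [ht, Pi.sub_apply]
    filter_upwards [h1, h2, dyadic_ae f] with t h1 h2 h3
    have h4 : ∀ m, E m S t = (2 : ℝ) ^ m • ∫ s in dyad m (idx m t), f s ∂I01 := by
      intro m
      rw [h1 m, represents_indicator 𝕜 f S hfS, ← algebraMap_smul 𝕜 ((2 : ℝ) ^ m)]
      congr 1
      rw [map_pow, map_ofNat]
    simp only [h2, h4]
    have := h3.sub_const (f t)
    rwa [sub_self] at this
  have hR : R S = T f := by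
    apply lp.ext
    funext n
    rw [hR1]
    show Φ (G n S) = (T f) n
    apply hΦ
    have h1 := nec_rep_tendsto 𝕜 T hac (fun m => E m S - f) (‖S‖ + ‖f‖ + 1) (by positivity)
      (fun m => by
        have := norm_sub_le (E m S) f
        have := hEn m S
        linarith) hae n
    have h2 := h1.add_const ((T f) n)
    rw [zero_add] at h2
    refine h2.congr ?_
    intro m
    rw [hG1, hA, map_sub]
    show (T (E m S)) n - (T f) n + (T f) n = (T (E m S)) n
    rw [sub_add_cancel]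
  show P (R S) = f
  rw [hR, hPT]

end Pool.Agent.Helper234.LInf
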