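import Pool.Agent.Helper234.LInf.Acs
import Pool.Agent.Helper234.LInf.Rad
import Pool.Agent.Helper234.LInf.Rep

open MeasureTheory Filter Topology

namespace Pool.Agent.Helper234.LInf

universe u


/-- coordinate evaluation -/
noncomputable def evalC (𝕜 : Type) [RCLike 𝕜] (X : Type u) [NormedAddCommGroup X]
    [NormedSpace 𝕜 X] (n : ℕ) : lp (fun _ : ℕ => X) ⊤ →L[𝕜] X :=
  LinearMap.mkContinuous
    { toFun := fun z => z n
      map_add' := fun z w => by simp
      map_smul' := fun c z => by simp } 1 (by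
    intro z
    rw [one_mul]
    exact lp.norm_apply_le_norm (by simp) _ _)

theorem evalC_apply (𝕜 : Type) [RCLike 𝕜] (X : Type u) [NormedAddCommGroup X]
    [NormedSpace 𝕜 X] (n : ℕ) (z : lp (fun _ : ℕ => X) ⊤) : evalC 𝕜 X n z = z n := rfl

theorem nec_main (𝕜 : Type) [RCLike 𝕜] {X : Type u} [NormedAddCommGroup X] [NormedSpace 𝕜 X]
    [NormedSpace ℝ X] [IsScalarTower ℝ 𝕜 X] [CompleteSpace X] (hX : ¬ ContainsLinf 𝕜 X)
    (T : Lp X ⊤ I01 →L[𝕜] lp (fun _ : ℕ => X) ⊤)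
    (P : lp (fun _ : ℕ => X) ⊤ →L[𝕜] Lp X ⊤ I01) (hPT : ∀ f, P (T f) = f) :
    LimitOperator 𝕜 X ∧ RepComplemented 𝕜 X := by
  obtain ⟨T', P', hPT', hAC⟩ := ac_reduction 𝕜 hX T P hPT
  have hl1 : ∀ n : ℕ, ∀ ε > (0 : ℝ), ∃ δ > (0 : ℝ), ∀ f : Lp X ⊤ I01, ‖f‖ ≤ 1 →
      ∫ t, ‖f t‖ ∂I01 ≤ δ → ‖(T' f) n‖ ≤ ε := by
    intro n
    exact ac_l1 𝕜 ((evalC 𝕜 X n).comp T') (hAC n)
  have hΦ : LimitOperator 𝕜 X := by
    refine core_limit 𝕜 X hX (Lp X ⊤ I01) T' P' hPT'
      (fun m => tens 𝕜 (rad m) (measurable_rad m) (abs_rad m))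
      (fun m => (intOp 𝕜 : Lp X ⊤ I01 →L[𝕜] X).comp
        (mulOp 𝕜 (rad m) (measurable_rad m) (abs_rad m)))
      (fun m => tens_norm 𝕜 _ _ _) ?_ (fun m x => kappa_rho 𝕜 m x) (fun f => rad_null 𝕜 f)
      ?_ (fun M g K h => sign_choice 𝕜 M g K h)
    · intro m
      refine (ContinuousLinearMap.opNorm_comp_le _ _).trans ?_
      calc _ ≤ (1 : ℝ) * 1 := mul_le_mul (intOp_norm 𝕜) (mulOp_norm 𝕜 _ _ _) (norm_nonneg _)
              zero_le_one
        _ = 1 := one_mul 1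
    · intro n ε hε
      obtain ⟨δ, hδ, h⟩ := hl1 n ε hε
      obtain ⟨M0, hM0⟩ := exists_nat_gt (1 / δ ^ 2)
      refine ⟨M0 + 1, ?_⟩
      intro M hM x hx σ hσ
      set G : Lp X ⊤ I01 := ∑ i ∈ Finset.range M,
        σ i • (tens 𝕜 (rad i) (measurable_rad i) (abs_rad i) x) with hG
      have hMpos : (0 : ℝ) < M := by
        have : 0 < M := by omega
        exact_mod_cast this
      have hGn : ‖G‖ ≤ M := by
        rw [hG]
        refine (norm_sum_le _ _).trans ?_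
        have : ∀ i ∈ Finset.range M,
            ‖σ i • (tens 𝕜 (rad i) (measurable_rad i) (abs_rad i) x : Lp X ⊤ I01)‖ ≤ 1 := by
          intro i _
          rw [norm_smul]
          have h1 : ‖σ i‖ = 1 := by rcases hσ i with h | h <;> simp [h]
          rw [h1, one_mul]
          refine (ContinuousLinearMap.le_opNorm _ _).trans ?_
          calc _ ≤ (1 : ℝ) * 1 := mul_le_mul (tens_norm 𝕜 _ _ _) hx (norm_nonneg _) zero_le_one
            _ = 1 := one_mul 1
        refine (Finset.sum_le_sum this).trans ?_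
        simp
      have hf1 : ‖((M : 𝕜)⁻¹) • G‖ ≤ 1 := by
        rw [norm_smul, norm_inv, RCLike.norm_natCast, inv_mul_le_iff₀ hMpos, mul_one]
        exact hGn
      have hf2 : ∫ t, ‖(((M : 𝕜)⁻¹) • G : Lp X ⊤ I01) t‖ ∂I01 ≤ δ := by
        have e1 : ∫ t, ‖(((M : 𝕜)⁻¹) • G : Lp X ⊤ I01) t‖ ∂I01 = (M : ℝ)⁻¹ * ∫ t, ‖G t‖ ∂I01 := by
          rw [← integral_const_mul]
          refine integral_congr_ae ?_
          filter_upwards [Lp.coeFn_smul ((M : 𝕜)⁻¹) G] with t ht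
          rw [ht, Pi.smul_apply, norm_smul, norm_inv, RCLike.norm_natCast]
        rw [e1]
        have e2 := rad_l1 𝕜 M x hx σ hσ
        rw [← hG] at e2
        have e3 : (M : ℝ)⁻¹ * ∫ t, ‖G t‖ ∂I01 ≤ (M : ℝ)⁻¹ * Real.sqrt M :=
          mul_le_mul_of_nonneg_left e2 (by positivity)
        refine e3.trans ?_
        rw [inv_mul_le_iff₀ hMpos]
        have h4 : 1 / δ ^ 2 ≤ M := by
          refine hM0.le.trans ?_
          have : M0 ≤ M := by omega
          exact_mod_cast this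
        have h5 : 1 ≤ M * δ ^ 2 := by
          rw [div_le_iff₀ (by positivity)] at h4
          exact h4
        have h6 : Real.sqrt M ≤ M * δ := by
          apply Real.sqrt_le_iff.mpr
          constructor
          · positivity
          · nlinarith
        exact h6
      have := h _ hf1 hf2
      rw [map_smul] at this
      have e5 : ((((M : 𝕜)⁻¹) • T' G : lp (fun _ : ℕ => X) ⊤)) n = ((M : 𝕜)⁻¹) • (T' G) n := by
        simp
      rw [e5, norm_smul, norm_inv, RCLike.norm_natCast, inv_mul_le_iff₀ hMpos] at this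
      rw [mul_comm]
      exact this
  exact ⟨hΦ, nec_rep 𝕜 hΦ T' P' hPT' hl1⟩

end Pool.Agent.Helper234.LInf
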