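import Pool.Agent.Helper234.LInf.Rep

open MeasureTheory Filter Topology

namespace Pool.Agent.Helper234.LInf

universe u

theorem ac_tendsto (𝕜 : Type) [RCLike 𝕜] {X : Type u} [NormedAddCommGroup X]
    [NormedSpace 𝕜 X] (T : Lp X ⊤ I01 →L[𝕜] lp (fun _ : ℕ => X) ⊤)
    (hac : ∀ n : ℕ, ∀ ε > (0 : ℝ), ∃ δ > (0 : ℝ), ∀ f : Lp X ⊤ I01, ‖f‖ ≤ 1 →
      ∫ t, ‖f t‖ ∂I01 ≤ δ → ‖(T f) n‖ ≤ ε) (h : ℕ → Lp X ⊤ I01) (K : ℝ) (hK : 0 < K)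
    (hb : ∀ m, ‖h m‖ ≤ K) (hint : Tendsto (fun m => ∫ t, ‖h m t‖ ∂I01) atTop (𝓝 0)) (n : ℕ) :
    Tendsto (fun m => (T (h m)) n) atTop (𝓝 0) := by
  rw [Metric.tendsto_atTop]
  intro ε hε
  obtain ⟨δ, hδ, hδ'⟩ := hac n (ε / (2 * K)) (by positivity)
  have hev : ∀ᶠ m in atTop, ∫ t, ‖h m t‖ ∂I01 ≤ δ * K :=
    hint.eventually (ge_mem_nhds (by positivity))
  obtain ⟨N, hN⟩ := eventually_atTop.1 hev
  refine ⟨N, fun m hm => ?_⟩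
  have hnK : ‖((K : ℝ) : 𝕜)⁻¹‖ = K⁻¹ := by
    rw [norm_inv, RCLike.norm_ofReal, abs_of_pos hK]
  have h1 : ‖((K : ℝ) : 𝕜)⁻¹ • h m‖ ≤ 1 := by
    rw [norm_smul, hnK, inv_mul_le_iff₀ hK, mul_one]
    exact hb m
  have h2 : ∫ t, ‖(((K : ℝ) : 𝕜)⁻¹ • h m) t‖ ∂I01 ≤ δ := by
    have e : ∫ t, ‖(((K : ℝ) : 𝕜)⁻¹ • h m) t‖ ∂I01 = K⁻¹ * ∫ t, ‖h m t‖ ∂I01 := by
      rw [← integral_const_mul]
      apply integral_congr_ae
      filter_upwards [Lp.coeFn_smul (((K : ℝ) : 𝕜)⁻¹) (h m)] with t ht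
      rw [ht, Pi.smul_apply, norm_smul, hnK]
    rw [e, inv_mul_le_iff₀ hK, mul_comm]
    exact hN m hm
  have h3 := hδ' _ h1 h2
  have h4 : (T (((K : ℝ) : 𝕜)⁻¹ • h m)) n = ((K : ℝ) : 𝕜)⁻¹ • (T (h m)) n := by
    rw [map_smul]
    rfl
  rw [h4, norm_smul, hnK, inv_mul_le_iff₀ hK] at h3
  rw [dist_zero_right]
  have h5 : K * (ε / (2 * K)) = ε / 2 := by
    field_simp
  rw [h5] at h3
  linarith

theorem exists_psi (𝕜 : Type) [RCLike 𝕜] {X : Type u} [NormedAddCommGroup X] [NormedSpace 𝕜 X]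
    (hΦ : LimitOperator 𝕜 X)
    (T : Lp X ⊤ I01 →L[𝕜] lp (fun _ : ℕ => X) ⊤)
    (P : lp (fun _ : ℕ => X) ⊤ →L[𝕜] Lp X ⊤ I01) (hPT : ∀ f, P (T f) = f)
    (hac : ∀ n : ℕ, ∀ ε > (0 : ℝ), ∃ δ > (0 : ℝ), ∀ f : Lp X ⊤ I01, ‖f‖ ≤ 1 →
      ∫ t, ‖f t‖ ∂I01 ≤ δ → ‖(T f) n‖ ≤ ε) :
    ∃ Ψ : lp (fun _ : ℕ => Lp X ⊤ I01) ⊤ →L[𝕜] Lp X ⊤ I01,
      ∀ (g : lp (fun _ : ℕ => Lp X ⊤ I01) ⊤) (f : Lp X ⊤ I01),
        Tendsto (fun m : ℕ => ∫ t, ‖(g m) t - f t‖ ∂I01) atTop (𝓝 0) → Ψ g = f := by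
  obtain ⟨Φ, hΦ⟩ := hΦ
  choose E hE using fun m => nec_rep_coord
    (ContinuousLinearMap.id 𝕜 (lp (fun _ : ℕ => Lp X ⊤ I01) ⊤)) m
  have hEn : ∀ m S, ‖E m S‖ ≤ ‖S‖ := by
    intro m S
    rw [hE]
    exact lp.norm_apply_le_norm (by simp) _ m
  choose A hA using fun n m => nec_rep_coord (T.comp (E m)) n
  have hAn : ∀ n m S, ‖A n m S‖ ≤ ‖T‖ * ‖S‖ := by
    intro n m S
    rw [hA]
    refine (lp.norm_apply_le_norm (by simp) _ n).trans ?_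
    refine (T.le_opNorm _).trans ?_
    exact mul_le_mul_of_nonneg_left (hEn m S) (norm_nonneg _)
  choose G hG1 hG2 using fun n => nec_rep_comb (A n) ‖T‖ (hAn n)
  obtain ⟨R, hR1, hR2⟩ := nec_rep_comb (fun n => Φ.comp (G n)) (‖Φ‖ * ‖T‖) (by
    intro n S
    refine (Φ.le_opNorm _).trans ?_
    rw [mul_assoc]
    exact mul_le_mul_of_nonneg_left (hG2 n S) (norm_nonneg _))
  refine ⟨P.comp R, ?_⟩
  intro g f hgf
  have hint : Tendsto (fun m => ∫ t, ‖(E m g - f) t‖ ∂I01) atTop (𝓝 0) := by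
    refine hgf.congr ?_
    intro m
    apply integral_congr_ae
    filter_upwards [Lp.coeFn_sub (E m g) f] with t ht
    rw [ht, Pi.sub_apply, hE]
    rfl
  have hR : R g = T f := by
    apply lp.ext
    funext n
    rw [hR1]
    show Φ (G n g) = (T f) n
    apply hΦ
    have h1 := ac_tendsto 𝕜 T hac (fun m => E m g - f) (‖g‖ + ‖f‖ + 1) (by positivity)
      (fun m => by
        have := norm_sub_le (E m g) f
        have := hEn m g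
        linarith) hint n
    have h2 := h1.add_const ((T f) n)
    rw [zero_add] at h2
    refine h2.congr ?_
    intro m
    rw [hG1, hA, map_sub]
    show (T (E m g)) n - (T f) n + (T f) n = (T (E m g)) n
    rw [sub_add_cancel]
  show P (R g) = f
  rw [hR, hPT]

end Pool.Agent.Helper234.LInf
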