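import Pool.Agent.Helper234.LInf.Defs

open MeasureTheory Filter Topology

namespace Pool.Agent.Helper234.LInf.Show

universe u

variable (𝕜 : Type) [RCLike 𝕜] (X : Type u) [NormedAddCommGroup X] [NormedSpace 𝕜 X]

/-- `X` contains an isomorphic copy of the space of bounded scalar sequences. -/
def ContainsLinf : Prop :=
  ∃ V : BoundedContinuousFunction ℕ 𝕜 →L[𝕜] X, ∃ c : ℝ, 0 < c ∧ ∀ y, c * ‖y‖ ≤ ‖V y‖

/-- `X` contains an isomorphic copy of the space of null scalar sequences. -/
def ContainsC0 : Prop :=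
  ∃ V : ZeroAtInftyContinuousMap ℕ 𝕜 →L[𝕜] X, ∃ c : ℝ, 0 < c ∧ ∀ y, c * ‖y‖ ≤ ‖V y‖

/-- Condition (i): the limit, an operator on the convergent sequences of `X`, extends to a bounded
linear operator defined on all bounded sequences of `X` and with values in `X`. -/
def LimitExtends : Prop :=
  ∃ Φ : BoundedContinuousFunction ℕ X →L[𝕜] X,
    ∀ (x : BoundedContinuousFunction ℕ X) (v : X), Tendsto x atTop (𝓝 v) → Φ x = v

/-- `F` has derivative `v` at `t`. -/
def HasDer {X : Type u} [NormedAddCommGroup X] [NormedSpace 𝕜 X] (F : ℝ → X) (v : X) (t : ℝ) :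
    Prop :=
  Tendsto (fun h : ℝ => ((h : 𝕜))⁻¹ • (F (t + h) - F t)) (𝓝[≠] 0) (𝓝 v)

/-- `F` is a Lipschitz function from the real line to `X`. -/
def IsLip {X : Type u} [NormedAddCommGroup X] (F : ℝ → X) : Prop := ∃ K, LipschitzWith K F

/-- Condition (ii): the derivative, an operator on the Lipschitz functions which are differentiable
almost everywhere on the unit interval, extends to a bounded linear operator `D` defined on all
Lipschitz functions and with values in the space of bounded measurable functions. -/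
def DerivativeExtends : Prop :=
  ∃ (D : (ℝ → X) → Lp X ⊤ I01) (C : ℝ),
    (∀ F G : ℝ → X, IsLip F → IsLip G → D (fun t => F t + G t) = D F + D G) ∧
    (∀ (a : 𝕜) (F : ℝ → X), IsLip F → D (fun t => a • F t) = a • D F) ∧
    (∀ (F : ℝ → X) (K : NNReal), LipschitzWith K F → ‖D F‖ ≤ C * K) ∧
    (∀ (F : ℝ → X) (f : Lp X ⊤ I01), IsLip F → (∀ᵐ t ∂I01, HasDer 𝕜 F (f t) t) → D F = f)

/-- Radon-Nikodym property: Lipschitz maps from the reals are differentiable almost everywhere. -/
def RNP : Prop := ∀ F : ℝ → X, IsLip F → ∀ᵐ t : ℝ, ∃ v : X, HasDer 𝕜 F v t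

/-- The two spaces of the question are isomorphic. -/
def Isomorphic : Prop := Nonempty (Lp X ⊤ I01 ≃L[𝕜] BoundedContinuousFunction ℕ X)

end Pool.Agent.Helper234.LInf.Show
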