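import Pool.Agent.Helper234.LInf.Show
import Pool.Agent.Helper234.LInf.Ops

open MeasureTheory Filter Topology

namespace Pool.Agent.Helper234.LInf

universe u

theorem show_linf (𝕜 : Type) [RCLike 𝕜] (X : Type u) [NormedAddCommGroup X] [NormedSpace 𝕜 X] :
    Show.ContainsLinf 𝕜 X ↔ ContainsLinf 𝕜 X := by
  constructor
  · rintro ⟨V, c, hc, h⟩
    refine ⟨V.comp ((lpBCFₗᵢ 𝕜 𝕜 (α := ℕ)).toContinuousLinearEquiv :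
      lp (fun _ : ℕ => 𝕜) ⊤ →L[𝕜] BoundedContinuousFunction ℕ 𝕜), c, hc, fun y => ?_⟩
    have := h (lpBCFₗᵢ 𝕜 𝕜 y)
    rwa [LinearIsometryEquiv.norm_map] at this
  · rintro ⟨V, c, hc, h⟩
    refine ⟨V.comp ((lpBCFₗᵢ 𝕜 𝕜 (α := ℕ)).symm.toContinuousLinearEquiv :
      BoundedContinuousFunction ℕ 𝕜 →L[𝕜] lp (fun _ : ℕ => 𝕜) ⊤), c, hc, fun y => ?_⟩
    have := h ((lpBCFₗᵢ 𝕜 𝕜).symm y)
    rwa [LinearIsometryEquiv.norm_map] at this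

theorem show_lim (𝕜 : Type) [RCLike 𝕜] (X : Type u) [NormedAddCommGroup X] [NormedSpace 𝕜 X] :
    Show.LimitExtends 𝕜 X ↔ LimitOperator 𝕜 X := by
  constructor
  · rintro ⟨Φ, h⟩
    refine ⟨Φ.comp ((lpBCFₗᵢ X 𝕜 (α := ℕ)).toContinuousLinearEquiv :
      lp (fun _ : ℕ => X) ⊤ →L[𝕜] BoundedContinuousFunction ℕ X), fun x v hx => ?_⟩
    exact h (lpBCFₗᵢ X 𝕜 x) v (by rw [coe_lpBCFₗᵢ]; exact hx)
  · rintro ⟨Φ, h⟩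
    refine ⟨Φ.comp ((lpBCFₗᵢ X 𝕜 (α := ℕ)).symm.toContinuousLinearEquiv :
      BoundedContinuousFunction ℕ X →L[𝕜] lp (fun _ : ℕ => X) ⊤), fun x v hx => ?_⟩
    refine h ((lpBCFₗᵢ X 𝕜).symm x) v ?_
    rw [coe_lpBCFₗᵢ_symm]
    exact hx

theorem show_iso (𝕜 : Type) [RCLike 𝕜] (X : Type u) [NormedAddCommGroup X] [NormedSpace 𝕜 X] :
    Show.Isomorphic 𝕜 X ↔ Iso 𝕜 X := by
  constructor
  · rintro ⟨e⟩
    exact ⟨e.trans (lpBCFₗᵢ X 𝕜 (α := ℕ)).symm.toContinuousLinearEquiv⟩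
  · rintro ⟨e⟩
    exact ⟨e.trans (lpBCFₗᵢ X 𝕜 (α := ℕ)).toContinuousLinearEquiv⟩

end Pool.Agent.Helper234.LInf
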