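import Pool.Agent.Helper234.LInf.Der
import Pool.Agent.Helper234.LInf.Core

open MeasureTheory Filter Topology

namespace Pool.Agent.Helper234.LInf

universe u

namespace Show
/-- `X` has an unconditional Schauder basis `e` with coordinate functionals `c`. -/
def UncondBasis (𝕜 : Type) [RCLike 𝕜] {X : Type u} [NormedAddCommGroup X] [NormedSpace 𝕜 X]
    (e : ℕ → X) (c : ℕ → X →L[𝕜] 𝕜) : Prop :=
  (∀ i j, c i (e j) = if i = j then 1 else 0) ∧ ∀ x, HasSum (fun i => c i x • e i) x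
end Show

section
variable (𝕜 : Type) [RCLike 𝕜] {X : Type u} [NormedAddCommGroup X]
    [NormedSpace 𝕜 X] [CompleteSpace X] (e : ℕ → X) (c : ℕ → X →L[𝕜] 𝕜)

/-- finite coordinate projections -/
noncomputable def proj (A : Finset ℕ) : X →L[𝕜] X :=
  ∑ i ∈ A, (c i).smulRight (e i)

omit [CompleteSpace X] in
theorem proj_apply (A : Finset ℕ) (x : X) : proj 𝕜 e c A x = ∑ i ∈ A, c i x • e i := by
  simp [proj]

theorem proj_bound (he : Show.UncondBasis 𝕜 e c) :
    ∃ K : ℝ, 0 ≤ K ∧ ∀ (A : Finset ℕ) (x : X), ‖∑ i ∈ A, c i x • e i‖ ≤ K * ‖x‖ := by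
  have h1 : ∀ x : X, ∃ C, ∀ A : Finset ℕ, ‖proj 𝕜 e c A x‖ ≤ C := by
    intro x
    have hs : Summable (fun i => c i x • e i) := (he.2 x).summable
    obtain ⟨A0, hA0⟩ := (summable_iff_vanishing_norm.1 hs) 1 one_pos
    refine ⟨1 + ∑ B ∈ A0.powerset, ‖∑ i ∈ B, c i x • e i‖, fun A => ?_⟩
    rw [proj_apply, ← Finset.sum_inter_add_sum_sdiff A A0]
    have h2 := (hA0 (A \ A0) Finset.sdiff_disjoint).le
    have h3 : ‖∑ i ∈ A ∩ A0, c i x • e i‖ ≤ ∑ B ∈ A0.powerset, ‖∑ i ∈ B, c i x • e i‖ :=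
      Finset.single_le_sum (f := fun B => ‖∑ i ∈ B, c i x • e i‖) (fun _ _ => norm_nonneg _)
        (Finset.mem_powerset.2 Finset.inter_subset_right)
    calc _ ≤ ‖∑ i ∈ A ∩ A0, c i x • e i‖ + ‖∑ i ∈ A \ A0, c i x • e i‖ := norm_add_le _ _
      _ ≤ _ := by linarith
  obtain ⟨C, hC⟩ := banach_steinhaus h1
  refine ⟨max C 0, le_max_right _ _, fun A x => ?_⟩
  rw [← proj_apply]
  refine ((proj 𝕜 e c A).le_opNorm x).trans ?_
  exact mul_le_mul_of_nonneg_right ((hC A).trans (le_max_left _ _)) (norm_nonneg _)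

end

/-- scalar inequality behind unconditionality with bounded multipliers (real numbers) -/
theorem sum_abs_le (B : ℝ) (A : Finset ℕ) (r : ℕ → ℝ) (h : ∀ S ⊆ A, |∑ i ∈ S, r i| ≤ B) :
    ∑ i ∈ A, |r i| ≤ 2 * B := by
  have h1 := h (A.filter fun i => 0 ≤ r i) (Finset.filter_subset _ _)
  have h2 := h (A.filter fun i => ¬ 0 ≤ r i) (Finset.filter_subset _ _)
  rw [← Finset.sum_filter_add_sum_filter_not A (fun i => 0 ≤ r i)]
  have h3 : ∑ i ∈ A.filter (fun i => 0 ≤ r i), |r i| = ∑ i ∈ A.filter (fun i => 0 ≤ r i), r i :=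
    Finset.sum_congr rfl fun i hi => abs_of_nonneg (Finset.mem_filter.1 hi).2
  have h4 : ∑ i ∈ A.filter (fun i => ¬ 0 ≤ r i), |r i| =
      -∑ i ∈ A.filter (fun i => ¬ 0 ≤ r i), r i := by
    rw [← Finset.sum_neg_distrib]
    exact Finset.sum_congr rfl fun i hi => abs_of_neg (not_le.1 (Finset.mem_filter.1 hi).2)
  rw [h3, h4]
  have h5 := le_abs_self (∑ i ∈ A.filter (fun i => 0 ≤ r i), r i)
  have h6 := neg_le_abs (∑ i ∈ A.filter (fun i => ¬ 0 ≤ r i), r i)
  linarith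

theorem norm_le_re_im (𝕜 : Type) [RCLike 𝕜] (z : 𝕜) : ‖z‖ ≤ |RCLike.re z| + |RCLike.im z| := by
  have h := RCLike.re_add_im z
  calc ‖z‖ = ‖(RCLike.re z : 𝕜) + RCLike.im z * RCLike.I‖ := by rw [h]
    _ ≤ ‖(RCLike.re z : 𝕜)‖ + ‖(RCLike.im z : 𝕜) * RCLike.I‖ := norm_add_le _ _
    _ ≤ |RCLike.re z| + |RCLike.im z| := by
        rw [norm_mul, RCLike.norm_ofReal, RCLike.norm_ofReal]
        have : ‖(RCLike.I : 𝕜)‖ ≤ 1 := by rw [RCLike.norm_I]; split_ifs <;> norm_num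
        nlinarith [abs_nonneg (RCLike.im z)]

theorem sum_norm_le (𝕜 : Type) [RCLike 𝕜] (B : ℝ) (A : Finset ℕ) (z : ℕ → 𝕜)
    (h : ∀ S ⊆ A, ‖∑ i ∈ S, z i‖ ≤ B) : ∑ i ∈ A, ‖z i‖ ≤ 4 * B := by
  have h1 : ∑ i ∈ A, |RCLike.re (z i)| ≤ 2 * B := by
    apply sum_abs_le
    intro S hS
    rw [← map_sum]
    exact (RCLike.abs_re_le_norm _).trans (h S hS)
  have h2 : ∑ i ∈ A, |RCLike.im (z i)| ≤ 2 * B := by
    apply sum_abs_le
    intro S hS
    rw [← map_sum]
    exact (RCLike.abs_im_le_norm _).trans (h S hS)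
  have h3 : ∑ i ∈ A, ‖z i‖ ≤ ∑ i ∈ A, (|RCLike.re (z i)| + |RCLike.im (z i)|) := by
    refine Finset.sum_le_sum fun i _ => ?_
    exact norm_le_re_im 𝕜 (z i)
  rw [Finset.sum_add_distrib] at h3
  linarith

section
variable (𝕜 : Type) [RCLike 𝕜] {X : Type u} [NormedAddCommGroup X]
    [NormedSpace 𝕜 X] [CompleteSpace X] (e : ℕ → X) (c : ℕ → X →L[𝕜] 𝕜)

omit [CompleteSpace X] in
/-- bounded multipliers on a finite family whose subsums are bounded -/
theorem mult_bound (u : ℕ → X) (A : Finset ℕ) (B : ℝ) (hu : ∀ S ⊆ A, ‖∑ i ∈ S, u i‖ ≤ B)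
    (θ : ℕ → 𝕜) (s : ℝ) (hs : 0 ≤ s) (hθ : ∀ i ∈ A, ‖θ i‖ ≤ s) :
    ‖∑ i ∈ A, θ i • u i‖ ≤ 4 * B * s := by
  obtain ⟨ξ, hξ1, hξ2⟩ := exists_dual_vector'' 𝕜 (∑ i ∈ A, θ i • u i)
  have h1 : ‖∑ i ∈ A, θ i • u i‖ = ‖ξ (∑ i ∈ A, θ i • u i)‖ := by
    rw [hξ2, RCLike.norm_ofReal, abs_norm]
  rw [h1, map_sum]
  calc ‖∑ i ∈ A, ξ (θ i • u i)‖ ≤ ∑ i ∈ A, ‖ξ (θ i • u i)‖ := norm_sum_le _ _
    _ ≤ ∑ i ∈ A, s * ‖ξ (u i)‖ := by
        refine Finset.sum_le_sum fun i hi => ?_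
        rw [map_smul, norm_smul]
        exact mul_le_mul_of_nonneg_right (hθ i hi) (norm_nonneg _)
    _ = s * ∑ i ∈ A, ‖ξ (u i)‖ := by rw [Finset.mul_sum]
    _ ≤ s * (4 * B) := by
        refine mul_le_mul_of_nonneg_left ?_ hs
        apply sum_norm_le
        intro S hS
        rw [← map_sum]
        refine (ξ.le_opNorm _).trans ?_
        calc _ ≤ 1 * ‖∑ i ∈ S, u i‖ := mul_le_mul_of_nonneg_right hξ1 (norm_nonneg _)
          _ ≤ B := by rw [one_mul]; exact hu S hS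
    _ = 4 * B * s := by ring


theorem james_c0 (he : Show.UncondBasis 𝕜 e c) (h0 : ¬ Show.ContainsC0 𝕜 X) (a : ℕ → 𝕜) (M : ℝ)
    (hM : ∀ A : Finset ℕ, ‖∑ i ∈ A, a i • e i‖ ≤ M) : Summable (fun i => a i • e i) := by
  by_contra hns
  apply h0
  obtain ⟨K, hK0, hK⟩ := proj_bound 𝕜 e c he
  rw [summable_iff_vanishing_norm] at hns
  push Not at hns
  obtain ⟨ε, hε, hT⟩ := hns
  choose T hT1 hT2 using hT
  let S : ℕ → Finset ℕ := fun n => Nat.rec ∅ (fun _ s => s ∪ T s) n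
  have hS : ∀ n, S (n + 1) = S n ∪ T (S n) := fun n => rfl
  have hmono : Monotone S := monotone_nat_of_le_succ fun n => by
    rw [hS]; exact Finset.subset_union_left
  let t : ℕ → Finset ℕ := fun n => T (S n)
  have htlt : ∀ n m, n < m → Disjoint (t m) (t n) := by
    intro n m hnm
    refine Finset.disjoint_of_subset_right ?_ (hT1 (S m))
    have : t n ⊆ S (n + 1) := by rw [hS]; exact Finset.subset_union_right
    exact this.trans (hmono hnm)
  have htd : ∀ n m, n ≠ m → Disjoint (t n) (t m) := by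
    intro n m hnm
    rcases lt_or_gt_of_ne hnm with h | h
    · exact (htlt n m h).symm
    · exact htlt m n h
  set w : ℕ → X := fun n => ∑ i ∈ t n, a i • e i with hw
  have hsub : ∀ A : Finset ℕ, ‖∑ n ∈ A, w n‖ ≤ M := by
    intro A
    have : ∑ n ∈ A, w n = ∑ i ∈ A.biUnion t, a i • e i := by
      rw [Finset.sum_biUnion]
      intro n _ m _ hnm
      exact htd n m hnm
    rw [this]; exact hM _
  have hM0 : 0 ≤ M := (norm_nonneg _).trans (hM ∅)
  have hbd : ∀ (A : Finset ℕ) (θ : ℕ → 𝕜) (s : ℝ), 0 ≤ s → (∀ n ∈ A, ‖θ n‖ ≤ s) →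
      ‖∑ n ∈ A, θ n • w n‖ ≤ 4 * M * s := fun A θ s hs hθ =>
    mult_bound 𝕜 w A M (fun B _ => hsub B) θ s hs hθ
  have hsumm : ∀ y : ZeroAtInftyContinuousMap ℕ 𝕜, Summable fun n => y n • w n := by
    intro y
    rw [summable_iff_vanishing_norm]
    intro δ hδ
    have hy : Tendsto (fun n => y n) cofinite (𝓝 0) := by
      have := y.zero_at_infty'
      rwa [cocompact_eq_cofinite] at this
    have h4 : 0 < δ / (4 * M + 1) := by positivity
    have hev : ∀ᶠ n in cofinite, ‖y n‖ < δ / (4 * M + 1) := by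
      have := hy.norm
      rw [norm_zero] at this
      exact this.eventually (gt_mem_nhds h4)
    rw [eventually_cofinite] at hev
    refine ⟨hev.toFinset, fun B hB => ?_⟩
    have h5 : ∀ n ∈ B, ‖y n‖ ≤ δ / (4 * M + 1) := by
      intro n hn
      by_contra hc
      push Not at hc
      have : n ∈ hev.toFinset := by
        rw [Set.Finite.mem_toFinset]
        exact not_lt.2 hc.le
      exact (Finset.disjoint_left.1 hB hn) this
    calc _ ≤ 4 * M * (δ / (4 * M + 1)) := hbd B _ _ h4.le h5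
      _ < (4 * M + 1) * (δ / (4 * M + 1)) := by
        apply mul_lt_mul_of_pos_right _ h4; linarith
      _ = δ := by field_simp
  have hVb : ∀ y : ZeroAtInftyContinuousMap ℕ 𝕜, ‖∑' n, y n • w n‖ ≤ 4 * M * ‖y‖ := by
    intro y
    refine le_of_tendsto (hsumm y).hasSum.norm (Eventually.of_forall fun A => ?_)
    refine hbd A _ _ (norm_nonneg _) fun n _ => ?_
    exact (ZeroAtInftyContinuousMap.norm_toBCF_eq_norm (f := y)) ▸
      (y.toBCF.norm_coe_le_norm n)
  let V : ZeroAtInftyContinuousMap ℕ 𝕜 →L[𝕜] X := LinearMap.mkContinuous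
    { toFun := fun y => ∑' n, y n • w n
      map_add' := by
        intro y z
        rw [← (hsumm y).tsum_add (hsumm z)]
        refine tsum_congr fun n => ?_
        rw [ZeroAtInftyContinuousMap.add_apply, add_smul]
      map_smul' := by
        intro r y
        rw [RingHom.id_apply, ← (hsumm y).tsum_const_smul r]
        refine tsum_congr fun n => ?_
        rw [ZeroAtInftyContinuousMap.smul_apply, smul_assoc] } (4 * M) hVb
  have hV : ∀ y, V y = ∑' n, y n • w n := fun y => rfl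
  have hcw : ∀ i n m, i ∈ t n → c i (w m) = if n = m then a i else 0 := by
    intro i n m hi
    rw [hw]
    simp only [map_sum, map_smul, smul_eq_mul, he.1]
    split_ifs with h
    · subst h
      rw [Finset.sum_eq_single i]
      · simp
      · intro j _ hj; rw [if_neg (Ne.symm hj), mul_zero]
      · intro hc; exact absurd hi hc
    · refine Finset.sum_eq_zero fun j hj => ?_
      rw [if_neg, mul_zero]
      rintro rfl
      exact (Finset.disjoint_left.1 (htd n m h) hi) hj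
  have hcV : ∀ y i n, i ∈ t n → c i (V y) = y n * a i := by
    intro y i n hi
    rw [hV, (c i).map_tsum (hsumm y)]
    rw [tsum_eq_single n]
    · rw [map_smul, hcw i n n hi, if_pos rfl, smul_eq_mul]
    · intro m hm
      rw [map_smul, hcw i n m hi, if_neg (Ne.symm hm), smul_zero]
  refine ⟨V, ε / (K + 1), by positivity, fun y => ?_⟩
  have h6 : ∀ n, ‖y n‖ ≤ (K + 1) / ε * ‖V y‖ := by
    intro n
    have h7 := hK (t n) (V y)
    have h8 : ∑ i ∈ t n, c i (V y) • e i = y n • w n := by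
      rw [hw, Finset.smul_sum]
      refine Finset.sum_congr rfl fun i hi => ?_
      rw [hcV y i n hi, mul_smul]
    rw [h8, norm_smul] at h7
    have h9 : ε ≤ ‖w n‖ := hT2 (S n)
    rw [div_mul_eq_mul_div, le_div_iff₀ hε]
    nlinarith [norm_nonneg (y n), norm_nonneg (V y)]
  have h10 : ‖y‖ ≤ (K + 1) / ε * ‖V y‖ := by
    rw [← ZeroAtInftyContinuousMap.norm_toBCF_eq_norm]
    exact (BoundedContinuousFunction.norm_le (by positivity)).2 h6
  rw [div_mul_eq_mul_div, div_le_iff₀ (by positivity)]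
  rw [div_mul_eq_mul_div, le_div_iff₀ hε] at h10
  linarith

end

end Pool.Agent.Helper234.LInf
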