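import Pool.Agent.Helper234.LInf.Uncond

open MeasureTheory Filter Topology

namespace Pool.Agent.Helper234.LInf

universe u

/-- limits of bounded scalar sequences along a fixed free ultrafilter -/
noncomputable def ulim (𝕜 : Type) [RCLike 𝕜] (z : ℕ → 𝕜) : 𝕜 :=
  limUnder (hyperfilter ℕ : Filter ℕ) z

theorem ulim_spec (𝕜 : Type) [RCLike 𝕜] (z : ℕ → 𝕜) (C : ℝ) (hz : ∀ n, ‖z n‖ ≤ C) :
    Tendsto z (hyperfilter ℕ) (𝓝 (ulim 𝕜 z)) := by
  have hc : IsCompact (Metric.closedBall (0 : 𝕜) C) := isCompact_closedBall 0 C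
  have h1 : ∀ᶠ n in (hyperfilter ℕ : Filter ℕ), z n ∈ Metric.closedBall (0 : 𝕜) C :=
    Eventually.of_forall fun n => by simpa using hz n
  obtain ⟨l, _, hl⟩ := hc.ultrafilter_le_nhds ((hyperfilter ℕ).map z)
    (by rw [le_principal_iff]; exact h1)
  exact tendsto_nhds_limUnder ⟨l, hl⟩

section
variable (𝕜 : Type) [RCLike 𝕜] {X : Type u} [NormedAddCommGroup X]
    [NormedSpace 𝕜 X] [CompleteSpace X] (e : ℕ → X) (c : ℕ → X →L[𝕜] 𝕜)

theorem bc_limit (he : Show.UncondBasis 𝕜 e c)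
    (hbc : ∀ (a : ℕ → 𝕜) (M : ℝ), (∀ A : Finset ℕ, ‖∑ i ∈ A, a i • e i‖ ≤ M) →
      Summable (fun i => a i • e i)) : Show.LimitExtends 𝕜 X := by
  obtain ⟨K, hK0, hK⟩ := proj_bound 𝕜 e c he
  let a : BoundedContinuousFunction ℕ X → ℕ → 𝕜 := fun x i => ulim 𝕜 (fun n => c i (x n))
  have ha : ∀ x i, Tendsto (fun n => c i (x n)) (hyperfilter ℕ) (𝓝 (a x i)) := by
    intro x i
    refine ulim_spec 𝕜 _ (‖c i‖ * ‖x‖) fun n => ?_
    exact ((c i).le_opNorm _).trans
      (mul_le_mul_of_nonneg_left (x.norm_coe_le_norm n) (norm_nonneg _))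
  have hb : ∀ x (A : Finset ℕ), ‖∑ i ∈ A, a x i • e i‖ ≤ K * ‖x‖ := by
    intro x A
    have h1 : Tendsto (fun n => ‖∑ i ∈ A, c i (x n) • e i‖) (hyperfilter ℕ)
        (𝓝 ‖∑ i ∈ A, a x i • e i‖) :=
      (tendsto_finsetSum A fun i _ => (ha x i).smul_const (e i)).norm
    refine le_of_tendsto h1 (Eventually.of_forall fun n => ?_)
    exact (hK A (x n)).trans (mul_le_mul_of_nonneg_left (x.norm_coe_le_norm n) hK0)
  have hs : ∀ x, Summable fun i => a x i • e i := fun x => hbc (a x) _ (hb x)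
  have hn : ∀ x, ‖∑' i, a x i • e i‖ ≤ K * ‖x‖ := fun x =>
    le_of_tendsto (hs x).hasSum.norm (Eventually.of_forall fun A => hb x A)
  let Φ : BoundedContinuousFunction ℕ X →L[𝕜] X := LinearMap.mkContinuous
    { toFun := fun x => ∑' i, a x i • e i
      map_add' := by
        intro x y
        rw [← (hs x).tsum_add (hs y)]
        refine tsum_congr fun i => ?_
        rw [← add_smul]
        congr 1
        refine tendsto_nhds_unique (ha (x + y) i) (((ha x i).add (ha y i)).congr fun n => ?_)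
        rw [BoundedContinuousFunction.add_apply, map_add]
      map_smul' := by
        intro r x
        rw [RingHom.id_apply, ← (hs x).tsum_const_smul r]
        refine tsum_congr fun i => ?_
        rw [smul_smul]
        congr 1
        refine tendsto_nhds_unique (ha (r • x) i) (((ha x i).const_mul r).congr fun n => ?_)
        rw [BoundedContinuousFunction.smul_apply, map_smul, smul_eq_mul] } K hn
  refine ⟨Φ, fun x v hv => ?_⟩
  have h2 : ∀ i, a x i = c i v := fun i =>
    tendsto_nhds_unique (ha x i)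
      ((((c i).continuous.tendsto v).comp hv).mono_left Nat.hyperfilter_le_atTop)
  change ∑' i, a x i • e i = v
  simp only [h2]
  exact (he.2 v).tsum_eq

/-- coordinatewise derivative -/
noncomputable def cder (F : ℝ → X) (i : ℕ) (t : ℝ) : 𝕜 := deriv (fun s => c i (F s)) t

omit [CompleteSpace X] in
theorem cder_of_hasDer (F : ℝ → X) (t : ℝ) (v : X) (h : Show.HasDer 𝕜 F v t) (i : ℕ) :
    cder 𝕜 c F i t = c i v := by
  have h1 : Show.HasDer 𝕜 (fun s => c i (F s)) (c i v) t := by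
    unfold Show.HasDer at h ⊢
    refine (((c i).continuous.tendsto v).comp h).congr fun s => ?_
    simp only [Function.comp_apply, map_smul, map_sub]
  rw [hasDer_iff] at h1
  exact h1.deriv

omit [CompleteSpace X] in
theorem c_diff (F : ℝ → X) (hF : Show.IsLip F) :
    ∀ᵐ t ∂I01, ∀ i, DifferentiableAt ℝ (fun s => c i (F s)) t := by
  obtain ⟨K, hK⟩ := hF
  refine ae_restrict_of_ae ?_
  rw [ae_all_iff]
  intro i
  have h1 : LipschitzWith (‖c i‖₊ * K) (fun s => c i (F s)) := (c i).lipschitz.comp hK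
  exact h1.ae_differentiableAt

omit [CompleteSpace X] in
theorem cder_bound (K : ℝ) (hK0 : 0 ≤ K)
    (hK : ∀ (A : Finset ℕ) (x : X), ‖∑ i ∈ A, c i x • e i‖ ≤ K * ‖x‖) (F : ℝ → X) (L : NNReal)
    (hF : LipschitzWith L F) (t : ℝ) (hd : ∀ i, DifferentiableAt ℝ (fun s => c i (F s)) t)
    (A : Finset ℕ) : ‖∑ i ∈ A, cder 𝕜 c F i t • e i‖ ≤ K * L := by
  have h1 : ∀ i, Tendsto (fun h : ℝ => ((h : 𝕜))⁻¹ • (c i (F (t + h)) - c i (F t))) (𝓝[≠] 0)
      (𝓝 (cder 𝕜 c F i t)) := by
    intro i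
    have h2 : Show.HasDer 𝕜 (fun s => c i (F s)) (cder 𝕜 c F i t) t := by
      rw [hasDer_iff]; exact (hd i).hasDerivAt
    exact h2
  have h3 := (tendsto_finsetSum A fun i _ => (h1 i).smul_const (e i)).norm
  refine le_of_tendsto h3 (eventually_nhdsWithin_of_forall fun h hh => ?_)
  have h4 : ∑ i ∈ A, ((h : 𝕜)⁻¹ • (c i (F (t + h)) - c i (F t))) • e i =
      (h : 𝕜)⁻¹ • ∑ i ∈ A, c i (F (t + h) - F t) • e i := by
    rw [Finset.smul_sum]
    refine Finset.sum_congr rfl fun i _ => ?_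
    rw [map_sub, smul_assoc]
  rw [h4, norm_smul, norm_inv, RCLike.norm_ofReal]
  have h5 : ‖F (t + h) - F t‖ ≤ L * |h| := by
    have := hF.dist_le_mul (t + h) t
    rw [dist_eq_norm, Real.dist_eq, add_sub_cancel_left] at this
    exact this
  have h6 : 0 < |h| := abs_pos.2 hh
  rw [inv_mul_le_iff₀ h6]
  calc _ ≤ K * ‖F (t + h) - F t‖ := hK A _
    _ ≤ K * (L * |h|) := mul_le_mul_of_nonneg_left h5 hK0
    _ = _ := by ring

theorem bc_der (he : Show.UncondBasis 𝕜 e c)
    (hbc : ∀ (a : ℕ → 𝕜) (M : ℝ), (∀ A : Finset ℕ, ‖∑ i ∈ A, a i • e i‖ ≤ M) →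
      Summable (fun i => a i • e i)) : Show.DerivativeExtends 𝕜 X := by
  classical
  obtain ⟨K, hK0, hK⟩ := proj_bound 𝕜 e c he
  let g : (ℝ → X) → ℝ → X := fun F t => ∑' i, cder 𝕜 c F i t • e i
  have hs : ∀ F, Show.IsLip F → ∀ᵐ t ∂I01, Summable fun i => cder 𝕜 c F i t • e i := by
    intro F hF
    obtain ⟨L, hL⟩ := hF
    filter_upwards [c_diff 𝕜 c F ⟨L, hL⟩] with t ht
    exact hbc _ _ (cder_bound 𝕜 e c K hK0 hK F L hL t ht)
  have hnb : ∀ F (L : NNReal), LipschitzWith L F → ∀ᵐ t ∂I01, ‖g F t‖ ≤ K * L := by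
    intro F L hL
    filter_upwards [c_diff 𝕜 c F ⟨L, hL⟩, hs F ⟨L, hL⟩] with t ht hs
    exact le_of_tendsto hs.hasSum.norm
      (Eventually.of_forall fun A => cder_bound 𝕜 e c K hK0 hK F L hL t ht A)
  have hmem : ∀ F : ℝ → X, Show.IsLip F → MemLp (g F) ⊤ I01 := by
    intro F hF
    obtain ⟨L, hL⟩ := hF
    refine MemLp.of_bound ?_ (K * L) (hnb F L hL)
    refine aestronglyMeasurable_of_tendsto_ae atTop
      (f := fun (n : ℕ) t => ∑ i ∈ Finset.range n, cder 𝕜 c F i t • e i) ?_ ?_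
    · intro n
      refine Finset.aestronglyMeasurable_fun_sum _ fun i _ => ?_
      exact ((stronglyMeasurable_deriv _).aestronglyMeasurable).smul_const (e i)
    · filter_upwards [hs F ⟨L, hL⟩] with t ht
      exact ht.hasSum.tendsto_sum_nat
  refine ⟨fun F => if hF : Show.IsLip F then (hmem F hF).toLp else 0, K, ?_, ?_, ?_, ?_⟩
  · intro F G hF hG
    have hFG := isLip_add hF hG
    simp only [hF, hG, hFG, dite_true]
    apply Lp.ext
    filter_upwards [(hmem _ hFG).coeFn_toLp, (hmem _ hF).coeFn_toLp, (hmem _ hG).coeFn_toLp,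
      Lp.coeFn_add ((hmem _ hF).toLp) ((hmem _ hG).toLp), c_diff 𝕜 c F hF, c_diff 𝕜 c G hG,
      hs F hF, hs G hG] with t h1 h2 h3 h4 h5 h6 h7 h8
    rw [h1, h4, Pi.add_apply, h2, h3]
    change ∑' i, cder 𝕜 c (fun t => F t + G t) i t • e i =
      (∑' i, cder 𝕜 c F i t • e i) + ∑' i, cder 𝕜 c G i t • e i
    rw [← h7.tsum_add h8]
    refine tsum_congr fun i => ?_
    rw [← add_smul]
    congr 1
    have := ((h5 i).hasDerivAt.add (h6 i).hasDerivAt)
    refine HasDerivAt.deriv (this.congr_of_eventuallyEq (Eventually.of_forall fun s => ?_))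
    simp
  · intro a F hF
    have haF := isLip_smul 𝕜 a hF
    simp only [hF, haF, dite_true]
    apply Lp.ext
    filter_upwards [(hmem _ haF).coeFn_toLp, (hmem _ hF).coeFn_toLp,
      Lp.coeFn_smul a ((hmem _ hF).toLp), c_diff 𝕜 c F hF, hs F hF] with t h1 h2 h4 h5 h7
    rw [h1, h4, Pi.smul_apply, h2]
    change ∑' i, cder 𝕜 c (fun t => a • F t) i t • e i = a • ∑' i, cder 𝕜 c F i t • e i
    rw [← h7.tsum_const_smul a]
    refine tsum_congr fun i => ?_
    rw [smul_smul]
    congr 1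
    have := (h5 i).hasDerivAt.const_mul a
    refine HasDerivAt.deriv (this.congr_of_eventuallyEq (Eventually.of_forall fun s => ?_))
    simp
  · intro F L hL
    have hF : Show.IsLip F := ⟨L, hL⟩
    simp only [hF, dite_true]
    refine lp_norm_le (by positivity) ?_
    filter_upwards [(hmem _ hF).coeFn_toLp, hnb F L hL] with t ht h2
    rw [ht]
    exact h2
  · intro F f hF hder
    simp only [hF, dite_true]
    apply Lp.ext
    filter_upwards [(hmem _ hF).coeFn_toLp, hder] with t h1 h2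
    rw [h1]
    change ∑' i, cder 𝕜 c F i t • e i = f t
    simp only [cder_of_hasDer 𝕜 c F t (f t) h2]
    exact (he.2 (f t)).tsum_eq

omit [CompleteSpace X] in
theorem uncond_no_linf (he : Show.UncondBasis 𝕜 e c) : ¬ Show.ContainsLinf 𝕜 X := by
  rintro ⟨V, r, hr, hV⟩
  have hsep : TopologicalSpace.SeparableSpace X := by
    have h1 : (⊤ : Submodule 𝕜 X) ≤ (Submodule.span 𝕜 (Set.range e)).topologicalClosure := by
      intro x _
      refine mem_closure_of_tendsto (he.2 x) (Eventually.of_forall fun A => ?_)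
      exact Submodule.sum_mem _ fun i _ =>
        Submodule.smul_mem _ _ (Submodule.subset_span (Set.mem_range_self i))
    have h2 : TopologicalSpace.IsSeparable (Submodule.span 𝕜 (Set.range e) : Set X) :=
      (Set.countable_range e).isSeparable.span
    have h3 := h2.closure
    rw [← TopologicalSpace.isSeparable_univ_iff]
    refine h3.mono fun x _ => ?_
    exact h1 (Submodule.mem_top)
  classical
  let f : Set ℕ → BoundedContinuousFunction ℕ 𝕜 := fun A =>
    BoundedContinuousFunction.ofNormedAddCommGroup (fun n => if n ∈ A then (1 : 𝕜) else 0)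
      continuous_of_discreteTopology 1 (fun n => by split_ifs <;> simp)
  have hf : ∀ A n, f A n = if n ∈ A then (1 : 𝕜) else 0 := fun _ _ => rfl
  have hAB : ∀ A B, A ≠ B → r ≤ ‖V (f A) - V (f B)‖ := by
    intro A B hne
    have h5 : ∃ n, ¬ (n ∈ A ↔ n ∈ B) := by
      by_contra hc
      push Not at hc
      exact hne (Set.ext hc)
    obtain ⟨n, hn⟩ := h5
    have h6 : 1 ≤ ‖f A - f B‖ := by
      refine le_trans ?_ ((f A - f B).norm_coe_le_norm n)
      rw [BoundedContinuousFunction.sub_apply, hf, hf]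
      by_cases h1 : n ∈ A <;> by_cases h2 : n ∈ B <;> simp_all
    rw [← map_sub]
    refine le_trans ?_ (hV _)
    exact le_mul_of_one_le_right hr.le h6
  have hdis : (Set.univ : Set (Set ℕ)).PairwiseDisjoint
      (fun A => Metric.ball (V (f A)) (r / 2)) := by
    intro A _ B _ hne
    refine Metric.ball_disjoint_ball ?_
    rw [dist_eq_norm]
    have := hAB A B hne
    linarith
  have hcount := hdis.countable_of_isOpen (fun A _ => Metric.isOpen_ball)
    (fun A _ => ⟨V (f A), Metric.mem_ball_self (by positivity)⟩)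
  have h7 : Countable (Set ℕ) := Set.countable_univ_iff.1 hcount
  obtain ⟨g, hg⟩ := exists_injective_nat (Set ℕ)
  exact Function.cantor_injective g hg

end

end Pool.Agent.Helper234.LInf
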