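import Pool.Agent.Helper234.LInf.Uncond2
import Pool.Agent.Results.MP_85d466_an.Classification

open MeasureTheory Filter Topology

namespace Pool.Agent.Helper234.LInf

open Pool.Agent.Results.MP_85d466_an.Classification

universe u

/-- For a Banach space with an unconditional basis the two spaces of the question are isomorphic
exactly when the space contains no copy of the space of null sequences. -/
theorem uncond_iff (𝕜 : Type) [RCLike 𝕜] (X : Type u) [NormedAddCommGroup X] [NormedSpace 𝕜 X]
    [CompleteSpace X] (h : ∃ e c, Show.UncondBasis 𝕜 (X := X) e c) :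
    Show.Isomorphic 𝕜 X ↔ ¬ Show.ContainsC0 𝕜 X := by
  obtain ⟨e, c, he⟩ := h
  constructor
  · intro hi h0
    exact (result 𝕜 X).2.1 (uncond_no_linf 𝕜 e c he) h0 hi
  · intro h0
    have hbc := james_c0 𝕜 e c he h0
    exact sufficiency 𝕜 X (bc_limit 𝕜 e c he hbc) (bc_der 𝕜 e c he hbc)

end Pool.Agent.Helper234.LInf
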